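import Pool.Agent.Q202.QT.Lin

/-!
# Counting linking vectors of a fourth place
-/

set_option autoImplicit false

namespace Pool.Agent.Q202.QT

open Finset

section
variable {p : ℕ} [hpF : Fact p.Prime]

open Classical in
theorem card_ne : ((univ : Finset (ZMod p)).filter fun x => x ≠ 0).card = p - 1 := by
  have h : (univ : Finset (ZMod p)).filter (fun x => x ≠ 0) = univ.erase 0 := by
    ext x
    simp
  rw [h, card_erase_of_mem (mem_univ _), card_univ, ZMod.card]

theorem two_ne (hp2 : p ≠ 2) : (2 : ZMod p) ≠ 0 := by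
  have hp : p.Prime := hpF.out
  intro h
  have h7 : ((2 : ℕ) : ZMod p) = 0 := by exact_mod_cast h
  rw [ZMod.natCast_eq_zero_iff] at h7
  exact hp2 ((Nat.prime_dvd_prime_iff_eq hp Nat.prime_two).1 h7)

open Classical in
/-- `t ^ 2 - n` is a square for at most `(p + 1) / 2` elements `t` -/
theorem sq_le (hp2 : p ≠ 2) (n : ZMod p) (hn : n ≠ 0) :
    2 * ((univ : Finset (ZMod p)).filter fun t => IsSquare (t ^ 2 - n)).card ≤ p + 1 := by
  have hp : p.Prime := hpF.out
  set T : Finset (ZMod p) := univ.filter fun t => IsSquare (t ^ 2 - n) with hT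
  set T0 : Finset (ZMod p) := univ.filter fun t => t ^ 2 = n with hT0
  have h0 : T0.card ≤ 2 := by
    by_contra hcon
    push Not at hcon
    obtain ⟨a, ha, b, hb, c, hc, hab, hac, hbc⟩ := Finset.two_lt_card.1 hcon
    rw [hT0, mem_filter] at ha hb hc
    have h1 : (a - b) * (a + b) = 0 := by linear_combination ha.2 - hb.2
    have h2 : (a - c) * (a + c) = 0 := by linear_combination ha.2 - hc.2
    have h3 := (mul_eq_zero.1 h1).resolve_left (sub_ne_zero.2 hab)
    have h4 := (mul_eq_zero.1 h2).resolve_left (sub_ne_zero.2 hac)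
    exact hbc (by linear_combination h3 - h4)
  -- choose roots
  have hch : ∀ t : ZMod p, ∃ y : ZMod p, t ∈ T → y ^ 2 = t ^ 2 - n := by
    intro t
    by_cases ht : t ∈ T
    · obtain ⟨y, hy⟩ := (mem_filter.1 ht).2
      exact ⟨y, fun _ => by rw [hy, pow_two]⟩
    · exact ⟨0, fun h => absurd h ht⟩
  choose y hy using hch
  have hsub : T.image (fun t => t + y t) ∪ (T \ T0).image (fun t => t - y t) ⊆ univ.filter fun x : ZMod p => x ≠ 0 := by
    intro m hm
    rw [mem_filter]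
    refine ⟨mem_univ _, ?_⟩
    rw [mem_union, mem_image, mem_image] at hm
    rcases hm with ⟨t, ht, rfl⟩ | ⟨t, ht, rfl⟩
    · intro h
      apply hn
      have := hy t ht
      linear_combination (t - y t) * h + this
    · intro h
      apply hn
      have := hy t (mem_sdiff.1 ht).1
      linear_combination (t + y t) * h + this
  have hinj1 : Set.InjOn (fun t => t + y t) (T : Set (ZMod p)) := by
    intro t ht t' ht' h
    have e1 := hy t ht
    have e2 := hy t' ht'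
    simp only at h
    have hm : t + y t ≠ 0 := by
      intro h'
      exact hn (by linear_combination (t - y t) * h' + e1)
    have h3 : (t + y t) * ((t - y t) - (t' - y t')) = 0 := by
      linear_combination -e1 + e2 - (t' - y t') * h
    have h4 := (mul_eq_zero.1 h3).resolve_left hm
    have h5 : (2 : ZMod p) * (t - t') = 0 := by linear_combination h + h4
    exact sub_eq_zero.1 ((mul_eq_zero.1 h5).resolve_left (two_ne hp2))
  have hinj2 : Set.InjOn (fun t => t - y t) ((T \ T0 : Finset (ZMod p)) : Set (ZMod p)) := by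
    intro t ht t' ht' h
    have e1 := hy t (mem_sdiff.1 ht).1
    have e2 := hy t' (mem_sdiff.1 ht').1
    simp only at h
    have hm : t - y t ≠ 0 := by
      intro h'
      exact hn (by linear_combination (t + y t) * h' + e1)
    have h3 : (t - y t) * ((t + y t) - (t' + y t')) = 0 := by
      linear_combination -e1 + e2 - (t' + y t') * h
    have h4 := (mul_eq_zero.1 h3).resolve_left hm
    have h5 : (2 : ZMod p) * (t - t') = 0 := by linear_combination h + h4
    exact sub_eq_zero.1 ((mul_eq_zero.1 h5).resolve_left (two_ne hp2))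
  have hdis : Disjoint (T.image (fun t => t + y t)) ((T \ T0).image (fun t => t - y t)) := by
    rw [disjoint_left]
    intro m hm hm'
    rw [mem_image] at hm hm'
    obtain ⟨t, ht, rfl⟩ := hm
    obtain ⟨t', ht', h⟩ := hm'
    have e1 := hy t ht
    have e2 := hy t' (mem_sdiff.1 ht').1
    have hm : t + y t ≠ 0 := by
      intro h'
      exact hn (by linear_combination (t - y t) * h' + e1)
    have h3 : (t + y t) * ((t - y t) - (t' + y t')) = 0 := by
      linear_combination -e1 + e2 + (t' + y t') * h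
    have h4 := (mul_eq_zero.1 h3).resolve_left hm
    have h5 : (2 : ZMod p) * (t - t') = 0 := by linear_combination -h + h4
    have h6 : t = t' := sub_eq_zero.1 ((mul_eq_zero.1 h5).resolve_left (two_ne hp2))
    subst h6
    have h7 : (2 : ZMod p) * y t = 0 := by linear_combination -h
    have h8 := (mul_eq_zero.1 h7).resolve_left (two_ne hp2)
    rw [h8] at e1
    apply (mem_sdiff.1 ht').2
    rw [hT0, mem_filter]
    exact ⟨mem_univ _, by linear_combination -e1⟩
  have h1 := card_le_card hsub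
  rw [card_union_of_disjoint hdis, card_image_of_injOn hinj1, card_image_of_injOn hinj2, card_ne] at h1
  have h2 : T.card ≤ (T \ T0).card + T0.card := by
    have := card_le_card (show T ⊆ (T \ T0) ∪ T0 by
      intro t ht
      by_cases h : t ∈ T0
      · exact mem_union_right _ h
      · exact mem_union_left _ (mem_sdiff.2 ⟨ht, h⟩))
    exact this.trans (card_union_le _ _)
  have := hp.one_le
  omega

open Classical in
theorem nonsq_c (hp2 : p ≠ 2) (a b : ZMod p) (ha : a ≠ 0) (hb : b ≠ 0) :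
    p - 1 ≤ 2 * ((univ : Finset (ZMod p)).filter fun c => ¬ IsSquare (tern a b c)).card := by
  have h1 := sq_le hp2 (4 * a * b) (mul_ne_zero (mul_ne_zero (by
    have : (4 : ZMod p) = 2 * 2 := by norm_num
    rw [this]
    exact mul_ne_zero (two_ne hp2) (two_ne hp2)) ha) hb)
  have h2 : ((univ : Finset (ZMod p)).filter fun t => IsSquare (t ^ 2 - 4 * a * b)).card =
      ((univ : Finset (ZMod p)).filter fun c => IsSquare (tern a b c)).card := by
    refine card_bij' (fun t _ => a + b - t) (fun c _ => a + b - c) ?_ ?_ ?_ ?_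
    · intro t ht
      rw [mem_filter] at ht ⊢
      refine ⟨mem_univ _, ?_⟩
      have : tern a b (a + b - t) = t ^ 2 - 4 * a * b := by unfold tern; ring
      rw [this]
      exact ht.2
    · intro t ht
      rw [mem_filter] at ht ⊢
      refine ⟨mem_univ _, ?_⟩
      have : (a + b - t) ^ 2 - 4 * a * b = tern a b t := by unfold tern; ring
      rw [this]
      exact ht.2
    · intro t _
      ring
    · intro t _
      ring
  have h3 := card_filter_add_card_filter_not (s := (univ : Finset (ZMod p))) fun c => IsSquare (tern a b c)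
  rw [card_univ, ZMod.card] at h3
  omega

open Classical in
theorem nonsq_tern (hp2 : p ≠ 2) :
    (p - 1) ^ 3 ≤ 2 * ((univ : Finset (Fin 3 → ZMod p)).filter fun t => ¬ IsSquare (tern (t 0) (t 1) (t 2))).card := by
  set U : Finset (ZMod p) := univ.filter fun x => x ≠ 0 with hU
  have h1 : (U ×ˢ U).card = (p - 1) ^ 2 := by rw [card_product, hU, card_ne, pow_two]
  have h2 : ∑ ab ∈ U ×ˢ U, ((univ : Finset (ZMod p)).filter fun c => ¬ IsSquare (tern ab.1 ab.2 c)).card ≤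
      ((univ : Finset (Fin 3 → ZMod p)).filter fun t => ¬ IsSquare (tern (t 0) (t 1) (t 2))).card := by
    rw [← card_sigma]
    refine card_le_card_of_injOn (fun s => ![s.1.1, s.1.2, s.2]) ?_ ?_
    · rintro ⟨⟨a, b⟩, c⟩ h
      rw [mem_coe, mem_sigma, mem_filter] at h
      rw [mem_coe, mem_filter]
      exact ⟨mem_univ _, h.2.2⟩
    · rintro ⟨⟨a, b⟩, c⟩ _ ⟨⟨a', b'⟩, c'⟩ _ h
      have e0 : a = a' := congrFun h 0
      have e1 : b = b' := congrFun h 1
      have e2 : c = c' := congrFun h 2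
      rw [e0, e1, e2]
  have h3 : (p - 1) ^ 2 * (p - 1) ≤ ∑ ab ∈ U ×ˢ U, 2 * ((univ : Finset (ZMod p)).filter fun c => ¬ IsSquare (tern ab.1 ab.2 c)).card := by
    rw [← h1, ← smul_eq_mul, ← sum_const]
    refine sum_le_sum fun ab hab => ?_
    rw [mem_product] at hab
    exact nonsq_c hp2 _ _ (mem_filter.1 hab.1).2 (mem_filter.1 hab.2).2
  rw [← mul_sum] at h3
  calc (p - 1) ^ 3 = (p - 1) ^ 2 * (p - 1) := by ring
    _ ≤ _ := h3
    _ ≤ _ := Nat.mul_le_mul_left 2 h2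

open Classical in
/-- the number of vectors `s` with nonsquare discriminant -/
theorem count_s (hp2 : p ≠ 2) (l12 l13 l21 l23 l31 l32 x y z : ZMod p) (hD : l12 * l23 * l31 - l13 * l21 * l32 ≠ 0)
    (hx : x ≠ 0) (hy : y ≠ 0) (hz : z ≠ 0) (hA : l31 * z - l21 * y ≠ 0) (hB : l32 * z - l12 * x ≠ 0)
    (hC : l23 * y - l13 * x ≠ 0) :
    (p - 1) ^ 3 ≤ 2 * ((univ : Finset (Fin 3 → ZMod p)).filter fun s =>
      ¬ IsSquare (Del l12 l13 l21 l23 l31 l32 x y z (s 0) (s 1) (s 2))).card := by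
  refine (nonsq_tern hp2).trans (Nat.mul_le_mul_left 2 (le_of_eq ?_))
  set φ : (Fin 3 → ZMod p) → (Fin 3 → ZMod p) := fun s =>
    ![(l31 * z - l21 * y) * (l23 * y * s 1 - l32 * z * s 2), (l32 * z - l12 * x) * (l13 * x * s 0 - l31 * z * s 2),
      (l23 * y - l13 * x) * (l12 * x * s 0 - l21 * y * s 1)] with hφ
  have hinj : Function.Injective φ := by
    intro s s' h
    have e0 : (l31 * z - l21 * y) * (l23 * y * s 1 - l32 * z * s 2) =
        (l31 * z - l21 * y) * (l23 * y * s' 1 - l32 * z * s' 2) := congrFun h 0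
    have e1 : (l32 * z - l12 * x) * (l13 * x * s 0 - l31 * z * s 2) =
        (l32 * z - l12 * x) * (l13 * x * s' 0 - l31 * z * s' 2) := congrFun h 1
    have e2 : (l23 * y - l13 * x) * (l12 * x * s 0 - l21 * y * s 1) =
        (l23 * y - l13 * x) * (l12 * x * s' 0 - l21 * y * s' 1) := congrFun h 2
    have g0 := mul_left_cancel₀ hA e0
    have g1 := mul_left_cancel₀ hB e1
    have g2 := mul_left_cancel₀ hC e2
    have k0 : (l12 * l23 * l31 - l13 * l21 * l32) * (x * (s 0 - s' 0)) = 0 := by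
      linear_combination l23 * l31 * g2 + l21 * l31 * g0 - l21 * l32 * g1
    have k1 : (l12 * l23 * l31 - l13 * l21 * l32) * (y * (s 1 - s' 1)) = 0 := by
      linear_combination l12 * l31 * g0 - l12 * l32 * g1 + l32 * l13 * g2
    have k2 : (l12 * l23 * l31 - l13 * l21 * l32) * (z * (s 2 - s' 2)) = 0 := by
      linear_combination -l12 * l23 * g1 + l23 * l13 * g2 + l13 * l21 * g0
    funext i
    fin_cases i
    · exact sub_eq_zero.1 ((mul_eq_zero.1 ((mul_eq_zero.1 k0).resolve_left hD)).resolve_left hx)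
    · exact sub_eq_zero.1 ((mul_eq_zero.1 ((mul_eq_zero.1 k1).resolve_left hD)).resolve_left hy)
    · exact sub_eq_zero.1 ((mul_eq_zero.1 ((mul_eq_zero.1 k2).resolve_left hD)).resolve_left hz)
  have hsurj : Function.Surjective φ := Finite.injective_iff_surjective.1 hinj
  symm
  refine card_bij (fun s _ => φ s) ?_ (fun s _ s' _ h => hinj h) ?_
  · intro s hs
    rw [mem_filter] at hs ⊢
    exact ⟨mem_univ _, hs.2⟩
  · intro t ht
    obtain ⟨s, rfl⟩ := hsurj t
    refine ⟨s, ?_, rfl⟩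
    rw [mem_filter] at ht ⊢
    exact ⟨mem_univ _, ht.2⟩

/-- the good pairs: the plane condition for the fourth place -/
def Gd (l12 l13 l21 l23 l31 l32 : ZMod p) (w s : Fin 3 → ZMod p) : Prop :=
  (∀ i, w i ≠ 0) ∧ ¬ IsSquare (Del l12 l13 l21 l23 l31 l32 (w 0)⁻¹ (w 1)⁻¹ (w 2)⁻¹ (s 0) (s 1) (s 2))

theorem Gd_smul {l12 l13 l21 l23 l31 l32 : ZMod p} {w s : Fin 3 → ZMod p} (c : ZMod p) (hc : c ≠ 0)
    (h : Gd l12 l13 l21 l23 l31 l32 w s) : Gd l12 l13 l21 l23 l31 l32 (fun i => c * w i) s := by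
  refine ⟨fun i => mul_ne_zero hc (h.1 i), fun hsq => h.2 ?_⟩
  have h1 : Del l12 l13 l21 l23 l31 l32 (c * w 0)⁻¹ (c * w 1)⁻¹ (c * w 2)⁻¹ (s 0) (s 1) (s 2) =
      (c⁻¹ ^ 2) * (c⁻¹ ^ 2) * Del l12 l13 l21 l23 l31 l32 (w 0)⁻¹ (w 1)⁻¹ (w 2)⁻¹ (s 0) (s 1) (s 2) := by
    rw [mul_inv, mul_inv, mul_inv]
    unfold Del tern
    ring
  rw [h1] at hsq
  obtain ⟨r, hr⟩ := hsq
  have hc2 : c⁻¹ ^ 2 ≠ 0 := pow_ne_zero _ (inv_ne_zero hc)
  refine ⟨r / c⁻¹ ^ 2, ?_⟩
  rw [div_mul_div_comm, ← hr]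
  field_simp

open Classical in
theorem count_w (l12 l13 l21 l23 l31 l32 : ZMod p) (hD : l12 * l23 * l31 - l13 * l21 * l32 ≠ 0) :
    (p - 1) ^ 3 ≤ ((univ : Finset (Fin 3 → ZMod p)).filter fun w => (∀ i, w i ≠ 0) ∧ l31 * (w 2)⁻¹ - l21 * (w 1)⁻¹ ≠ 0 ∧
      l32 * (w 2)⁻¹ - l12 * (w 0)⁻¹ ≠ 0 ∧ l23 * (w 1)⁻¹ - l13 * (w 0)⁻¹ ≠ 0).card + 3 * (p - 1) ^ 2 := by
  set U : Finset (ZMod p) := univ.filter fun x => x ≠ 0 with hU
  have h1 : (U ×ˢ U).card = (p - 1) ^ 2 := by rw [card_product, hU, card_ne, pow_two]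
  have h2 : ((univ : Finset (Fin 3 → ZMod p)).filter fun w => ∀ i, w i ≠ 0).card = (p - 1) ^ 3 := by
    have : ((univ : Finset (Fin 3 → ZMod p)).filter fun w => ∀ i, w i ≠ 0) = Fintype.piFinset fun _ : Fin 3 => U := by
      ext w
      rw [mem_filter, Fintype.mem_piFinset]
      constructor
      · intro h i
        rw [hU, mem_filter]
        exact ⟨mem_univ _, h.2 i⟩
      · intro h
        exact ⟨mem_univ _, fun i => (mem_filter.1 (h i)).2⟩
    rw [this, Fintype.card_piFinset]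
    rw [Finset.prod_const, card_univ, Fintype.card_fin, hU, card_ne]
  have hA : ((univ : Finset (Fin 3 → ZMod p)).filter fun w => (∀ i, w i ≠ 0) ∧ l31 * (w 2)⁻¹ - l21 * (w 1)⁻¹ = 0).card ≤
      (p - 1) ^ 2 := by
    rw [← h1]
    refine card_le_card_of_injOn (fun w => (w 0, w 2)) ?_ ?_
    · intro w hw
      rw [mem_coe, mem_filter] at hw
      rw [mem_coe, mem_product]
      exact ⟨mem_filter.2 ⟨mem_univ _, hw.2.1 0⟩, mem_filter.2 ⟨mem_univ _, hw.2.1 2⟩⟩
    · intro w hw w' hw' h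
      rw [mem_coe, mem_filter] at hw hw'
      have e0 : w 0 = w' 0 := congrArg Prod.fst h
      have e2 : w 2 = w' 2 := congrArg Prod.snd h
      have h21 : l21 ≠ 0 := by
        intro h0
        have h3 := hw.2.2
        rw [h0, zero_mul, sub_zero] at h3
        have h31 := (mul_eq_zero.1 h3).resolve_right (inv_ne_zero (hw.2.1 2))
        exact hD (by rw [h31, h0]; ring)
      have e1 : (w 1)⁻¹ = (w' 1)⁻¹ := by
        apply mul_left_cancel₀ h21
        have h3 := hw.2.2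
        have h4 := hw'.2.2
        rw [e2] at h3
        linear_combination h4 - h3
      have e1' := inv_injective e1
      funext i
      fin_cases i
      · exact e0
      · exact e1'
      · exact e2
  have hB : ((univ : Finset (Fin 3 → ZMod p)).filter fun w => (∀ i, w i ≠ 0) ∧ l32 * (w 2)⁻¹ - l12 * (w 0)⁻¹ = 0).card ≤
      (p - 1) ^ 2 := by
    rw [← h1]
    refine card_le_card_of_injOn (fun w => (w 1, w 2)) ?_ ?_
    · intro w hw
      rw [mem_coe, mem_filter] at hw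
      rw [mem_coe, mem_product]
      exact ⟨mem_filter.2 ⟨mem_univ _, hw.2.1 1⟩, mem_filter.2 ⟨mem_univ _, hw.2.1 2⟩⟩
    · intro w hw w' hw' h
      rw [mem_coe, mem_filter] at hw hw'
      have e0 : w 1 = w' 1 := congrArg Prod.fst h
      have e2 : w 2 = w' 2 := congrArg Prod.snd h
      have h21 : l12 ≠ 0 := by
        intro h0
        have h3 := hw.2.2
        rw [h0, zero_mul, sub_zero] at h3
        have h31 := (mul_eq_zero.1 h3).resolve_right (inv_ne_zero (hw.2.1 2))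
        exact hD (by rw [h31, h0]; ring)
      have e1 : (w 0)⁻¹ = (w' 0)⁻¹ := by
        apply mul_left_cancel₀ h21
        have h3 := hw.2.2
        have h4 := hw'.2.2
        rw [e2] at h3
        linear_combination h4 - h3
      have e1' := inv_injective e1
      funext i
      fin_cases i
      · exact e1'
      · exact e0
      · exact e2
  have hC : ((univ : Finset (Fin 3 → ZMod p)).filter fun w => (∀ i, w i ≠ 0) ∧ l23 * (w 1)⁻¹ - l13 * (w 0)⁻¹ = 0).card ≤
      (p - 1) ^ 2 := by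
    rw [← h1]
    refine card_le_card_of_injOn (fun w => (w 1, w 2)) ?_ ?_
    · intro w hw
      rw [mem_coe, mem_filter] at hw
      rw [mem_coe, mem_product]
      exact ⟨mem_filter.2 ⟨mem_univ _, hw.2.1 1⟩, mem_filter.2 ⟨mem_univ _, hw.2.1 2⟩⟩
    · intro w hw w' hw' h
      rw [mem_coe, mem_filter] at hw hw'
      have e0 : w 1 = w' 1 := congrArg Prod.fst h
      have e2 : w 2 = w' 2 := congrArg Prod.snd h
      have h21 : l13 ≠ 0 := by
        intro h0
        have h3 := hw.2.2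
        rw [h0, zero_mul, sub_zero] at h3
        have h31 := (mul_eq_zero.1 h3).resolve_right (inv_ne_zero (hw.2.1 1))
        exact hD (by rw [h31, h0]; ring)
      have e1 : (w 0)⁻¹ = (w' 0)⁻¹ := by
        apply mul_left_cancel₀ h21
        have h3 := hw.2.2
        have h4 := hw'.2.2
        rw [e0] at h3
        linear_combination h4 - h3
      have e1' := inv_injective e1
      funext i
      fin_cases i
      · exact e1'
      · exact e0
      · exact e2
  have hsub : ((univ : Finset (Fin 3 → ZMod p)).filter fun w => ∀ i, w i ≠ 0) ⊆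
      ((univ : Finset (Fin 3 → ZMod p)).filter fun w => (∀ i, w i ≠ 0) ∧ l31 * (w 2)⁻¹ - l21 * (w 1)⁻¹ ≠ 0 ∧
      l32 * (w 2)⁻¹ - l12 * (w 0)⁻¹ ≠ 0 ∧ l23 * (w 1)⁻¹ - l13 * (w 0)⁻¹ ≠ 0) ∪
      (((univ : Finset (Fin 3 → ZMod p)).filter fun w => (∀ i, w i ≠ 0) ∧ l31 * (w 2)⁻¹ - l21 * (w 1)⁻¹ = 0) ∪
      (((univ : Finset (Fin 3 → ZMod p)).filter fun w => (∀ i, w i ≠ 0) ∧ l32 * (w 2)⁻¹ - l12 * (w 0)⁻¹ = 0) ∪
      ((univ : Finset (Fin 3 → ZMod p)).filter fun w => (∀ i, w i ≠ 0) ∧ l23 * (w 1)⁻¹ - l13 * (w 0)⁻¹ = 0))) := by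
    intro w hw
    have hw0 := (mem_filter.1 hw).2
    simp only [mem_union, mem_filter, mem_univ, true_and]
    by_cases a1 : l31 * (w 2)⁻¹ - l21 * (w 1)⁻¹ = 0
    · exact Or.inr (Or.inl ⟨hw0, a1⟩)
    by_cases a2 : l32 * (w 2)⁻¹ - l12 * (w 0)⁻¹ = 0
    · exact Or.inr (Or.inr (Or.inl ⟨hw0, a2⟩))
    by_cases a3 : l23 * (w 1)⁻¹ - l13 * (w 0)⁻¹ = 0
    · exact Or.inr (Or.inr (Or.inr ⟨hw0, a3⟩))
    · exact Or.inl ⟨hw0, a1, a2, a3⟩
  have h3 := card_le_card hsub
  rw [h2] at h3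
  have h4 := card_union_le (((univ : Finset (Fin 3 → ZMod p)).filter fun w => (∀ i, w i ≠ 0) ∧ l31 * (w 2)⁻¹ - l21 * (w 1)⁻¹ ≠ 0 ∧
      l32 * (w 2)⁻¹ - l12 * (w 0)⁻¹ ≠ 0 ∧ l23 * (w 1)⁻¹ - l13 * (w 0)⁻¹ ≠ 0))
      (((univ : Finset (Fin 3 → ZMod p)).filter fun w => (∀ i, w i ≠ 0) ∧ l31 * (w 2)⁻¹ - l21 * (w 1)⁻¹ = 0) ∪
      (((univ : Finset (Fin 3 → ZMod p)).filter fun w => (∀ i, w i ≠ 0) ∧ l32 * (w 2)⁻¹ - l12 * (w 0)⁻¹ = 0) ∪
      ((univ : Finset (Fin 3 → ZMod p)).filter fun w => (∀ i, w i ≠ 0) ∧ l23 * (w 1)⁻¹ - l13 * (w 0)⁻¹ = 0)))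
  have h5 := card_union_le ((univ : Finset (Fin 3 → ZMod p)).filter fun w => (∀ i, w i ≠ 0) ∧ l31 * (w 2)⁻¹ - l21 * (w 1)⁻¹ = 0)
      (((univ : Finset (Fin 3 → ZMod p)).filter fun w => (∀ i, w i ≠ 0) ∧ l32 * (w 2)⁻¹ - l12 * (w 0)⁻¹ = 0) ∪
      ((univ : Finset (Fin 3 → ZMod p)).filter fun w => (∀ i, w i ≠ 0) ∧ l23 * (w 1)⁻¹ - l13 * (w 0)⁻¹ = 0))
  have h6 := card_union_le ((univ : Finset (Fin 3 → ZMod p)).filter fun w => (∀ i, w i ≠ 0) ∧ l32 * (w 2)⁻¹ - l12 * (w 0)⁻¹ = 0)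
      ((univ : Finset (Fin 3 → ZMod p)).filter fun w => (∀ i, w i ≠ 0) ∧ l23 * (w 1)⁻¹ - l13 * (w 0)⁻¹ = 0)
  omega

open Classical in
/-- the number of good pairs -/
theorem count_ws (hp2 : p ≠ 2) (l12 l13 l21 l23 l31 l32 : ZMod p) (hD : l12 * l23 * l31 - l13 * l21 * l32 ≠ 0) :
    (p - 1) ^ 6 ≤ 2 * (∑ w : Fin 3 → ZMod p, ((univ : Finset (Fin 3 → ZMod p)).filter fun s =>
      Gd l12 l13 l21 l23 l31 l32 w s).card) + 3 * (p - 1) ^ 5 := by
  set W : Finset (Fin 3 → ZMod p) := (univ : Finset (Fin 3 → ZMod p)).filter fun w => (∀ i, w i ≠ 0) ∧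
      l31 * (w 2)⁻¹ - l21 * (w 1)⁻¹ ≠ 0 ∧ l32 * (w 2)⁻¹ - l12 * (w 0)⁻¹ ≠ 0 ∧ l23 * (w 1)⁻¹ - l13 * (w 0)⁻¹ ≠ 0 with hW
  have h1 : W.card * (p - 1) ^ 3 ≤ 2 * (∑ w : Fin 3 → ZMod p, ((univ : Finset (Fin 3 → ZMod p)).filter fun s =>
      Gd l12 l13 l21 l23 l31 l32 w s).card) := by
    calc W.card * (p - 1) ^ 3 = ∑ w ∈ W, (p - 1) ^ 3 := by rw [sum_const, smul_eq_mul]
      _ ≤ ∑ w ∈ W, 2 * ((univ : Finset (Fin 3 → ZMod p)).filter fun s => Gd l12 l13 l21 l23 l31 l32 w s).card := by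
        refine sum_le_sum fun w hw => ?_
        obtain ⟨-, h0, hA, hB, hC⟩ := mem_filter.1 hw
        refine (count_s hp2 l12 l13 l21 l23 l31 l32 (w 0)⁻¹ (w 1)⁻¹ (w 2)⁻¹ hD (inv_ne_zero (h0 0)) (inv_ne_zero (h0 1))
          (inv_ne_zero (h0 2)) hA hB hC).trans (Nat.mul_le_mul_left 2 (card_le_card ?_))
        intro s hs
        rw [mem_filter] at hs ⊢
        exact ⟨mem_univ _, h0, hs.2⟩
      _ ≤ ∑ w : Fin 3 → ZMod p, 2 * ((univ : Finset (Fin 3 → ZMod p)).filter fun s => Gd l12 l13 l21 l23 l31 l32 w s).card :=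
        sum_le_sum_of_subset (subset_univ _)
      _ = _ := by rw [mul_sum]
  have h2 := Nat.mul_le_mul_right ((p - 1) ^ 3) (count_w l12 l13 l21 l23 l31 l32 hD)
  rw [← hW, add_mul] at h2
  have e1 : (p - 1) ^ 3 * (p - 1) ^ 3 = (p - 1) ^ 6 := by ring
  have e2 : 3 * (p - 1) ^ 2 * (p - 1) ^ 3 = 3 * (p - 1) ^ 5 := by ring
  rw [e1, e2] at h2
  omega

end

end Pool.Agent.Q202.QT
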