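import Pool.Agent.Q202.QT.Trip

/-!
# Ordinary deformations at three tame primes: the conditions of the criterion
-/

set_option autoImplicit false

namespace Pool.Agent.Q202.QT

open Matrix Pool.Agent.TH831.OT Pool.Agent.TH831.OE

section
variable {K : Type} [Field K]

theorem nto_of_traces {S1 : Finset ℕ} {u : ℕ → K} {lam : ℕ → ℕ → K} {ε : K} (hu : ∀ l ∈ S1, u l ≠ 0)
    {C : Matrix (Fin 2) (Fin 2) K} {T : ℕ → Matrix (Fin 2) (Fin 2) K} (hsq : ∀ l ∈ S1, T l * T l = 0)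
    (hrel : ∀ l ∈ S1, (u l • C + ∑ j ∈ S1, lam l j • T j) * T l - T l * (u l • C + ∑ j ∈ S1, lam l j • T j) =
      (ε * u l) • T l)
    {v : Fin 2 → K} (hv0 : v ≠ 0) (hv1 : wed (C *ᵥ v) v = 0) (htr : ∀ l ∈ S1, ∀ j ∈ S1, (T l * T j).trace = 0) :
    ∃ w : Fin 2 → K, w ≠ 0 ∧ wed (C *ᵥ w) w = 0 ∧ ∀ l ∈ S1, T l *ᵥ w = 0 := by
  by_cases hT : ∀ l ∈ S1, T l = 0
  · exact ⟨v, hv0, hv1, fun l hl => by rw [hT l hl, Matrix.zero_mulVec]⟩
  push Not at hT
  obtain ⟨k, hk, hTk⟩ := hT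
  obtain ⟨w, hw0, hTkw, hker, hw'⟩ := nil_kernel (hsq k hk) hTk
  have hall : ∀ l ∈ S1, T l *ᵥ w = 0 := fun l hl => hw' _ (hsq l hl) (htr k hk l hl)
  refine ⟨w, hw0, hker _ ?_, hall⟩
  have h0 : (u k • C + ∑ j ∈ S1, lam k j • T j) *ᵥ w = u k • (C *ᵥ w) := by
    rw [Matrix.add_mulVec, Matrix.smul_mulVec, Matrix.sum_mulVec, Finset.sum_eq_zero, add_zero]
    intro j hj
    rw [Matrix.smul_mulVec, hall j hj, smul_zero]
  have h1 := congrArg (fun M => M *ᵥ w) (hrel k hk)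
  simp only [Matrix.sub_mulVec, ← Matrix.mulVec_mulVec, h0, hTkw, Matrix.mulVec_zero, Matrix.smul_mulVec, smul_zero, zero_sub,
    Matrix.mulVec_smul] at h1
  exact (smul_eq_zero.1 (neg_eq_zero.1 h1)).resolve_left (hu k hk)

theorem rel_div {C X Y Z : Matrix (Fin 2) (Fin 2) K} {u x y z ε : K} (hu : u ≠ 0)
    (h : (u • C + (x • X + (y • Y + z • Z))) * X - X * (u • C + (x • X + (y • Y + z • Z))) = (ε * u) • X) :
    (C + (y / u) • Y + (z / u) • Z) * X - X * (C + (y / u) • Y + (z / u) • Z) = ε • X := by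
  obtain ⟨y', rfl⟩ : ∃ y', y = u * y' := ⟨y / u, by field_simp⟩
  obtain ⟨z', rfl⟩ : ∃ z', z = u * z' := ⟨z / u, by field_simp⟩
  rw [mul_div_cancel_left₀ _ hu, mul_div_cancel_left₀ _ hu]
  have h1 : u • ((C + y' • Y + z' • Z) * X - X * (C + y' • Y + z' • Z) - ε • X) = 0 := by
    have h2 : u • ((C + y' • Y + z' • Z) * X - X * (C + y' • Y + z' • Z) - ε • X) =
        ((u • C + (x • X + ((u * y') • Y + (u * z') • Z))) * X - X * (u • C + (x • X + ((u * y') • Y + (u * z') • Z)))) -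
          (ε * u) • X := by
      simp only [add_mul, mul_add, Matrix.smul_mul, Matrix.mul_smul]
      module
    rw [h2, h, sub_self]
  exact sub_eq_zero.1 ((smul_eq_zero.1 h1).resolve_left hu)

theorem sum3 {M : Type} [AddCommMonoid M] {k l q : ℕ} (hkl : k ≠ l) (hkq : k ≠ q) (hlq : l ≠ q) (g : ℕ → M) :
    ∑ j ∈ ({k, l, q} : Finset ℕ), g j = g k + (g l + g q) := by
  rw [Finset.sum_insert (by simp [hkl, hkq]), Finset.sum_insert (by simp [hlq]), Finset.sum_singleton]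

/-- the criterion for even levels, three primes -/
theorem nto_three (two : (2 : K) ≠ 0) {k l q : ℕ} (hkl : k ≠ l) (hkq : k ≠ q) (hlq : l ≠ q) {u : ℕ → K} {lam : ℕ → ℕ → K}
    {b : ℕ → K} (hk : u k ≠ 0) (hl : u l ≠ 0) (hq : u q ≠ 0)
    (c1 : lam k l / u k ≠ lam q l / u q) (c2 : lam l k / u l ≠ lam q k / u q) (c3 : lam k q / u k ≠ lam l q / u l)
    (d1 : lam l k / u l * b l ≠ lam k l / u k * b k) (d2 : lam q k / u q * b q ≠ lam k q / u k * b k)
    (d3 : lam q l / u q * b q ≠ lam l q / u l * b l)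
    (hQ : QQ (lam k l / u k) (lam k q / u k) (lam l k / u l) (lam l q / u l) (lam q k / u q) (lam q l / u q) (b k) (b l) (b q) ≠ 0)
    (ε : K) (hε : ε = 0 ∨ ε = 1) : NTo {k, l, q} u lam b ε := by
  intro C T hC hsq hrel ⟨v, hv0, hv1, hv2⟩
  have hu : ∀ i ∈ ({k, l, q} : Finset ℕ), u i ≠ 0 := by
    intro i hi
    simp only [Finset.mem_insert, Finset.mem_singleton] at hi
    rcases hi with rfl | rfl | rfl
    · exact hk
    · exact hl
    · exact hq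
  have sk := hsq k (by simp)
  have sl := hsq l (by simp)
  have sq := hsq q (by simp)
  have rk := hrel k (by simp)
  have rl := hrel l (by simp)
  have rq := hrel q (by simp)
  rw [sum3 hkl hkq hlq] at rk rl rq hv2
  rw [add_left_comm (lam l k • T k)] at rl
  rw [add_comm (lam q l • T l), add_left_comm (lam q k • T k)] at rq
  have rk' := rel_div hk rk
  have rl' := rel_div hl rl
  have rq' := rel_div hq rq
  have hv2' : wed ((b k • T k + b l • T l + b q • T q) *ᵥ v) v = 0 := by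
    rw [add_assoc]
    exact hv2
  have htr : (T k * T l).trace = 0 ∧ (T k * T q).trace = 0 ∧ (T l * T q).trace = 0 := by
    rcases hε with rfl | rfl
    · rw [zero_smul] at rk' rl' rq'
      exact core0 two hC sk sl sq rk' rl' rq' hv0 hv1 hv2' c1 c2 c3 d1 d2 d3
    · exact core1 two hC sk sl sq rk' rl' rq' hv0 hv1 hv2' hQ
  obtain ⟨t1, t2, t3⟩ := htr
  refine nto_of_traces hu hsq hrel hv0 hv1 ?_
  intro i hi j hj
  simp only [Finset.mem_insert, Finset.mem_singleton] at hi hj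
  rcases hi with rfl | rfl | rfl <;> rcases hj with rfl | rfl | rfl
  · rw [sk, Matrix.trace_zero]
  · exact t1
  · exact t2
  · rw [Matrix.trace_mul_comm]; exact t1
  · rw [sl, Matrix.trace_zero]
  · exact t3
  · rw [Matrix.trace_mul_comm]; exact t2
  · rw [Matrix.trace_mul_comm]; exact t3
  · rw [sq, Matrix.trace_zero]

theorem nto_mono {S1 S2 : Finset ℕ} (h : S1 ⊆ S2) {u : ℕ → K} {lam : ℕ → ℕ → K} {b : ℕ → K} {ε : K}
    (hN : NTo S2 u lam b ε) : NTo S1 u lam b ε := by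
  classical
  intro C T hC hsq hrel ⟨v, hv0, hv1, hv2⟩
  set T' : ℕ → Matrix (Fin 2) (Fin 2) K := fun j => if j ∈ S1 then T j else 0 with hT'
  have hin : ∀ j ∈ S1, T' j = T j := fun j hj => by rw [hT']; exact if_pos hj
  have hout : ∀ j, j ∉ S1 → T' j = 0 := fun j hj => by rw [hT']; exact if_neg hj
  have hsum : ∀ c : ℕ → K, ∑ j ∈ S2, c j • T' j = ∑ j ∈ S1, c j • T j := by
    intro c
    rw [← Finset.sum_subset h (fun j _ hj => by rw [hout j hj, smul_zero])]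
    exact Finset.sum_congr rfl fun j hj => by rw [hin j hj]
  obtain ⟨w, hw0, hw1, hw2⟩ := hN C T' hC (fun l _ => by
    by_cases hl : l ∈ S1
    · rw [hin l hl, hsq l hl]
    · rw [hout l hl, zero_mul]) (fun l _ => by
    by_cases hl : l ∈ S1
    · rw [hsum, hin l hl]
      exact hrel l hl
    · rw [hout l hl, mul_zero, zero_mul, sub_zero, smul_zero]) ⟨v, hv0, hv1, by rw [hsum]; exact hv2⟩
  exact ⟨w, hw0, hw1, fun l hl => by rw [← hin l hl]; exact hw2 l (h hl)⟩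

/-- the condition on pairs of characters -/
def NP (S1 : Finset ℕ) (u : ℕ → K) (lam : ℕ → ℕ → K) (b : ℕ → K) : Prop :=
  ∀ (xp yp : K) (x y : ℕ → K), (∀ l ∈ S1, x l * y l = 0) →
    (∀ l ∈ S1, x l * (u l * yp + ∑ j ∈ S1, lam l j * y j) = 0) →
    (∀ l ∈ S1, y l * (u l * xp + ∑ j ∈ S1, lam l j * x j) = 0) →
    ((xp = 0 ∧ ∑ j ∈ S1, b j * x j = 0) ∨ (yp = 0 ∧ ∑ j ∈ S1, b j * y j = 0)) →
    (xp = 0 ∧ ∀ l ∈ S1, x l = 0) ∨ (yp = 0 ∧ ∀ l ∈ S1, y l = 0)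

theorem np_mono {S1 S2 : Finset ℕ} (h : S1 ⊆ S2) {u : ℕ → K} {lam : ℕ → ℕ → K} {b : ℕ → K}
    (hN : NP S2 u lam b) : NP S1 u lam b := by
  classical
  intro xp yp x y h1 h2 h3 h4
  set e : (ℕ → K) → ℕ → K := fun z j => if j ∈ S1 then z j else 0 with he
  have hin : ∀ z, ∀ j ∈ S1, e z j = z j := fun z j hj => by rw [he]; exact if_pos hj
  have hout : ∀ z, ∀ j, j ∉ S1 → e z j = 0 := fun z j hj => by rw [he]; exact if_neg hj
  have hsum : ∀ (z : ℕ → K) (c : ℕ → K), ∑ j ∈ S2, c j * e z j = ∑ j ∈ S1, c j * z j := by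
    intro z c
    rw [← Finset.sum_subset h (fun j _ hj => by rw [hout z j hj, mul_zero])]
    exact Finset.sum_congr rfl fun j hj => by rw [hin z j hj]
  have key := hN xp yp (e x) (e y) (fun l _ => by
    by_cases hl : l ∈ S1
    · rw [hin x l hl, hin y l hl, h1 l hl]
    · rw [hout x l hl, zero_mul]) (fun l _ => by
    by_cases hl : l ∈ S1
    · rw [hsum, hin x l hl, h2 l hl]
    · rw [hout x l hl, zero_mul]) (fun l _ => by
    by_cases hl : l ∈ S1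
    · rw [hsum, hin y l hl, h3 l hl]
    · rw [hout y l hl, zero_mul]) (by rw [hsum, hsum]; exact h4)
  rcases key with ⟨k1, k2⟩ | ⟨k1, k2⟩
  · exact Or.inl ⟨k1, fun l hl => by rw [← hin x l hl]; exact k2 l (h hl)⟩
  · exact Or.inr ⟨k1, fun l hl => by rw [← hin y l hl]; exact k2 l (h hl)⟩

/-- support of size one -/
theorem npA {x1 y1 y2 y3 yp u1 m11 m12 m13 m21 m22 m23 m31 m32 m33 b1 b2 b3 : K} (hx : x1 ≠ 0) (hu1 : u1 ≠ 0) (h1 : x1 * y1 = 0)
    (e1 : x1 * (u1 * yp + (m11 * y1 + (m12 * y2 + m13 * y3))) = 0)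
    (f2 : y2 * (m21 * x1 + (m22 * 0 + m23 * 0)) = 0) (f3 : y3 * (m31 * x1 + (m32 * 0 + m33 * 0)) = 0)
    (g : b1 * x1 + (b2 * 0 + b3 * 0) = 0) (hb : b1 ≠ 0 ∨ (m21 ≠ 0 ∧ m31 ≠ 0)) :
    yp = 0 ∧ y1 = 0 ∧ y2 = 0 ∧ y3 = 0 := by
  have k1 : y1 = 0 := (mul_eq_zero.1 h1).resolve_left hx
  have k2 : b1 * x1 = 0 := by linear_combination g
  obtain ⟨hm2, hm3⟩ := hb.resolve_left (fun h => h ((mul_eq_zero.1 k2).resolve_right hx))
  have k3 : y2 = 0 := by
    have : y2 * (m21 * x1) = 0 := by linear_combination f2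
    exact (mul_eq_zero.1 this).resolve_right (mul_ne_zero hm2 hx)
  have k4 : y3 = 0 := by
    have : y3 * (m31 * x1) = 0 := by linear_combination f3
    exact (mul_eq_zero.1 this).resolve_right (mul_ne_zero hm3 hx)
  refine ⟨?_, k1, k3, k4⟩
  rw [k1, k3, k4] at e1
  have : x1 * (u1 * yp) = 0 := by linear_combination e1
  exact (mul_eq_zero.1 ((mul_eq_zero.1 this).resolve_left hx)).resolve_left hu1

/-- support of size two -/
theorem npB {x1 x2 y1 y2 y3 yp u1 u2 m11 m12 m13 m21 m22 m23 : K} (hx : x1 ≠ 0) (hx2 : x2 ≠ 0) (hu1 : u1 ≠ 0)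
    (h1 : x1 * y1 = 0) (h2 : x2 * y2 = 0)
    (e1 : x1 * (u1 * yp + (m11 * y1 + (m12 * y2 + m13 * y3))) = 0)
    (e2 : x2 * (u2 * yp + (m21 * y1 + (m22 * y2 + m23 * y3))) = 0) (hm : m13 * u2 ≠ m23 * u1) :
    yp = 0 ∧ y1 = 0 ∧ y2 = 0 ∧ y3 = 0 := by
  have k1 : y1 = 0 := (mul_eq_zero.1 h1).resolve_left hx
  have k2 : y2 = 0 := (mul_eq_zero.1 h2).resolve_left hx2
  rw [k1, k2] at e1 e2
  have e1' := (mul_eq_zero.1 e1).resolve_left hx
  have e2' := (mul_eq_zero.1 e2).resolve_left hx2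
  have k3 : y3 = 0 := by
    have : (m13 * u2 - m23 * u1) * y3 = 0 := by linear_combination u2 * e1' - u1 * e2'
    exact (mul_eq_zero.1 this).resolve_left (sub_ne_zero.2 hm)
  refine ⟨?_, k1, k2, k3⟩
  rw [k3] at e1'
  have : u1 * yp = 0 := by linear_combination e1'
  exact (mul_eq_zero.1 this).resolve_left hu1

theorem np3 {x1 x2 x3 y1 y2 y3 yp u1 u2 u3 m11 m12 m13 m21 m22 m23 m31 m32 m33 b1 b2 b3 : K}
    (hu1 : u1 ≠ 0) (hu2 : u2 ≠ 0) (hu3 : u3 ≠ 0) (h1 : x1 * y1 = 0) (h2 : x2 * y2 = 0) (h3 : x3 * y3 = 0)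
    (e1 : x1 * (u1 * yp + (m11 * y1 + (m12 * y2 + m13 * y3))) = 0)
    (e2 : x2 * (u2 * yp + (m21 * y1 + (m22 * y2 + m23 * y3))) = 0)
    (e3 : x3 * (u3 * yp + (m31 * y1 + (m32 * y2 + m33 * y3))) = 0)
    (f1 : y1 * (m11 * x1 + (m12 * x2 + m13 * x3)) = 0)
    (f2 : y2 * (m21 * x1 + (m22 * x2 + m23 * x3)) = 0) (f3 : y3 * (m31 * x1 + (m32 * x2 + m33 * x3)) = 0)
    (g : b1 * x1 + (b2 * x2 + b3 * x3) = 0)
    (r3 : m13 * u2 ≠ m23 * u1) (r2 : m12 * u3 ≠ m32 * u1) (r1 : m21 * u3 ≠ m31 * u2)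
    (hb1 : b1 ≠ 0 ∨ (m21 ≠ 0 ∧ m31 ≠ 0)) (hb2 : b2 ≠ 0 ∨ (m12 ≠ 0 ∧ m32 ≠ 0)) (hb3 : b3 ≠ 0 ∨ (m13 ≠ 0 ∧ m23 ≠ 0)) :
    (x1 = 0 ∧ x2 = 0 ∧ x3 = 0) ∨ (yp = 0 ∧ y1 = 0 ∧ y2 = 0 ∧ y3 = 0) := by
  by_cases x10 : x1 = 0
  · by_cases x20 : x2 = 0
    · by_cases x30 : x3 = 0
      · exact Or.inl ⟨x10, x20, x30⟩
      · right
        subst x10 x20
        obtain ⟨a1, a2, a3, a4⟩ := npA (yp := yp) (x1 := x3) (y1 := y3) (y2 := y1) (y3 := y2) (m11 := m33) (m12 := m31) (m13 := m32)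
          (m21 := m13) (m22 := m11) (m23 := m12) (m31 := m23) (m32 := m21) (m33 := m22) (b1 := b3) (b2 := b1) (b3 := b2)
          x30 hu3 h3 (by linear_combination e3) (by linear_combination f1) (by linear_combination f2) (by linear_combination g) hb3
        exact ⟨a1, a3, a4, a2⟩
    · by_cases x30 : x3 = 0
      · right
        subst x10 x30
        obtain ⟨a1, a2, a3, a4⟩ := npA (yp := yp) (x1 := x2) (y1 := y2) (y2 := y1) (y3 := y3) (m11 := m22) (m12 := m21) (m13 := m23)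
          (m21 := m12) (m22 := m11) (m23 := m13) (m31 := m32) (m32 := m31) (m33 := m33) (b1 := b2) (b2 := b1) (b3 := b3)
          x20 hu2 h2 (by linear_combination e2) (by linear_combination f1) (by linear_combination f3) (by linear_combination g) hb2
        exact ⟨a1, a3, a2, a4⟩
      · right
        obtain ⟨a1, a2, a3, a4⟩ := npB (yp := yp) (x1 := x2) (x2 := x3) (y1 := y2) (y2 := y3) (y3 := y1) (m11 := m22) (m12 := m23)
          (m13 := m21) (m21 := m32) (m22 := m33) (m23 := m31) x20 x30 hu2 h2 h3 (by linear_combination e2)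
          (by linear_combination e3) r1
        exact ⟨a1, a4, a2, a3⟩
  · by_cases x20 : x2 = 0
    · by_cases x30 : x3 = 0
      · right
        subst x20 x30
        exact npA x10 hu1 h1 e1 f2 f3 g hb1
      · right
        obtain ⟨a1, a2, a3, a4⟩ := npB (yp := yp) (x1 := x1) (x2 := x3) (y1 := y1) (y2 := y3) (y3 := y2) (m11 := m11) (m12 := m13)
          (m13 := m12) (m21 := m31) (m22 := m33) (m23 := m32) x10 x30 hu1 h1 h3 (by linear_combination e1)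
          (by linear_combination e3) r2
        exact ⟨a1, a2, a4, a3⟩
    · right
      exact npB x10 x20 hu1 h1 h2 e1 e2 r3

theorem np_three {k l q : ℕ} (hkl : k ≠ l) (hkq : k ≠ q) (hlq : l ≠ q) {u : ℕ → K} {lam : ℕ → ℕ → K}
    {b : ℕ → K} (hk : u k ≠ 0) (hl : u l ≠ 0) (hq : u q ≠ 0)
    (c1 : lam k l * u q ≠ lam q l * u k) (c2 : lam l k * u q ≠ lam q k * u l) (c3 : lam k q * u l ≠ lam l q * u k)
    (d1 : b k ≠ 0 ∨ (lam l k ≠ 0 ∧ lam q k ≠ 0)) (d2 : b l ≠ 0 ∨ (lam k l ≠ 0 ∧ lam q l ≠ 0))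
    (d3 : b q ≠ 0 ∨ (lam k q ≠ 0 ∧ lam l q ≠ 0)) : NP {k, l, q} u lam b := by
  have core : ∀ (yp : K) (x y : ℕ → K), (∀ i ∈ ({k, l, q} : Finset ℕ), x i * y i = 0) →
      (∀ i ∈ ({k, l, q} : Finset ℕ), x i * (u i * yp + ∑ j ∈ ({k, l, q} : Finset ℕ), lam i j * y j) = 0) →
      (∀ i ∈ ({k, l, q} : Finset ℕ), y i * (u i * 0 + ∑ j ∈ ({k, l, q} : Finset ℕ), lam i j * x j) = 0) →
      ∑ j ∈ ({k, l, q} : Finset ℕ), b j * x j = 0 →
      (∀ i ∈ ({k, l, q} : Finset ℕ), x i = 0) ∨ (yp = 0 ∧ ∀ i ∈ ({k, l, q} : Finset ℕ), y i = 0) := by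
    intro yp x y h1 h2 h3 h4
    have mk : k ∈ ({k, l, q} : Finset ℕ) := by simp
    have ml : l ∈ ({k, l, q} : Finset ℕ) := by simp
    have mq : q ∈ ({k, l, q} : Finset ℕ) := by simp
    have e1 := h2 k mk
    have e2 := h2 l ml
    have e3 := h2 q mq
    have f1 := h3 k mk
    have f2 := h3 l ml
    have f3 := h3 q mq
    rw [sum3 hkl hkq hlq] at e1 e2 e3 f1 f2 f3 h4
    rw [mul_zero, zero_add] at f1 f2 f3
    rcases np3 hk hl hq (h1 k mk) (h1 l ml) (h1 q mq) e1 e2 e3 f1 f2 f3 h4 c3 c1 c2 d1 d2 d3 with ⟨a1, a2, a3⟩ | ⟨a0, a1, a2, a3⟩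
    · left
      intro i hi
      simp only [Finset.mem_insert, Finset.mem_singleton] at hi
      rcases hi with rfl | rfl | rfl
      · exact a1
      · exact a2
      · exact a3
    · right
      refine ⟨a0, fun i hi => ?_⟩
      simp only [Finset.mem_insert, Finset.mem_singleton] at hi
      rcases hi with rfl | rfl | rfl
      · exact a1
      · exact a2
      · exact a3
  intro xp yp x y h1 h2 h3 h4
  rcases h4 with ⟨rfl, h4⟩ | ⟨rfl, h4⟩
  · rcases core yp x y h1 h2 h3 h4 with h | h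
    · exact Or.inl ⟨rfl, h⟩
    · exact Or.inr h
  · rcases core xp y x (fun i hi => by rw [mul_comm]; exact h1 i hi) h3 h2 h4 with h | h
    · exact Or.inr ⟨rfl, h⟩
    · exact Or.inl h

end

end Pool.Agent.Q202.QT
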