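import Pool.Agent.Q202.QT.Dens3
import Pool.Agent.Q202.QT.Trip2

/-!
# Most primes are good as the third tame prime, ordinary case
-/

set_option autoImplicit false

namespace Pool.Agent.Q202.QT

open Finset Filter Topology Pool.Agent.W401.Cheb
open Pool.Agent.W569.TG (lk)
open Pool.Agent.Q202.RT

section
variable {p : ℕ} [hpF : Fact p.Prime]

open Classical in
/-- counting triples by excluding values one after the other -/
theorem count3 (φ : ZMod p × ZMod p × ZMod p → (Fin 3 → ZMod p)) (hφ : Function.Injective φ) (G : (Fin 3 → ZMod p) → Prop)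
    (b0 : Finset (ZMod p)) (b1 : ZMod p → Finset (ZMod p)) (b2 : ZMod p → ZMod p → Finset (ZMod p)) (k0 k1 k2 : ℕ)
    (h0 : b0.card ≤ k0) (h1 : ∀ x, x ∉ b0 → (b1 x).card ≤ k1) (h2 : ∀ x, x ∉ b0 → ∀ y, y ∉ b1 x → (b2 x y).card ≤ k2)
    (hG : ∀ x, x ∉ b0 → ∀ y, y ∉ b1 x → ∀ z, z ∉ b2 x y → G (φ (x, y, z))) :
    (p - k0) * ((p - k1) * (p - k2)) ≤ ((univ : Finset (Fin 3 → ZMod p)).filter fun s => G s).card := by
  have hc : ∀ (b : Finset (ZMod p)) (k : ℕ), b.card ≤ k → p - k ≤ (univ \ b).card := by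
    intro b k h
    rw [card_sdiff_of_subset (subset_univ b), card_univ, ZMod.card]
    omega
  set D : Finset (Σ _ : ZMod p, Σ _ : ZMod p, ZMod p) :=
    (univ \ b0).sigma fun x => (univ \ b1 x).sigma fun y => univ \ b2 x y with hD
  have hmem : ∀ z ∈ D, z.1 ∉ b0 ∧ z.2.1 ∉ b1 z.1 ∧ z.2.2 ∉ b2 z.1 z.2.1 := by
    intro z hz
    rw [hD, mem_sigma, mem_sigma] at hz
    exact ⟨(mem_sdiff.1 hz.1).2, (mem_sdiff.1 hz.2.1).2, (mem_sdiff.1 hz.2.2).2⟩
  have hcard : (p - k0) * ((p - k1) * (p - k2)) ≤ D.card := by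
    rw [hD, card_sigma]
    calc (p - k0) * ((p - k1) * (p - k2)) ≤ (univ \ b0).card * ((p - k1) * (p - k2)) := Nat.mul_le_mul_right _ (hc _ _ h0)
      _ = ∑ x ∈ univ \ b0, (p - k1) * (p - k2) := by rw [sum_const, smul_eq_mul]
      _ ≤ _ := by
        refine sum_le_sum fun x hx => ?_
        have hx' := (mem_sdiff.1 hx).2
        rw [card_sigma]
        calc (p - k1) * (p - k2) ≤ (univ \ b1 x).card * (p - k2) := Nat.mul_le_mul_right _ (hc _ _ (h1 x hx'))
          _ = ∑ y ∈ univ \ b1 x, (p - k2) := by rw [sum_const, smul_eq_mul]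
          _ ≤ _ := sum_le_sum fun y hy => hc _ _ (h2 x hx' y (mem_sdiff.1 hy).2)
  refine hcard.trans (card_le_card_of_injOn (fun z => φ (z.1, z.2.1, z.2.2)) ?_ ?_)
  · intro z hz
    obtain ⟨a1, a2, a3⟩ := hmem z hz
    rw [mem_coe, mem_filter]
    exact ⟨mem_univ _, hG _ a1 _ a2 _ a3⟩
  · rintro ⟨x, y, z⟩ _ ⟨x', y', z'⟩ _ h
    have := hφ h
    simp only [Prod.mk.injEq] at this
    obtain ⟨rfl, rfl, rfl⟩ := this
    rfl

open Classical in
theorem quad_roots {A : ZMod p} (B C : ZMod p) (hA : A ≠ 0) :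
    ((univ : Finset (ZMod p)).filter fun x => A * x ^ 2 + B * x + C = 0).card ≤ 2 := by
  set P : Polynomial (ZMod p) := Polynomial.C A * Polynomial.X ^ 2 + Polynomial.C B * Polynomial.X + Polynomial.C C with hP
  have hdeg : P.natDegree = 2 := Polynomial.natDegree_quadratic hA
  have hP0 : P ≠ 0 := by
    intro h
    rw [h, Polynomial.natDegree_zero] at hdeg
    exact absurd hdeg (by norm_num)
  have hsub : ((univ : Finset (ZMod p)).filter fun x => A * x ^ 2 + B * x + C = 0) ⊆ P.roots.toFinset := by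
    intro x hx
    rw [Multiset.mem_toFinset, Polynomial.mem_roots hP0, Polynomial.IsRoot.def, hP]
    simp only [Polynomial.eval_add, Polynomial.eval_mul, Polynomial.eval_C, Polynomial.eval_pow, Polynomial.eval_X]
    exact (mem_filter.1 hx).2
  calc _ ≤ P.roots.toFinset.card := card_le_card hsub
    _ ≤ Multiset.card P.roots := Multiset.toFinset_card_le _
    _ ≤ P.natDegree := Polynomial.card_roots' _
    _ = 2 := hdeg

/-- the good vectors: `w = (χ_q(p), χ_q(k), χ_q(l))`, `s = (u_q, χ_k(q), χ_l(q))` -/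
def Gu (uk ul lkl llk bk bl : ZMod p) (w s : Fin 3 → ZMod p) : Prop :=
  w 0 ≠ 0 ∧ s 0 ≠ 0 ∧ s 1 ≠ 0 ∧ s 2 ≠ 0 ∧ lkl / uk ≠ s 2 / s 0 ∧ llk / ul ≠ s 1 / s 0 ∧ w 1 / uk ≠ w 2 / ul ∧
    s 1 / s 0 * w 0 ≠ w 1 / uk * bk ∧ s 2 / s 0 * w 0 ≠ w 2 / ul * bl ∧
    QQ (lkl / uk) (w 1 / uk) (llk / ul) (w 2 / ul) (s 1 / s 0) (s 2 / s 0) bk bl (w 0) ≠ 0

theorem Gu_smul {uk ul lkl llk bk bl : ZMod p} {w s : Fin 3 → ZMod p} (c : ZMod p) (hc : c ≠ 0)
    (h : Gu uk ul lkl llk bk bl w s) : Gu uk ul lkl llk bk bl (fun i => c * w i) s := by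
  obtain ⟨h1, h2, h3, h4, h5, h6, h7, h8, h9, h10⟩ := h
  refine ⟨mul_ne_zero hc h1, h2, h3, h4, h5, h6, ?_, ?_, ?_, ?_⟩
  · rw [mul_div_assoc, mul_div_assoc]
    exact fun h => h7 (mul_left_cancel₀ hc h)
  · intro h
    apply h8
    apply mul_left_cancel₀ hc
    rw [mul_div_assoc] at h
    linear_combination h
  · intro h
    apply h9
    apply mul_left_cancel₀ hc
    rw [mul_div_assoc] at h
    linear_combination h
  · rw [mul_div_assoc, mul_div_assoc]
    have : QQ (lkl / uk) (c * (w 1 / uk)) (llk / ul) (c * (w 2 / ul)) (s 1 / s 0) (s 2 / s 0) bk bl (c * w 0) =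
        c ^ 2 * QQ (lkl / uk) (w 1 / uk) (llk / ul) (w 2 / ul) (s 1 / s 0) (s 2 / s 0) bk bl (w 0) := by
      unfold QQ MM N1 N2
      ring
    rw [this]
    exact mul_ne_zero (pow_ne_zero 2 hc) h10

theorem QQ_quad (a b c d e f B1 B2 B3 : ZMod p) : QQ a b c d e f B1 B2 B3 =
    (2 * (c * f - a * e)) ^ 2 * B3 ^ 2 +
    (2 * (((c + e) * B2 + (a + f) * B1) * (b - d) + (b + d) * B1 * (f - a) + (b + d) * B2 * (c - e)) * (2 * (c * f - a * e)) -
      4 * N1 a b c d e f * (B1 * (f - a) + B2 * (c - e))) * B3 +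
    ((((c + e) * B2 + (a + f) * B1) * (b - d) + (b + d) * B1 * (f - a) + (b + d) * B2 * (c - e)) ^ 2 -
      4 * N1 a b c d e f * (B1 * B2 * (b - d))) := by
  unfold QQ MM N1 N2
  ring

open Classical in
theorem gt_w (hp2 : p ≠ 2) {uk ul lkl llk bk bl : ZMod p} (huk : uk ≠ 0) (hul : ul ≠ 0) (s : Fin 3 → ZMod p)
    (h0 : s 0 ≠ 0) (h1 : s 1 ≠ 0) (h2 : s 2 ≠ 0) (h3 : lkl / uk ≠ s 2 / s 0) (h4 : llk / ul ≠ s 1 / s 0)
    (h5 : llk / ul * (s 2 / s 0) ≠ lkl / uk * (s 1 / s 0)) :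
    p * ((p - 1) * (p - 5)) ≤ ((univ : Finset (Fin 3 → ZMod p)).filter fun w => Gu uk ul lkl llk bk bl w s).card := by
  have hp : p.Prime := hpF.out
  have two : (2 : ZMod p) ≠ 0 := by
    intro h
    have h' : ((2 : ℕ) : ZMod p) = 0 := by exact_mod_cast h
    rw [ZMod.natCast_eq_zero_iff] at h'
    have := Nat.le_of_dvd (by norm_num) h'
    have := hp.two_le
    omega
  have he : s 1 / s 0 ≠ 0 := div_ne_zero h1 h0
  have hf : s 2 / s 0 ≠ 0 := div_ne_zero h2 h0
  set a := lkl / uk with ha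
  set c := llk / ul with hc
  set e := s 1 / s 0 with hee
  set f := s 2 / s 0 with hff
  have hA : (2 * (c * f - a * e)) ^ 2 ≠ 0 := pow_ne_zero 2 (mul_ne_zero two (sub_ne_zero.2 h5))
  have key := count3 (p := p) (fun x => ![x.2.2, x.1, x.2.1]) (by
      rintro ⟨x, y, z⟩ ⟨x', y', z'⟩ h
      have e0 : z = z' := congrFun h 0
      have e1 : x = x' := congrFun h 1
      have e2 : y = y' := congrFun h 2
      rw [e0, e1, e2]) (fun w => Gu uk ul lkl llk bk bl w s)
    ∅ (fun x => {ul * (x / uk)})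
    (fun x y => ({0, x / uk * bk / e, y / ul * bl / f} : Finset (ZMod p)) ∪ (univ : Finset (ZMod p)).filter fun z =>
      (2 * (c * f - a * e)) ^ 2 * z ^ 2 +
      (2 * (((c + e) * bl + (a + f) * bk) * (x / uk - y / ul) + (x / uk + y / ul) * bk * (f - a) +
        (x / uk + y / ul) * bl * (c - e)) * (2 * (c * f - a * e)) -
        4 * N1 a (x / uk) c (y / ul) e f * (bk * (f - a) + bl * (c - e))) * z +
      ((((c + e) * bl + (a + f) * bk) * (x / uk - y / ul) + (x / uk + y / ul) * bk * (f - a) +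
        (x / uk + y / ul) * bl * (c - e)) ^ 2 -
        4 * N1 a (x / uk) c (y / ul) e f * (bk * bl * (x / uk - y / ul))) = 0)
    0 1 5 (by simp) (fun x _ => by simp) (fun x _ y _ => by
      refine (card_union_le _ _).trans ?_
      have h6 : ({0, x / uk * bk / e, y / ul * bl / f} : Finset (ZMod p)).card ≤ 3 := card_le_three
      have h7 := quad_roots (2 * (((c + e) * bl + (a + f) * bk) * (x / uk - y / ul) + (x / uk + y / ul) * bk * (f - a) +
        (x / uk + y / ul) * bl * (c - e)) * (2 * (c * f - a * e)) -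
        4 * N1 a (x / uk) c (y / ul) e f * (bk * (f - a) + bl * (c - e)))
        ((((c + e) * bl + (a + f) * bk) * (x / uk - y / ul) + (x / uk + y / ul) * bk * (f - a) +
        (x / uk + y / ul) * bl * (c - e)) ^ 2 -
        4 * N1 a (x / uk) c (y / ul) e f * (bk * bl * (x / uk - y / ul))) hA
      omega) ?_
  · rw [Nat.sub_zero] at key
    exact key
  · intro x _ y hy z hz
    rw [mem_singleton] at hy
    rw [mem_union, not_or, mem_filter, not_and] at hz
    obtain ⟨hz1, hz2⟩ := hz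
    simp only [mem_insert, mem_singleton, not_or] at hz1
    obtain ⟨z0, z1, z2⟩ := hz1
    refine ⟨z0, h0, h1, h2, h3, h4, ?_, ?_, ?_, ?_⟩
    · show x / uk ≠ y / ul
      intro h
      apply hy
      rw [h]
      field_simp
    · show s 1 / s 0 * z ≠ x / uk * bk
      intro h
      apply z1
      rw [← h, ← hee]
      field_simp
    · show s 2 / s 0 * z ≠ y / ul * bl
      intro h
      apply z2
      rw [← h, ← hff]
      field_simp
    · show QQ (lkl / uk) (x / uk) (llk / ul) (y / ul) (s 1 / s 0) (s 2 / s 0) bk bl z ≠ 0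
      rw [QQ_quad]
      exact hz2 (mem_univ _)

open Classical in
theorem gt_count_nat (hp2 : p ≠ 2) {uk ul lkl llk bk bl : ZMod p} (huk : uk ≠ 0) (hul : ul ≠ 0)
    (hD : llk ≠ 0 ∨ lkl ≠ 0) :
    ((p - 1) * ((p - 2) * (p - 3))) * (p * ((p - 1) * (p - 5))) ≤
      ∑ w : Fin 3 → ZMod p, ((univ : Finset (Fin 3 → ZMod p)).filter fun s => Gu uk ul lkl llk bk bl w s).card := by
  have hcomm : ∑ w : Fin 3 → ZMod p, ((univ : Finset (Fin 3 → ZMod p)).filter fun s => Gu uk ul lkl llk bk bl w s).card =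
      ∑ s : Fin 3 → ZMod p, ((univ : Finset (Fin 3 → ZMod p)).filter fun w => Gu uk ul lkl llk bk bl w s).card := by
    simp only [card_filter]
    exact sum_comm
  rw [hcomm]
  set R : (Fin 3 → ZMod p) → Prop := fun s => s 0 ≠ 0 ∧ s 1 ≠ 0 ∧ s 2 ≠ 0 ∧ lkl / uk ≠ s 2 / s 0 ∧ llk / ul ≠ s 1 / s 0 ∧
    llk / ul * (s 2 / s 0) ≠ lkl / uk * (s 1 / s 0) with hR
  have key := count3 (p := p) (fun x => ![x.1, x.2.1, x.2.2]) (by
      rintro ⟨x, y, z⟩ ⟨x', y', z'⟩ h
      have e0 : x = x' := congrFun h 0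
      have e1 : y = y' := congrFun h 1
      have e2 : z = z' := congrFun h 2
      rw [e0, e1, e2]) R {0} (fun x => {0, llk / ul * x}) (fun x y => {0, lkl / uk * x, lkl / uk * y / (llk / ul)})
    1 2 3 (by simp) (fun x _ => card_le_two) (fun x _ y _ => card_le_three) (by
      intro x hx y hy z hz
      simp only [mem_insert, mem_singleton, not_or] at hx hy hz
      obtain ⟨y0, y1⟩ := hy
      obtain ⟨z0, z1, z2⟩ := hz
      refine ⟨hx, y0, z0, ?_, ?_, ?_⟩
      · show lkl / uk ≠ z / x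
        intro h
        apply z1
        rw [h]
        field_simp
      · show llk / ul ≠ y / x
        intro h
        apply y1
        rw [h]
        field_simp
      · show llk / ul * (z / x) ≠ lkl / uk * (y / x)
        intro h
        have h' : llk / ul * z = lkl / uk * y := by
          have h1 : llk / ul * z = (llk / ul * (z / x)) * x := by field_simp
          have h2 : lkl / uk * y = (lkl / uk * (y / x)) * x := by field_simp
          rw [h1, h2, h]
        by_cases hc : llk = 0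
        · rw [hc, zero_div, zero_mul] at h'
          have ha : lkl ≠ 0 := hD.resolve_left (fun h => h hc)
          exact mul_ne_zero (div_ne_zero ha huk) y0 h'.symm
        · apply z2
          rw [← h']
          have hc' : llk / ul ≠ 0 := div_ne_zero hc hul
          rw [mul_div_cancel_left₀ _ hc'])
  calc ((p - 1) * ((p - 2) * (p - 3))) * (p * ((p - 1) * (p - 5))) ≤
      ((univ : Finset (Fin 3 → ZMod p)).filter fun s => R s).card * (p * ((p - 1) * (p - 5))) := by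
        refine Nat.mul_le_mul_right _ ?_
        convert key
    _ = ∑ s ∈ (univ : Finset (Fin 3 → ZMod p)).filter fun s => R s, p * ((p - 1) * (p - 5)) := by rw [sum_const, smul_eq_mul]
    _ ≤ ∑ s ∈ (univ : Finset (Fin 3 → ZMod p)).filter fun s => R s,
        ((univ : Finset (Fin 3 → ZMod p)).filter fun w => Gu uk ul lkl llk bk bl w s).card := by
      refine sum_le_sum fun s hs => ?_
      obtain ⟨a0, a1, a2, a3, a4, a5⟩ := (mem_filter.1 hs).2
      exact gt_w hp2 huk hul s a0 a1 a2 a3 a4 a5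
    _ ≤ _ := sum_le_sum_of_subset (subset_univ _)

/-- the proportion of good primes -/
noncomputable def d3 (p : ℕ) : ℝ := ((p : ℝ) - 1) ^ 2 * ((p : ℝ) - 2) * ((p : ℝ) - 3) * ((p : ℝ) - 5) / (p : ℝ) ^ 5

omit hpF in
theorem d3_le (h5 : 5 ≤ p) : d3 p ≤ 1 := by
  have h : (5 : ℝ) ≤ p := by exact_mod_cast h5
  unfold d3
  rw [div_le_one (by positivity)]
  calc ((p : ℝ) - 1) ^ 2 * ((p : ℝ) - 2) * ((p : ℝ) - 3) * ((p : ℝ) - 5) ≤ (p : ℝ) ^ 2 * p * p * p := by
        have h1 : ((p : ℝ) - 1) ^ 2 ≤ (p : ℝ) ^ 2 := pow_le_pow_left₀ (by linarith) (by linarith) 2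
        have h2 : ((p : ℝ) - 1) ^ 2 * ((p : ℝ) - 2) ≤ (p : ℝ) ^ 2 * p :=
          mul_le_mul h1 (by linarith) (by linarith) (by positivity)
        have h3 : ((p : ℝ) - 1) ^ 2 * ((p : ℝ) - 2) * ((p : ℝ) - 3) ≤ (p : ℝ) ^ 2 * p * p :=
          mul_le_mul h2 (by linarith) (by linarith) (by positivity)
        exact mul_le_mul h3 (by linarith) (by linarith) (by positivity)
    _ = (p : ℝ) ^ 5 := by ring

open Classical in
theorem gt_count (h5 : 5 ≤ p) {uk ul lkl llk bk bl : ZMod p} (huk : uk ≠ 0) (hul : ul ≠ 0)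
    (hD : llk ≠ 0 ∨ lkl ≠ 0) :
    d3 p ≤ ((∑ w : Fin 3 → ZMod p, ((univ : Finset (Fin 3 → ZMod p)).filter fun s =>
      Gu uk ul lkl llk bk bl w s).card : ℕ) : ℝ) / ((p : ℝ) ^ Fintype.card (Fin 3) * Fintype.card (Fin 3 → ZMod p)) := by
  have hp : p.Prime := hpF.out
  have hp0 : (0 : ℝ) < p := by exact_mod_cast hp.pos
  have h1 := gt_count_nat (p := p) (by omega) (bk := bk) (bl := bl) huk hul hD
  set n := ∑ w : Fin 3 → ZMod p, ((univ : Finset (Fin 3 → ZMod p)).filter fun s => Gu uk ul lkl llk bk bl w s).card with hn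
  have h3 : (p : ℝ) ^ Fintype.card (Fin 3) * (Fintype.card (Fin 3 → ZMod p) : ℝ) = (p : ℝ) ^ 6 := by
    rw [Fintype.card_fun, ZMod.card, Fintype.card_fin]
    push_cast
    ring
  have hc : ∀ k : ℕ, k ≤ 5 → (((p - k : ℕ)) : ℝ) = (p : ℝ) - k := fun k hk => by rw [Nat.cast_sub (by omega)]
  have h4 : (((p : ℝ) - 1) * (((p : ℝ) - 2) * ((p : ℝ) - 3))) * (p * (((p : ℝ) - 1) * ((p : ℝ) - 5))) ≤ n := by
    have e1 := hc 1 (by norm_num)
    have e2 := hc 2 (by norm_num)
    have e3 := hc 3 (by norm_num)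
    have e5 := hc 5 (by norm_num)
    push_cast at e1 e2 e3 e5
    rw [← e1, ← e2, ← e3, ← e5]
    exact_mod_cast h1
  rw [h3, le_div_iff₀ (by positivity)]
  refine le_trans (le_of_eq ?_) h4
  unfold d3
  field_simp

end

end Pool.Agent.Q202.QT
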