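import Pool.Agent.Q202.QT.Np4

/-!
# Most primes are good as a fourth place
-/

set_option autoImplicit false

namespace Pool.Agent.Q202.QT

open Finset Filter Topology Pool.Agent.W401.Cheb
open Pool.Agent.W569.TG (lk)
open Pool.Agent.Q202.RT

section
variable {p : ℕ} [hpF : Fact p.Prime]

/-- the proportion -/
noncomputable def dlt (p : ℕ) : ℝ := ((p : ℝ) - 1) ^ 5 * ((p : ℝ) - 4) / (2 * (p : ℝ) ^ 6)

omit hpF in
theorem dlt_le (hp4 : 4 ≤ p) : dlt p ≤ 1 := by
  have h4 : (4 : ℝ) ≤ p := by exact_mod_cast hp4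
  unfold dlt
  rw [div_le_one (by positivity)]
  have h1 : ((p : ℝ) - 1) ^ 5 ≤ (p : ℝ) ^ 5 := pow_le_pow_left₀ (by linarith) (by linarith) 5
  calc ((p : ℝ) - 1) ^ 5 * ((p : ℝ) - 4) ≤ (p : ℝ) ^ 5 * p := mul_le_mul h1 (by linarith) (by linarith) (by positivity)
    _ = (p : ℝ) ^ 6 := by ring
    _ ≤ 2 * (p : ℝ) ^ 6 := by nlinarith [pow_pos (show (0 : ℝ) < p by linarith) 6]

open Classical in
theorem dlt_count (hp2 : p ≠ 2) (l12 l13 l21 l23 l31 l32 : ZMod p) (hD : l12 * l23 * l31 - l13 * l21 * l32 ≠ 0) :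
    dlt p ≤ ((∑ w : Fin 3 → ZMod p, ((univ : Finset (Fin 3 → ZMod p)).filter fun s =>
      Gd l12 l13 l21 l23 l31 l32 w s).card : ℕ) : ℝ) / ((p : ℝ) ^ Fintype.card (Fin 3) * Fintype.card (Fin 3 → ZMod p)) := by
  have hp : p.Prime := hpF.out
  have hp0 : (0 : ℝ) < p := by exact_mod_cast hp.pos
  have h1 := count_ws hp2 l12 l13 l21 l23 l31 l32 hD
  set n := ∑ w : Fin 3 → ZMod p, ((univ : Finset (Fin 3 → ZMod p)).filter fun s => Gd l12 l13 l21 l23 l31 l32 w s).card with hn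
  have h2 : ((p : ℝ) - 1) ^ 6 ≤ 2 * (n : ℝ) + 3 * ((p : ℝ) - 1) ^ 5 := by
    have : (((p - 1 : ℕ)) : ℝ) = (p : ℝ) - 1 := by rw [Nat.cast_sub hp.one_le, Nat.cast_one]
    rw [← this]
    exact_mod_cast h1
  have h3 : (p : ℝ) ^ Fintype.card (Fin 3) * (Fintype.card (Fin 3 → ZMod p) : ℝ) = (p : ℝ) ^ 6 := by
    rw [Fintype.card_fun, ZMod.card, Fintype.card_fin]
    push_cast
    ring
  rw [h3]
  unfold dlt
  rw [div_le_div_iff₀ (by positivity) (by positivity)]
  have h4 : ((p : ℝ) - 1) ^ 5 * ((p : ℝ) - 4) ≤ 2 * (n : ℝ) := by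
    have : ((p : ℝ) - 1) ^ 5 * ((p : ℝ) - 4) = ((p : ℝ) - 1) ^ 6 - 3 * ((p : ℝ) - 1) ^ 5 := by ring
    linarith
  have h5 : (0 : ℝ) < (p : ℝ) ^ 6 := by positivity
  nlinarith

theorem hnep {q : ℕ} (hq : q.Prime) (h : p ∣ q - 1) : q ≠ p := by
  rintro rfl
  have := Nat.le_of_dvd (by have := hq.two_le; omega) h
  have := hq.two_le
  omega

theorem sy_mul (χ : ∀ j : ℕ, (ZMod j)ˣ →* Multiplicative (ZMod p)) {N k : ℕ} (h : k ∣ N) (u v : (ZMod N)ˣ) :
    sy χ h (u * v) = sy χ h u + sy χ h v := by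
  unfold sy
  rw [map_mul, map_mul, toAdd_mul]

theorem cast_cop {N q : ℕ} (u : (ZMod N)ˣ) (h : (u : ZMod N) = (q : ZMod N)) : q.Coprime N := by
  rw [← ZMod.isUnit_iff_coprime, ← h]
  exact u.isUnit

open Classical in
/-- **Most primes are good as the fourth prime of a tame triple with nonvanishing determinant.** -/
theorem dens_tame (hp5 : 5 ≤ p) (χ : ∀ j : ℕ, (ZMod j)ˣ →* Multiplicative (ZMod p)) (hχ : Kr χ) (a b c : ℕ)
    (ha : a.Prime) (hb : b.Prime) (hc : c.Prime) (hpa : p ∣ a - 1) (hpb : p ∣ b - 1) (hpc : p ∣ c - 1) (hab : a ≠ b)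
    (hac : a ≠ c) (hbc : b ≠ c) (hD : D3 χ a b c ≠ 0) (ε : ℝ) (hε : 0 < ε) :
    ∀ᶠ x : ℕ in atTop, (dlt p - ε) * ((P1 p x).card : ℝ) ≤ (((P1 p x).filter fun q => q ≠ a ∧ q ≠ b ∧ q ≠ c ∧
      GT χ a b c q).card : ℝ) := by
  have hp : p.Prime := hpF.out
  have hp2 : p ≠ 2 := by omega
  set N := p * a * b * c with hN
  have hN0 : N ≠ 0 := mul_ne_zero (mul_ne_zero (mul_ne_zero hp.ne_zero ha.ne_zero) hb.ne_zero) hc.ne_zero
  have hpN : p ∣ N := ⟨a * b * c, by rw [hN]; ring⟩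
  have haN : a ∣ N := ⟨p * b * c, by rw [hN]; ring⟩
  have hbN : b ∣ N := ⟨p * a * c, by rw [hN]; ring⟩
  have hcN : c ∣ N := ⟨p * a * b, by rw [hN]; ring⟩
  have : NeZero N := ⟨hN0⟩
  set P : Fin 3 → ℕ := ![a, b, c] with hPdef
  have hP : ∀ i, (P i).Prime := by
    intro i
    fin_cases i
    · exact ha
    · exact hb
    · exact hc
  have hPN : ∀ i, P i ∣ N := by
    intro i
    fin_cases i
    · exact haN
    · exact hbN
    · exact hcN
  have hinj : Function.Injective P := by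
    intro i j h
    fin_cases i <;> fin_cases j
    · rfl
    · exact absurd h hab
    · exact absurd h hac
    · exact absurd h.symm hab
    · rfl
    · exact absurd h hbc
    · exact absurd h.symm hac
    · exact absurd h.symm hbc
    · rfl
  have hpP : ∀ i, p ∣ P i - 1 := by
    intro i
    fin_cases i
    · exact hpa
    · exact hpb
    · exact hpc
  set A : Finset (ZMod N)ˣ := univ.filter fun u => ZMod.castHom hpN (ZMod p) (u : ZMod N) = 1 with hA
  have hAne : A.Nonempty := ⟨1, by rw [hA, mem_filter, Units.val_one, map_one]; exact ⟨mem_univ _, rfl⟩⟩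
  set r : (ZMod N)ˣ → (Fin 3 → ZMod p) := fun u i => sy χ (hPN i) u with hr
  -- uniformity
  have hunif0 : ∀ t : Fin 3 → ZMod p, ∃ g : (ZMod N)ˣ, (∀ u, u ∈ A ↔ g * u ∈ A) ∧ ∀ u ∈ A, r (g * u) = t + r u := by
    intro t
    have hex : ∀ i, ∃ y : (ZMod (P i))ˣ, Multiplicative.toAdd (χ (P i) y) = t i := fun i =>
      chi_surj (hχ (P i) (hP i) (hpP i)).1 (t i)
    choose y hy using hex
    obtain ⟨g, hg⟩ := exists_unit ![p, a, b, c] (by
      intro i
      fin_cases i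
      · exact hp.ne_zero
      · exact ha.ne_zero
      · exact hb.ne_zero
      · exact hc.ne_zero) (by
      have hap : a ≠ p := hnep ha hpa
      have hbp : b ≠ p := hnep hb hpb
      have hcp : c ≠ p := hnep hc hpc
      have cc : ∀ {u v : ℕ}, u.Prime → v.Prime → u ≠ v → Nat.Coprime u v := fun hu hv h => (Nat.coprime_primes hu hv).2 h
      intro i j hij
      fin_cases i <;> fin_cases j
      · exact absurd rfl hij
      · exact cc hp ha hap.symm
      · exact cc hp hb hbp.symm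
      · exact cc hp hc hcp.symm
      · exact cc ha hp hap
      · exact absurd rfl hij
      · exact cc ha hb hab
      · exact cc ha hc hac
      · exact cc hb hp hbp
      · exact cc hb ha hab.symm
      · exact absurd rfl hij
      · exact cc hb hc hbc
      · exact cc hc hp hcp
      · exact cc hc ha hac.symm
      · exact cc hc hb hbc.symm
      · exact absurd rfl hij) (fun i => match i with
        | 0 => (1 : (ZMod p)ˣ)
        | 1 => y 0
        | 2 => y 1
        | 3 => y 2) (N := N) (by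
          rw [Fin.prod_univ_four]
          rfl)
    have hg0 : ZMod.castHom hpN (ZMod p) (g : ZMod N) = 1 := by
      have h1 : ZMod.unitsMap hpN g = 1 := hg 0 hpN
      have h2 := congrArg Units.val h1
      rw [ZMod.unitsMap_val] at h2
      exact h2
    refine ⟨g, fun u => ?_, fun u _ => ?_⟩
    · rw [hA, mem_filter, mem_filter, Units.val_mul, map_mul, hg0, one_mul]
      exact ⟨fun h => ⟨mem_univ _, h.2⟩, fun h => ⟨mem_univ _, h.2⟩⟩
    · funext i
      rw [Pi.add_apply]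
      show sy χ (hPN i) (g * u) = t i + sy χ (hPN i) u
      rw [sy_mul]
      congr 1
      fin_cases i
      · show Multiplicative.toAdd (χ a (ZMod.unitsMap haN g)) = t 0
        rw [← hy 0]
        congr 2
        exact hg 1 haN
      · show Multiplicative.toAdd (χ b (ZMod.unitsMap hbN g)) = t 1
        rw [← hy 1]
        congr 2
        exact hg 2 hbN
      · show Multiplicative.toAdd (χ c (ZMod.unitsMap hcN g)) = t 2
        rw [← hy 2]
        congr 2
        exact hg 3 hcN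
  have hD' : lk χ a b * lk χ b c * lk χ c a - lk χ a c * lk χ b a * lk χ c b ≠ 0 := hD
  have hj := joint hp2 hχ hN0 hpN hP hinj hPN A hAne (fun u hu => (mem_filter.1 hu).2) r (fun s => by
      have h := unif A r hunif0 s
      convert h)
    (fun w s => Gd (lk χ a b) (lk χ a c) (lk χ b a) (lk χ b c) (lk χ c a) (lk χ c b) w s)
    (fun w s h hw => h.1 0 (by rw [hw]; rfl)) (fun w s c' hc' h => Gd_smul c' hc' h) (fun q => GT χ a b c q)
    (by
      intro q hq u hu huq h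
      have hru : r u = fun i => lk χ q (P i) := by
        funext i
        exact (lk_eq_sy χ (hPN i) u huq).symm
      rw [hru] at h
      exact h) (ε / 2) (by positivity)
  have hcount := dlt_count hp2 (lk χ a b) (lk χ a c) (lk χ b a) (lk χ b c) (lk χ c a) (lk χ c b) hD'
  filter_upwards [hj, (P1_tendsto (p := p)).eventually_ge_atTop (6 / ε)] with x hx1 hx2
  set Cl := (pr x).filter fun q : ℕ => ∃ u ∈ A, ((u : (ZMod N)ˣ) : ZMod N) = (q : ZMod N) with hCl
  have hcl : ∀ q : ℕ, q.Prime → (∃ u ∈ A, ((u : (ZMod N)ˣ) : ZMod N) = (q : ZMod N)) → p ∣ q - 1 ∧ q ≠ a ∧ q ≠ b ∧ q ≠ c := by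
    rintro q hq ⟨u, hu, huq⟩
    have hc1 := cast_cop u huq
    rw [hA, mem_filter, huq, map_natCast] at hu
    have h1 : ((q - 1 : ℕ) : ZMod p) = 0 := by rw [Nat.cast_sub hq.one_le, hu.2, Nat.cast_one, sub_self]
    refine ⟨(ZMod.natCast_eq_zero_iff _ _).1 h1, ?_, ?_, ?_⟩
    · rintro rfl
      exact hq.one_lt.ne' (Nat.Coprime.eq_one_of_dvd hc1 haN)
    · rintro rfl
      exact hq.one_lt.ne' (Nat.Coprime.eq_one_of_dvd hc1 hbN)
    · rintro rfl
      exact hq.one_lt.ne' (Nat.Coprime.eq_one_of_dvd hc1 hcN)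
  have hcl' : ∀ q : ℕ, q.Prime → p ∣ q - 1 → q ≠ a → q ≠ b → q ≠ c →
      ∃ u ∈ A, ((u : (ZMod N)ˣ) : ZMod N) = (q : ZMod N) := by
    intro q hq h1 h2 h3 h4
    have hc1 : q.Coprime N := by
      rw [hN]
      exact Nat.Coprime.mul_right (Nat.Coprime.mul_right (Nat.Coprime.mul_right ((Nat.coprime_primes hq hp).2 (hnep hq h1))
        ((Nat.coprime_primes hq ha).2 h2)) ((Nat.coprime_primes hq hb).2 h3)) ((Nat.coprime_primes hq hc).2 h4)
    refine ⟨ZMod.unitOfCoprime q hc1, ?_, ZMod.coe_unitOfCoprime q hc1⟩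
    rw [hA, mem_filter, ZMod.coe_unitOfCoprime, map_natCast]
    refine ⟨mem_univ _, ?_⟩
    have h5 := (ZMod.natCast_eq_zero_iff _ _).2 h1
    rw [Nat.cast_sub hq.one_le, Nat.cast_one, sub_eq_zero] at h5
    exact h5
  have hsub : P1 p x ⊆ Cl ∪ {a, b, c} := by
    intro q hq
    obtain ⟨h1, h2, h3⟩ := mem_P1.1 hq
    by_cases hqa : q = a
    · exact mem_union_right _ (by rw [hqa]; simp)
    by_cases hqb : q = b
    · exact mem_union_right _ (by rw [hqb]; simp)
    by_cases hqc : q = c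
    · exact mem_union_right _ (by rw [hqc]; simp)
    · exact mem_union_left _ (mem_filter.2 ⟨mem_pr.2 ⟨h1, h2⟩, hcl' q h2 h3 hqa hqb hqc⟩)
  have hle : ((P1 p x).card : ℝ) ≤ (Cl.card : ℝ) + 3 := by
    have h1 := (card_le_card hsub).trans (card_union_le _ _)
    have h2 : ({a, b, c} : Finset ℕ).card ≤ 3 := card_le_three
    have h3 : (P1 p x).card ≤ Cl.card + 3 := by omega
    exact_mod_cast h3
  refine transfer (dlt_le (by omega)) (Nat.cast_nonneg _) (Nat.cast_nonneg _) ?_ hle hε (by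
    rw [div_le_iff₀ hε] at hx2
    linarith)
  have h1 : (dlt p - ε / 2) * (Cl.card : ℝ) ≤ _ * (Cl.card : ℝ) :=
    mul_le_mul_of_nonneg_right (sub_le_sub_right hcount (ε / 2)) (Nat.cast_nonneg _)
  refine h1.trans (le_trans ?_ (Nat.cast_le.2 (card_le_card (?_ : (pr x).filter (fun q : ℕ =>
    (∃ u ∈ A, ((u : (ZMod N)ˣ) : ZMod N) = (q : ZMod N)) ∧ GT χ a b c q) ⊆ _))))
  · convert hx1
  · intro q hq
    rw [mem_filter, mem_pr] at hq
    obtain ⟨h2, h3, h4, h5⟩ := hcl q hq.1.2 hq.2.1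
    exact mem_filter.2 ⟨mem_P1.2 ⟨hq.1.1, hq.1.2, h2⟩, h3, h4, h5, hq.2.2⟩

end

end Pool.Agent.Q202.QT
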