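import Pool.Agent.Q202.QT.Wild

/-!
# Joint equidistribution of the linking numbers of a prime with `p` and any number of primes
-/

set_option autoImplicit false

namespace Pool.Agent.Q202.QT

open Finset Filter Topology Pool.Agent.W401.Cheb
open Pool.Agent.W569.TG (lk)
open Pool.Agent.Q202.RT

theorem transferC {δ ε C P G c : ℝ} (hδ : δ ≤ 1) (hc : 0 ≤ c) (hG : 0 ≤ G) (hP0 : 0 ≤ P) (hC : (δ - ε / 2) * C ≤ G) (hP : P ≤ C + c)
    (hε : 0 < ε) (hbig : c ≤ ε / 2 * P) : (δ - ε) * P ≤ G := by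
  rcases le_or_gt (δ - ε / 2) 0 with h | h
  · have : (δ - ε) * P ≤ 0 := mul_nonpos_of_nonpos_of_nonneg (by linarith) hP0
    linarith
  · have h1 : (δ - ε / 2) * P ≤ (δ - ε / 2) * (C + c) := mul_le_mul_of_nonneg_left hP h.le
    have h2 : (δ - ε / 2) * c ≤ c := by nlinarith
    nlinarith

section
variable {p : ℕ} [hpF : Fact p.Prime]

open Classical in
/-- **Joint equidistribution of the linking numbers of `q` with `p` and the primes `l i`.** -/
theorem densN (hp2 : p ≠ 2) (χ : ∀ j : ℕ, (ZMod j)ˣ →* Multiplicative (ZMod p)) (hχ : Kr χ) {m : ℕ} (l : Fin m → ℕ)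
    (hl : ∀ i, (l i).Prime) (hpl : ∀ i, p ∣ l i - 1) (hli : Function.Injective l)
    (Good : (Fin (m + 1) → ZMod p) → (Fin (m + 1) → ZMod p) → Prop) (hG0 : ∀ w s, Good w s → w ≠ 0)
    (hGsc : ∀ w s (c : ZMod p), c ≠ 0 → Good w s → Good (fun j => c * w j) s) (δ : ℝ) (hδ : δ ≤ 1)
    (hcount : δ ≤ ((∑ w : Fin (m + 1) → ZMod p, ((univ : Finset (Fin (m + 1) → ZMod p)).filter fun s => Good w s).card : ℕ) : ℝ) /
      ((p : ℝ) ^ Fintype.card (Fin (m + 1)) * Fintype.card (Fin (m + 1) → ZMod p)))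
    (ε : ℝ) (hε : 0 < ε) :
    ∀ᶠ x : ℕ in atTop, (δ - ε) * ((P1 p x).card : ℝ) ≤ (((P1 p x).filter fun q => (∀ i, q ≠ l i) ∧
      Good (vec χ (Fin.cons p l) q) (Fin.cons (lv p q) fun i => lk χ q (l i))).card : ℝ) := by
  have hp : p.Prime := hpF.out
  have hlp : ∀ i, l i ≠ p := fun i => hnep (hl i) (hpl i)
  set N := p ^ 2 * ∏ i, l i with hN
  have hN0 : N ≠ 0 := mul_ne_zero (pow_ne_zero _ hp.ne_zero) (prod_ne_zero_iff.2 fun i _ => (hl i).ne_zero)
  have hp2N : p ^ 2 ∣ N := ⟨∏ i, l i, hN⟩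
  have hpN : p ∣ N := (dvd_pow_self p two_ne_zero).trans hp2N
  have hlN : ∀ i, l i ∣ N := fun i => (dvd_prod_of_mem l (mem_univ i)).trans ⟨p ^ 2, by rw [hN]; ring⟩
  have : NeZero N := ⟨hN0⟩
  have : NeZero (p ^ 2) := ⟨pow_ne_zero _ hp.ne_zero⟩
  set P : Fin (m + 1) → ℕ := Fin.cons p l with hPdef
  have hP : ∀ i, (P i).Prime := by
    intro i
    refine Fin.cases ?_ (fun j => ?_) i
    · exact hp
    · exact hl j
  have hPN : ∀ i, P i ∣ N := by
    intro i
    refine Fin.cases ?_ (fun j => ?_) i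
    · exact hpN
    · exact hlN j
  have hinj : Function.Injective P := by
    rw [hPdef, Fin.cons_injective_iff]
    exact ⟨fun ⟨i, hi⟩ => hlp i hi, hli⟩
  set A : Finset (ZMod N)ˣ := univ.filter fun u => ZMod.castHom hpN (ZMod p) (u : ZMod N) = 1 with hA
  have hAne : A.Nonempty := ⟨1, by rw [hA, mem_filter, Units.val_one, map_one]; exact ⟨mem_univ _, rfl⟩⟩
  set r : (ZMod N)ˣ → (Fin (m + 1) → ZMod p) := fun u => Fin.cons (lv p (u : ZMod N).val) (fun i => sy χ (hlN i) u) with hr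
  -- the members of `A`
  have hval : ∀ u ∈ A, 1 ≤ (u : ZMod N).val ∧ p ∣ (u : ZMod N).val - 1 := by
    intro u hu
    have h1 := (mem_filter.1 hu).2
    rw [← val_cast (u : ZMod N) hpN] at h1
    have h2 : 1 ≤ (u : ZMod N).val := by
      rcases Nat.eq_zero_or_pos (u : ZMod N).val with h | h
      · rw [h, Nat.cast_zero] at h1
        exact absurd h1 zero_ne_one
      · exact h
    refine ⟨h2, ?_⟩
    rw [← ZMod.natCast_eq_zero_iff, Nat.cast_sub h2, h1, Nat.cast_one, sub_self]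
  have hunif0 : ∀ t : Fin (m + 1) → ZMod p, ∃ g : (ZMod N)ˣ, (∀ u, u ∈ A ↔ g * u ∈ A) ∧ ∀ u ∈ A, r (g * u) = t + r u := by
    intro t
    choose y hy using fun i => chi_surj (hχ (l i) (hl i) (hpl i)).1 (t i.succ)
    have hc0 : Nat.Coprime (1 + p * (t 0).val) (p ^ 2) := by
      refine Nat.Coprime.pow_right 2 ?_
      rw [Nat.coprime_add_mul_left_left]
      exact Nat.coprime_one_left p
    have clp : ∀ i, Nat.Coprime (l i) (p ^ 2) := fun i => Nat.Coprime.pow_right 2 ((Nat.coprime_primes (hl i) hp).2 (hlp i))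
    have cll : ∀ i j, i ≠ j → Nat.Coprime (l i) (l j) := fun i j hij => (Nat.coprime_primes (hl i) (hl j)).2 (hli.ne hij)
    set sN : Fin (m + 1) → ℕ := Fin.cons (p ^ 2) l with hsN
    obtain ⟨g, hg⟩ := exists_unit sN (by
      intro i
      refine Fin.cases ?_ (fun j => ?_) i
      · exact pow_ne_zero _ hp.ne_zero
      · exact (hl j).ne_zero) (by
      intro i j
      refine Fin.cases ?_ (fun i' => ?_) i
      · refine Fin.cases ?_ (fun j' => ?_) j
        · exact fun h => absurd rfl h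
        · exact fun _ => (clp j').symm
      · refine Fin.cases ?_ (fun j' => ?_) j
        · exact fun _ => clp i'
        · exact fun h => cll i' j' fun h' => h (by rw [h']))
      (Fin.cons (α := fun i => (ZMod (sN i))ˣ) (ZMod.unitOfCoprime _ hc0 : (ZMod (p ^ 2))ˣ) y) (N := N) (by
          rw [Fin.prod_univ_succ]
          rfl)
    have hg0 : ZMod.castHom hp2N (ZMod (p ^ 2)) (g : ZMod N) = ((1 + p * (t 0).val : ℕ) : ZMod (p ^ 2)) := by
      have h1 : ZMod.unitsMap hp2N g = ZMod.unitOfCoprime _ hc0 := hg 0 hp2N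
      have h2 := congrArg Units.val h1
      rw [ZMod.unitsMap_val, ZMod.coe_unitOfCoprime] at h2
      exact h2
    have hg1 : ZMod.castHom hpN (ZMod p) (g : ZMod N) = 1 := by
      have h1 : ZMod.castHom hpN (ZMod p) (g : ZMod N) =
          ZMod.castHom (dvd_pow_self p two_ne_zero) (ZMod p) (ZMod.castHom hp2N (ZMod (p ^ 2)) (g : ZMod N)) := by
        have : ((ZMod.castHom (dvd_pow_self p two_ne_zero) (ZMod p)).comp (ZMod.castHom hp2N (ZMod (p ^ 2)))) =
            ZMod.castHom hpN (ZMod p) := ZMod.castHom_comp _ _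
        rw [← this]
        rfl
      rw [h1, hg0, map_natCast, Nat.cast_add, Nat.cast_mul, ZMod.natCast_self, zero_mul, add_zero, Nat.cast_one]
    have hmem : ∀ u, u ∈ A ↔ g * u ∈ A := by
      intro u
      rw [hA, mem_filter, mem_filter, Units.val_mul, map_mul, hg1, one_mul]
      exact ⟨fun h => ⟨mem_univ _, h.2⟩, fun h => ⟨mem_univ _, h.2⟩⟩
    refine ⟨g, hmem, fun u hu => ?_⟩
    funext i
    rw [Pi.add_apply]
    refine Fin.cases ?_ (fun j => ?_) i
    · show lv p ((g * u : (ZMod N)ˣ) : ZMod N).val = t 0 + lv p (u : ZMod N).val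
      obtain ⟨h1, h2⟩ := hval u hu
      obtain ⟨h3, h4⟩ := hval (g * u) ((hmem u).1 hu)
      obtain ⟨z, hz⟩ := h2
      have hz' : (u : ZMod N).val = 1 + p * z := by omega
      have h5 : lv p ((g * u : (ZMod N)ˣ) : ZMod N).val = lv p (1 + p * ((t 0).val + z)) := by
        refine lv_congr h3 (by omega) h4 ⟨(t 0).val + z, by omega⟩ ?_
        rw [val_cast _ hp2N, Units.val_mul, map_mul, hg0, ← val_cast (u : ZMod N) hp2N, hz', ← Nat.cast_mul,
          ZMod.natCast_eq_natCast_iff]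
        have : (1 + p * (t 0).val) * (1 + p * z) = 1 + p * ((t 0).val + z) + p ^ 2 * ((t 0).val * z) := by ring
        rw [this]
        exact Nat.ModEq.symm (Nat.modEq_iff_dvd.2 ⟨((t 0).val * z : ℕ), by push_cast; ring⟩)
      rw [h5, lv_one_add, hz', lv_one_add, Nat.cast_add, ZMod.natCast_zmod_val]
    · show sy χ (hlN j) (g * u) = t j.succ + sy χ (hlN j) u
      rw [sy_mul]
      congr 1
      rw [← hy j]
      unfold sy
      congr 2
      exact hg j.succ (hlN j)
  have hj := joint hp2 hχ hN0 hpN hP hinj hPN A hAne (fun u hu => (mem_filter.1 hu).2) r (fun s => by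
      have h := unif A r hunif0 s
      convert h)
    Good hG0 hGsc (fun q => Good (vec χ (Fin.cons p l) q) (Fin.cons (lv p q) fun i => lk χ q (l i)))
    (by
      intro q hq u hu huq h
      obtain ⟨h1, h2⟩ := hval u hu
      have h3 : p ∣ q - 1 := by
        have h4 := (mem_filter.1 hu).2
        rw [huq, map_natCast] at h4
        rw [← ZMod.natCast_eq_zero_iff, Nat.cast_sub hq.one_le, h4, Nat.cast_one, sub_self]
      have hlv : lv p q = lv p (u : ZMod N).val := by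
        refine lv_congr hq.one_le h1 h3 h2 ?_
        rw [val_cast _ hp2N, huq, map_natCast]
      have hru : r u = Fin.cons (lv p q) fun i => lk χ q (l i) := by
        have e : (fun i => sy χ (hlN i) u) = fun i => lk χ q (l i) := funext fun i => (lk_eq_sy χ (hlN i) u huq).symm
        rw [hr, hlv, ← e]
      rw [hru] at h
      exact h) (ε / 2) (by positivity)
  filter_upwards [hj, (P1_tendsto (p := p)).eventually_ge_atTop (2 * ((m : ℝ) + 1) / ε)] with x hx1 hx2
  set Cl := (pr x).filter fun q : ℕ => ∃ u ∈ A, ((u : (ZMod N)ˣ) : ZMod N) = (q : ZMod N) with hCl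
  have hcl : ∀ q : ℕ, q.Prime → (∃ u ∈ A, ((u : (ZMod N)ˣ) : ZMod N) = (q : ZMod N)) → p ∣ q - 1 ∧ ∀ i, q ≠ l i := by
    rintro q hq ⟨u, hu, huq⟩
    have hc1 := cast_cop u huq
    rw [hA, mem_filter, huq, map_natCast] at hu
    have h1 : ((q - 1 : ℕ) : ZMod p) = 0 := by rw [Nat.cast_sub hq.one_le, hu.2, Nat.cast_one, sub_self]
    refine ⟨(ZMod.natCast_eq_zero_iff _ _).1 h1, ?_⟩
    rintro i rfl
    exact hq.one_lt.ne' (Nat.Coprime.eq_one_of_dvd hc1 (hlN i))
  have hcl' : ∀ q : ℕ, q.Prime → p ∣ q - 1 → (∀ i, q ≠ l i) →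
      ∃ u ∈ A, ((u : (ZMod N)ˣ) : ZMod N) = (q : ZMod N) := by
    intro q hq h1 h2
    have hc1 : q.Coprime N := by
      rw [hN]
      exact Nat.Coprime.mul_right (Nat.Coprime.pow_right 2 ((Nat.coprime_primes hq hp).2 (hnep hq h1)))
        (Nat.Coprime.prod_right fun i _ => (Nat.coprime_primes hq (hl i)).2 (h2 i))
    refine ⟨ZMod.unitOfCoprime q hc1, ?_, ZMod.coe_unitOfCoprime q hc1⟩
    rw [hA, mem_filter, ZMod.coe_unitOfCoprime, map_natCast]
    refine ⟨mem_univ _, ?_⟩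
    have h5 := (ZMod.natCast_eq_zero_iff _ _).2 h1
    rw [Nat.cast_sub hq.one_le, Nat.cast_one, sub_eq_zero] at h5
    exact h5
  have hsub : P1 p x ⊆ Cl ∪ univ.image l := by
    intro q hq
    obtain ⟨h1, h2, h3⟩ := mem_P1.1 hq
    by_cases hqa : ∀ i, q ≠ l i
    · exact mem_union_left _ (mem_filter.2 ⟨mem_pr.2 ⟨h1, h2⟩, hcl' q h2 h3 hqa⟩)
    · push Not at hqa
      obtain ⟨i, hi⟩ := hqa
      exact mem_union_right _ (mem_image.2 ⟨i, mem_univ _, hi.symm⟩)
  have hle : ((P1 p x).card : ℝ) ≤ (Cl.card : ℝ) + ((m : ℝ) + 1) := by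
    have h1 := (card_le_card hsub).trans (card_union_le _ _)
    have h2 : (univ.image l).card ≤ m := by
      have := card_image_le (s := univ) (f := l)
      rwa [card_univ, Fintype.card_fin] at this
    have h3 : (P1 p x).card ≤ Cl.card + (m + 1) := by omega
    exact_mod_cast h3
  refine transferC hδ (by positivity) (Nat.cast_nonneg _) (Nat.cast_nonneg _) ?_ hle hε (by
    rw [div_le_iff₀ hε] at hx2
    linarith)
  have h1 : (δ - ε / 2) * (Cl.card : ℝ) ≤ _ * (Cl.card : ℝ) :=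
    mul_le_mul_of_nonneg_right (sub_le_sub_right hcount (ε / 2)) (Nat.cast_nonneg _)
  refine h1.trans (le_trans ?_ (Nat.cast_le.2 (card_le_card (?_ : (pr x).filter (fun q : ℕ =>
    (∃ u ∈ A, ((u : (ZMod N)ˣ) : ZMod N) = (q : ZMod N)) ∧
      Good (vec χ (Fin.cons p l) q) (Fin.cons (lv p q) fun i => lk χ q (l i))) ⊆ _))))
  · convert hx1
  · intro q hq
    rw [mem_filter, mem_pr] at hq
    obtain ⟨h2, h3⟩ := hcl q hq.1.2 hq.2.1
    exact mem_filter.2 ⟨mem_P1.2 ⟨hq.1.1, hq.1.2, h2⟩, h3, hq.2.2⟩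

end

end Pool.Agent.Q202.QT
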