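import Pool.Agent.Q202.RT.Three

/-!
# Joint equidistribution of linking vectors
-/

set_option autoImplicit false

namespace Pool.Agent.Q202.QT

open Finset Filter Topology Pool.Agent.W401.Cheb
open Pool.Agent.W569.TG (lk)
open Pool.Agent.Q202.RT

section
variable {p : ℕ} [hpF : Fact p.Prime] {ι : Type} [Fintype ι] [DecidableEq ι]

/-- the linking vector -/
noncomputable def vec (χ : ∀ j : ℕ, (ZMod j)ˣ →* Multiplicative (ZMod p)) (P : ι → ℕ) (q : ℕ) : ι → ZMod p :=
  fun i => lk χ (P i) q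

def dot (f v : ι → ZMod p) : ZMod p := ∑ i, f i * v i

def num (P : ι → ℕ) (f : ι → ZMod p) : ℕ := ∏ i, P i ^ (f i).val

omit hpF [DecidableEq ι] in
theorem num_ne {P : ι → ℕ} (hP : ∀ i, (P i).Prime) (f : ι → ZMod p) : num P f ≠ 0 :=
  Finset.prod_ne_zero_iff.2 fun i _ => pow_ne_zero _ (hP i).ne_zero

theorem num_no_root {P : ι → ℕ} (hP : ∀ i, (P i).Prime) (hinj : Function.Injective P) {f : ι → ZMod p} (hf : f ≠ 0) (c : ℚ) :
    c ^ p ≠ (num P f : ℚ) := by
  have hp : p.Prime := hpF.out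
  obtain ⟨i, hi⟩ : ∃ i, f i ≠ 0 := by
    by_contra h
    push Not at h
    exact hf (funext h)
  refine rat_no_root' hp (num_ne hP f) (hP i) ?_ c
  have : Fact (P i).Prime := ⟨hP i⟩
  have h1 : num P f = P i ^ (f i).val * ∏ j ∈ univ.erase i, P j ^ (f j).val := by
    unfold num
    rw [Finset.mul_prod_erase univ (fun j => P j ^ (f j).val) (mem_univ i)]
  have h2 : ¬ P i ∣ ∏ j ∈ univ.erase i, P j ^ (f j).val := by
    intro h
    obtain ⟨j, hj, h3⟩ := (Prime.dvd_finsetProd_iff (hP i).prime _).1 h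
    have h4 := (hP i).dvd_of_dvd_pow h3
    have h5 := (Nat.prime_dvd_prime_iff_eq (hP i) (hP j)).1 h4
    exact (mem_erase.1 hj).1 (hinj h5).symm
  rw [h1, padicValNat.mul (pow_ne_zero _ (hP i).ne_zero) (by
    intro h0
    exact h2 (h0 ▸ dvd_zero _)), padicValNat.pow, padicValNat_self, mul_one, padicValNat.eq_zero_of_not_dvd h2,
    add_zero]
  exact not_dvd_val hi

omit [DecidableEq ι] in
theorem dot_iff {χ : ∀ j : ℕ, (ZMod j)ˣ →* Multiplicative (ZMod p)} (hχ : Kr χ) {P : ι → ℕ} (hP : ∀ i, (P i).Prime)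
    {q : ℕ} (hq : q.Prime) (hpq : p ∣ q - 1) (hPq : ∀ i, P i ≠ q) (f : ι → ZMod p) :
    dot f (vec χ P q) = 0 ↔ ∃ y : ZMod q, y ^ p = (num P f : ZMod q) := by
  have hc : ∀ i, Nat.Coprime (P i) q := fun i => (Nat.coprime_primes (hP i) hq).2 (hPq i)
  have h1 : dot f (vec χ P q) = Multiplicative.toAdd (χ q (∏ i, ZMod.unitOfCoprime (P i) (hc i) ^ (f i).val)) := by
    rw [map_prod, toAdd_prod]
    unfold dot vec
    refine sum_congr rfl fun i _ => ?_
    rw [map_pow, toAdd_pow, nsmul_eq_mul, ZMod.natCast_zmod_val,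
      Pool.Agent.TH146.FM.lk_eq hq (hP i) (hPq i) (ZMod.unitOfCoprime (P i) (hc i)) (ZMod.coe_unitOfCoprime (P i) (hc i))]
  rw [h1, Pool.Agent.TH146.FM.toAdd_eq_zero_iff hq hpq (hχ q hq hpq).2]
  have h2 : ((∏ i, ZMod.unitOfCoprime (P i) (hc i) ^ (f i).val : (ZMod q)ˣ) : ZMod q) = (num P f : ZMod q) := by
    unfold num
    rw [Units.coe_prod, Nat.cast_prod]
    refine prod_congr rfl fun i _ => ?_
    rw [Units.val_pow_eq_pow_val, ZMod.coe_unitOfCoprime, Nat.cast_pow]
  rw [h2]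

omit [DecidableEq ι] in
theorem dot_add (f g v : ι → ZMod p) : dot (f + g) v = dot f v + dot g v := by
  unfold dot
  rw [← sum_add_distrib]
  exact sum_congr rfl fun i _ => by rw [Pi.add_apply]; ring

open Classical in
/-- the number of vectors orthogonal to `y` -/
theorem card_orth (y : ι → ZMod p) (hy : y ≠ 0) :
    p * ((univ : Finset (ι → ZMod p)).filter fun f => dot f y = 0).card = p ^ Fintype.card ι := by
  have hp : p.Prime := hpF.out
  obtain ⟨i, hi⟩ : ∃ i, y i ≠ 0 := by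
    by_contra h
    push Not at h
    exact hy (funext h)
  have h1 : ∀ c : ZMod p, ((univ : Finset (ι → ZMod p)).filter fun f => dot f y = c).card =
      ((univ : Finset (ι → ZMod p)).filter fun f => dot f y = 0).card := by
    intro c
    have hs : ∀ t : ZMod p, dot (Pi.single i (t * (y i)⁻¹)) y = t := by
      intro t
      unfold dot
      rw [sum_eq_single i]
      · rw [Pi.single_eq_same, mul_assoc, inv_mul_cancel₀ hi, mul_one]
      · intro j _ hj
        rw [Pi.single_eq_of_ne hj, zero_mul]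
      · intro h
        exact absurd (mem_univ i) h
    refine card_bij' (fun f _ => f + Pi.single i (-c * (y i)⁻¹)) (fun f _ => f + Pi.single i (c * (y i)⁻¹)) ?_ ?_ ?_ ?_
    · intro f hf
      rw [mem_filter] at hf ⊢
      exact ⟨mem_univ _, by rw [dot_add, hf.2, hs]; ring⟩
    · intro f hf
      rw [mem_filter] at hf ⊢
      exact ⟨mem_univ _, by rw [dot_add, hf.2, hs]; ring⟩
    · intro f _
      rw [add_assoc, ← Pi.single_add]
      have : -c * (y i)⁻¹ + c * (y i)⁻¹ = 0 := by ring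
      rw [this, Pi.single_zero, add_zero]
    · intro f _
      rw [add_assoc, ← Pi.single_add]
      have : c * (y i)⁻¹ + -c * (y i)⁻¹ = 0 := by ring
      rw [this, Pi.single_zero, add_zero]
  have h2 : (univ : Finset (ι → ZMod p)).card = ∑ c : ZMod p, ((univ : Finset (ι → ZMod p)).filter fun f => dot f y = c).card :=
    card_eq_sum_card_fiberwise (fun f _ => mem_univ (dot f y))
  rw [sum_congr rfl (fun c _ => h1 c), sum_const, card_univ, card_univ, ZMod.card, smul_eq_mul, Fintype.card_fun,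
    ZMod.card] at h2
  exact h2.symm

open Classical in
/-- the sum over all functionals -/
theorem orth_sum (y : ι → ZMod p) :
    (∑ f : ι → ZMod p, if dot f y = 0 then (1 : ℝ) else 0) =
      (p : ℝ) ^ Fintype.card ι / p + ((p : ℝ) ^ Fintype.card ι - (p : ℝ) ^ Fintype.card ι / p) * (if y = 0 then 1 else 0) := by
  have hp0 : (p : ℝ) ≠ 0 := by exact_mod_cast hpF.out.ne_zero
  rw [sum_boole]
  by_cases hy : y = 0
  · rw [if_pos hy]
    have : (univ : Finset (ι → ZMod p)).filter (fun f => dot f y = 0) = univ := by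
      rw [filter_true_of_mem]
      intro f _
      rw [hy]
      unfold dot
      simp
    rw [this, card_univ, Fintype.card_fun, ZMod.card]
    push_cast
    ring
  · rw [if_neg hy, mul_zero, add_zero, eq_div_iff hp0]
    have := card_orth y hy
    have h2 : (p : ℝ) * (((univ : Finset (ι → ZMod p)).filter fun f => dot f y = 0).card : ℝ) = (p : ℝ) ^ Fintype.card ι := by
      exact_mod_cast this
    linarith

end

section
variable {p : ℕ} [hpF : Fact p.Prime] {ι : Type} [Fintype ι] [DecidableEq ι]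

open Classical in
/-- the density of the primes in the class `u` with `dot f v = 0` -/
theorem dens_f (hp2 : p ≠ 2) {χ : ∀ j : ℕ, (ZMod j)ˣ →* Multiplicative (ZMod p)} (hχ : Kr χ) {N : ℕ} (hN : N ≠ 0) (hpN : p ∣ N)
    {P : ι → ℕ} (hP : ∀ i, (P i).Prime) (hinj : Function.Injective P) (hPN : ∀ i, P i ∣ N) (u : (ZMod N)ˣ)
    (hu : ZMod.castHom hpN (ZMod p) (u : ZMod N) = 1) (f : ι → ZMod p) :
    Tendsto (M fun q => if (u : ZMod N) = (q : ZMod N) ∧ dot f (vec χ P q) = 0 then (1 : ℝ) else 0) atTop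
      (𝓝 ((1 / (N.totient : ℝ)) * (if f = 0 then (1 : ℝ) else 1 / (p : ℝ)))) := by
  have hp : p.Prime := hpF.out
  have hq0 : ∀ q : ℕ, q.Prime → (u : ZMod N) = (q : ZMod N) → p ∣ q - 1 ∧ ∀ i, P i ≠ q := by
    intro q hq h
    have hc : q.Coprime N := by
      rw [← ZMod.isUnit_iff_coprime, ← h]
      exact u.isUnit
    constructor
    · rw [h, map_natCast] at hu
      have h1 : ((q - 1 : ℕ) : ZMod p) = 0 := by rw [Nat.cast_sub hq.one_le, hu, Nat.cast_one, sub_self]
      exact (ZMod.natCast_eq_zero_iff _ _).1 h1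
    · rintro i rfl
      have := Nat.Coprime.eq_one_of_dvd hc (hPN i)
      exact hq.one_lt.ne' this
  by_cases hf : f = 0
  · rw [if_pos hf, mul_one]
    have h1 := (dens_main N p 2 hN hp hp2 hpN two_ne_zero (fun b => by
      have := rat_no_root hp Nat.prime_two b
      exact_mod_cast this) {u} (fun v hv => by rw [mem_singleton.1 hv]; exact hu)).1
    rw [card_singleton, Nat.cast_one] at h1
    refine h1.congr fun x => ?_
    unfold M
    congr 1
    refine sum_congr rfl fun q _ => ?_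
    have : (∃ v ∈ ({u} : Finset (ZMod N)ˣ), ((v : (ZMod N)ˣ) : ZMod N) = (q : ZMod N)) ↔
        ((u : ZMod N) = (q : ZMod N) ∧ dot f (vec χ P q) = 0) := by
      rw [hf]
      constructor
      · rintro ⟨v, hv, h⟩
        rw [mem_singleton.1 hv] at h
        exact ⟨h, by unfold dot; simp⟩
      · rintro ⟨h, -⟩
        exact ⟨u, mem_singleton_self u, h⟩
    exact if_congr this rfl rfl
  · rw [if_neg hf]
    have h1 := (dens_main N p (num P f) hN hp hp2 hpN (num_ne hP f) (num_no_root hP hinj hf) {u}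
      (fun v hv => by rw [mem_singleton.1 hv]; exact hu)).2
    rw [card_singleton, Nat.cast_one] at h1
    have h2 : (1 : ℝ) / (N.totient : ℝ) * (1 / p) = 1 / (N.totient * p) := by rw [div_mul_div_comm, one_mul]
    rw [h2]
    refine h1.congr fun x => ?_
    unfold M
    congr 1
    refine sum_congr rfl fun q hq => ?_
    have hqp := (mem_pr.1 hq).2
    have : ((∃ v ∈ ({u} : Finset (ZMod N)ˣ), ((v : (ZMod N)ˣ) : ZMod N) = (q : ZMod N)) ∧
        ∃ c : ZMod q, c ^ p = (num P f : ZMod q)) ↔ ((u : ZMod N) = (q : ZMod N) ∧ dot f (vec χ P q) = 0) := by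
      constructor
      · rintro ⟨⟨v, hv, h⟩, h'⟩
        rw [mem_singleton.1 hv] at h
        obtain ⟨h3, h4⟩ := hq0 q hqp h
        exact ⟨h, (dot_iff hχ hP hqp h3 h4 f).2 h'⟩
      · rintro ⟨h, h'⟩
        obtain ⟨h3, h4⟩ := hq0 q hqp h
        exact ⟨⟨u, mem_singleton_self u, h⟩, (dot_iff hχ hP hqp h3 h4 f).1 h'⟩
    exact if_congr this rfl rfl

open Classical in
/-- the density for a linear map `Y` of the linking vector whose coordinates are pulled back by `φ` -/
theorem dens_Y (hp2 : p ≠ 2) {χ : ∀ j : ℕ, (ZMod j)ˣ →* Multiplicative (ZMod p)} (hχ : Kr χ) {N : ℕ} (hN : N ≠ 0) (hpN : p ∣ N)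
    {P : ι → ℕ} (hP : ∀ i, (P i).Prime) (hinj : Function.Injective P) (hPN : ∀ i, P i ∣ N) (u : (ZMod N)ˣ)
    (hu : ZMod.castHom hpN (ZMod p) (u : ZMod N) = 1) (Y : (ι → ZMod p) → (ι → ZMod p))
    (φ : (ι → ZMod p) → (ι → ZMod p)) (hφ : ∀ f v, dot f (Y v) = dot (φ f) v) (k : ℕ)
    (hk : ((univ : Finset (ι → ZMod p)).filter fun f => φ f = 0).card = k) :
    Tendsto (M fun q => if (u : ZMod N) = (q : ZMod N) ∧ Y (vec χ P q) = 0 then (1 : ℝ) else 0) atTop
      (𝓝 ((1 / (N.totient : ℝ)) * (k / (p : ℝ) ^ Fintype.card ι))) := by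
  have hp : p.Prime := hpF.out
  have hp0 : (p : ℝ) ≠ 0 := by exact_mod_cast hp.ne_zero
  have hp1 : (1 : ℝ) < p := by exact_mod_cast hp.one_lt
  set n := Fintype.card ι with hn
  have hE : (p : ℝ) ^ n - (p : ℝ) ^ n / p ≠ 0 := by
    have : (p : ℝ) ^ n - (p : ℝ) ^ n / p = (p : ℝ) ^ n * (1 - 1 / p) := by ring
    rw [this]
    refine mul_ne_zero (pow_ne_zero _ hp0) ?_
    have : 1 / (p : ℝ) < 1 := by rw [div_lt_one (by linarith)]; exact hp1
    linarith
  -- the sum over all functionals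
  have h1 : Tendsto (M fun q => ∑ f : ι → ZMod p, if (u : ZMod N) = (q : ZMod N) ∧ dot (φ f) (vec χ P q) = 0 then (1 : ℝ) else 0)
      atTop (𝓝 (∑ f : ι → ZMod p, (1 / (N.totient : ℝ)) * (if φ f = 0 then (1 : ℝ) else 1 / (p : ℝ)))) := by
    refine (tendsto_finsetSum univ fun f _ => dens_f hp2 hχ hN hpN hP hinj hPN u hu (φ f)).congr fun x => ?_
    rw [M_sum]
  have h0 : Tendsto (M fun q => if (u : ZMod N) = (q : ZMod N) then (1 : ℝ) else 0) atTop (𝓝 (1 / (N.totient : ℝ))) := by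
    have h2 := dens_f hp2 hχ hN hpN hP hinj hPN u hu (0 : ι → ZMod p)
    rw [if_pos rfl, mul_one] at h2
    refine h2.congr fun x => ?_
    unfold M
    congr 1
    refine sum_congr rfl fun q _ => ?_
    have : ((u : ZMod N) = (q : ZMod N) ∧ dot (0 : ι → ZMod p) (vec χ P q) = 0) ↔ (u : ZMod N) = (q : ZMod N) :=
      ⟨fun h => h.1, fun h => ⟨h, by unfold dot; simp⟩⟩
    exact if_congr this rfl rfl
  have h2 : ∀ q : ℕ, (if (u : ZMod N) = (q : ZMod N) ∧ Y (vec χ P q) = 0 then (1 : ℝ) else 0) =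
      ((p : ℝ) ^ n - (p : ℝ) ^ n / p)⁻¹ * (∑ f : ι → ZMod p, if (u : ZMod N) = (q : ZMod N) ∧ dot (φ f) (vec χ P q) = 0
        then (1 : ℝ) else 0) + (-((p : ℝ) ^ n - (p : ℝ) ^ n / p)⁻¹ * ((p : ℝ) ^ n / p)) *
          (if (u : ZMod N) = (q : ZMod N) then (1 : ℝ) else 0) := by
    intro q
    by_cases hq : (u : ZMod N) = (q : ZMod N)
    · simp only [hq, true_and, if_true, mul_one]
      have h3 := orth_sum (Y (vec χ P q))
      simp only [hφ] at h3
      rw [← hn] at h3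
      rw [h3, mul_add, ← mul_assoc, inv_mul_cancel₀ hE]
      ring
    · simp only [hq, false_and, if_false, sum_const_zero, mul_zero, add_zero]
  have h3 := ((h1.const_mul ((p : ℝ) ^ n - (p : ℝ) ^ n / p)⁻¹)).add
    (h0.const_mul (-((p : ℝ) ^ n - (p : ℝ) ^ n / p)⁻¹ * ((p : ℝ) ^ n / p)))
  have h4 : ∑ f : ι → ZMod p, (1 / (N.totient : ℝ)) * (if φ f = 0 then (1 : ℝ) else 1 / (p : ℝ)) =
      (1 / (N.totient : ℝ)) * (k + ((p : ℝ) ^ n - k) / p) := by
    rw [← mul_sum]
    congr 1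
    have h5 : ∀ f : ι → ZMod p, (if φ f = 0 then (1 : ℝ) else 1 / (p : ℝ)) = (1 - 1 / (p : ℝ)) * (if φ f = 0 then (1 : ℝ) else 0) + 1 / (p : ℝ) := by
      intro f
      split_ifs <;> ring
    rw [sum_congr rfl fun f _ => h5 f, sum_add_distrib, ← mul_sum, sum_boole, hk, sum_const, card_univ, Fintype.card_fun,
      ZMod.card, nsmul_eq_mul, ← hn]
    push_cast
    ring
  rw [h4] at h3
  have h5 : ((p : ℝ) ^ n - (p : ℝ) ^ n / p)⁻¹ * ((1 / (N.totient : ℝ)) * (k + ((p : ℝ) ^ n - k) / p)) +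
      -((p : ℝ) ^ n - (p : ℝ) ^ n / p)⁻¹ * ((p : ℝ) ^ n / p) * (1 / (N.totient : ℝ)) =
      (1 / (N.totient : ℝ)) * (k / (p : ℝ) ^ n) := by
    have hpn : (p : ℝ) ^ n ≠ 0 := pow_ne_zero _ hp0
    have hpm : (p : ℝ) - 1 ≠ 0 := by
      have : (0 : ℝ) < p - 1 := by linarith
      exact this.ne'
    have h6 : ((p : ℝ) ^ n - (p : ℝ) ^ n / p) = (p : ℝ) ^ n * (p - 1) / p := by field_simp
    rw [h6]
    field_simp
    ring
  rw [h5] at h3
  refine h3.congr fun x => ?_
  rw [← M_smul, ← M_smul, ← M_add]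
  congr 1
  funext q
  exact (h2 q).symm

end

end Pool.Agent.Q202.QT
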