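import Pool.Agent.Q202.QT.Eq

/-!
# Joint equidistribution: orbits and good pairs
-/

set_option autoImplicit false

namespace Pool.Agent.Q202.QT

open Finset Filter Topology Pool.Agent.W401.Cheb
open Pool.Agent.W569.TG (lk)
open Pool.Agent.Q202.RT

section
variable {p : ℕ} [hpF : Fact p.Prime] {ι : Type} [Fintype ι] [DecidableEq ι]

/-- coordinates killing `w` -/
def Yw (w : ι → ZMod p) (i : ι) (v : ι → ZMod p) : ι → ZMod p := fun j => w i * v j - v i * w j

def phiw (w : ι → ZMod p) (i : ι) (f : ι → ZMod p) : ι → ZMod p := fun j => w i * f j - (if j = i then dot f w else 0)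

theorem dot_Yw (w : ι → ZMod p) (i : ι) (f v : ι → ZMod p) : dot f (Yw w i v) = dot (phiw w i f) v := by
  have h1 : dot f (Yw w i v) = w i * dot f v - v i * dot f w := by
    unfold dot Yw
    rw [mul_sum, mul_sum, ← sum_sub_distrib]
    exact sum_congr rfl fun j _ => by ring
  have h2 : dot (phiw w i f) v = w i * dot f v - v i * dot f w := by
    have : ∀ j, phiw w i f j * v j = w i * (f j * v j) - (if j = i then dot f w * v j else 0) := by
      intro j
      unfold phiw
      split_ifs <;> ring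
    have h3 : dot (phiw w i f) v = ∑ j, (w i * (f j * v j) - (if j = i then dot f w * v j else 0)) :=
      sum_congr rfl fun j _ => this j
    rw [h3, sum_sub_distrib, ← mul_sum, sum_ite_eq' univ i, if_pos (mem_univ i)]
    unfold dot
    ring
  rw [h1, h2]

omit [Fintype ι] [DecidableEq ι] in
theorem Yw_zero {w : ι → ZMod p} {i : ι} (hw : w i ≠ 0) (v : ι → ZMod p) : Yw w i v = 0 ↔ ∃ c : ZMod p, v = fun j => c * w j := by
  constructor
  · intro h
    refine ⟨v i * (w i)⁻¹, funext fun j => ?_⟩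
    have h1 : w i * v j - v i * w j = 0 := congrFun h j
    field_simp
    linear_combination h1
  · rintro ⟨c, rfl⟩
    funext j
    unfold Yw
    simp only [Pi.zero_apply]
    ring

open Classical in
theorem card_phiw {w : ι → ZMod p} {i : ι} (hw : w i ≠ 0) :
    ((univ : Finset (ι → ZMod p)).filter fun f => phiw w i f = 0).card = p := by
  have h : ((univ : Finset (ι → ZMod p)).filter fun f => phiw w i f = 0).card = (univ : Finset (ZMod p)).card := by
    refine card_bij' (fun f _ => f i) (fun c _ => Pi.single i c) (fun _ _ => mem_univ _) ?_ ?_ ?_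
    · intro c _
      rw [mem_filter]
      refine ⟨mem_univ _, funext fun j => ?_⟩
      have hd : dot (Pi.single i c) w = c * w i := by
        unfold dot
        rw [sum_eq_single i]
        · rw [Pi.single_eq_same]
        · intro j _ hj
          rw [Pi.single_eq_of_ne hj, zero_mul]
        · intro h
          exact absurd (mem_univ i) h
      unfold phiw
      rw [hd]
      by_cases hj : j = i
      · rw [hj, if_pos rfl, Pi.single_eq_same, Pi.zero_apply]
        ring
      · rw [if_neg hj, Pi.single_eq_of_ne hj, Pi.zero_apply]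
        ring
    · intro f hf
      have hf' := (mem_filter.1 hf).2
      funext j
      by_cases hj : j = i
      · rw [hj, Pi.single_eq_same]
      · rw [Pi.single_eq_of_ne hj]
        have h1 := congrFun hf' j
        unfold phiw at h1
        rw [if_neg hj, sub_zero, Pi.zero_apply] at h1
        exact ((mul_eq_zero.1 h1).resolve_left hw).symm
    · intro c _
      rw [Pi.single_eq_same]
  rw [h, card_univ, ZMod.card]

open Classical in
/-- the density of the primes in the class `u` whose linking vector is a nonzero multiple of `w` -/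
theorem dens_orbit (hp2 : p ≠ 2) {χ : ∀ j : ℕ, (ZMod j)ˣ →* Multiplicative (ZMod p)} (hχ : Kr χ) {N : ℕ} (hN : N ≠ 0)
    (hpN : p ∣ N) {P : ι → ℕ} (hP : ∀ i, (P i).Prime) (hinj : Function.Injective P) (hPN : ∀ i, P i ∣ N) (u : (ZMod N)ˣ)
    (hu : ZMod.castHom hpN (ZMod p) (u : ZMod N) = 1) (w : ι → ZMod p) (hw : w ≠ 0) :
    Tendsto (M fun q => if (u : ZMod N) = (q : ZMod N) ∧ ∃ c : ZMod p, c ≠ 0 ∧ vec χ P q = fun j => c * w j then (1 : ℝ) else 0)
      atTop (𝓝 ((1 / (N.totient : ℝ)) * (((p : ℝ) - 1) / (p : ℝ) ^ Fintype.card ι))) := by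
  obtain ⟨i, hi⟩ : ∃ i, w i ≠ 0 := by
    by_contra h
    push Not at h
    exact hw (funext h)
  have h1 := dens_Y hp2 hχ hN hpN hP hinj hPN u hu (Yw w i) (phiw w i) (dot_Yw w i) p (card_phiw hi)
  have h2 := dens_Y hp2 hχ hN hpN hP hinj hPN u hu id id (fun _ _ => rfl) 1 (by
    rw [card_eq_one]
    refine ⟨0, ?_⟩
    ext f
    rw [mem_filter, mem_singleton]
    exact ⟨fun h => h.2, fun h => ⟨mem_univ _, h⟩⟩)
  have h3 := h1.add (h2.const_mul (-1))
  have h4 : (1 / (N.totient : ℝ)) * ((p : ℕ) / (p : ℝ) ^ Fintype.card ι) +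
      -1 * ((1 / (N.totient : ℝ)) * ((1 : ℕ) / (p : ℝ) ^ Fintype.card ι)) =
      (1 / (N.totient : ℝ)) * (((p : ℝ) - 1) / (p : ℝ) ^ Fintype.card ι) := by
    rw [Nat.cast_one]
    ring
  rw [h4] at h3
  refine h3.congr fun x => ?_
  rw [← M_smul, ← M_add]
  congr 1
  funext q
  by_cases hq : (u : ZMod N) = (q : ZMod N)
  · simp only [hq, true_and, id]
    by_cases h0 : vec χ P q = 0
    · have e1 : Yw w i (vec χ P q) = 0 := by
        rw [h0]
        funext j
        unfold Yw
        simp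
      have e2 : ¬ ∃ c : ZMod p, c ≠ 0 ∧ vec χ P q = fun j => c * w j := by
        rintro ⟨c, hc, h⟩
        rw [h0] at h
        have := congrFun h i
        rw [Pi.zero_apply] at this
        exact (mul_ne_zero hc hi) this.symm
      rw [if_pos e1, if_pos h0, if_neg e2]
      ring
    · rw [if_neg h0]
      by_cases e1 : Yw w i (vec χ P q) = 0
      · have e2 : ∃ c : ZMod p, c ≠ 0 ∧ vec χ P q = fun j => c * w j := by
          obtain ⟨c, hc⟩ := (Yw_zero hi _).1 e1
          refine ⟨c, ?_, hc⟩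
          rintro rfl
          apply h0
          rw [hc]
          funext j
          rw [zero_mul, Pi.zero_apply]
        rw [if_pos e1, if_pos e2]
        ring
      · have e2 : ¬ ∃ c : ZMod p, c ≠ 0 ∧ vec χ P q = fun j => c * w j := by
          rintro ⟨c, hc, h⟩
          exact e1 ((Yw_zero hi _).2 ⟨c, h⟩)
        rw [if_neg e1, if_neg e2]
        ring
  · simp only [hq, false_and, if_false]
    ring

theorem lim_arith {a t s P1 pn S0 : ℝ} (h1 : P1 ≠ 0) (h2 : t ≠ 0) (h3 : a ≠ 0) (h4 : pn ≠ 0) (h5 : S0 ≠ 0) :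
    P1⁻¹ * (a * s / S0 * (1 / t * (P1 / pn))) / (a / t) = s / (pn * S0) := by
  field_simp

open Classical in
/-- **The engine for pairs (linking vector up to multiples, reciprocal vector).** -/
theorem joint (hp2 : p ≠ 2) {χ : ∀ j : ℕ, (ZMod j)ˣ →* Multiplicative (ZMod p)} (hχ : Kr χ) {N : ℕ} (hN : N ≠ 0)
    (hpN : p ∣ N) {P : ι → ℕ} (hP : ∀ i, (P i).Prime) (hinj : Function.Injective P) (hPN : ∀ i, P i ∣ N)
    (A : Finset (ZMod N)ˣ) (hAne : A.Nonempty) (hA : ∀ u ∈ A, ZMod.castHom hpN (ZMod p) (u : ZMod N) = 1)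
    {S : Type} [Fintype S] (r : (ZMod N)ˣ → S) (hr : ∀ s, Fintype.card S * (A.filter fun u => r u = s).card = A.card)
    (Good : (ι → ZMod p) → S → Prop) (h0 : ∀ w s, Good w s → w ≠ 0)
    (hsc : ∀ w s (c : ZMod p), c ≠ 0 → Good w s → Good (fun j => c * w j) s) (good : ℕ → Prop)
    (hgood : ∀ q : ℕ, q.Prime → ∀ u ∈ A, (u : ZMod N) = (q : ZMod N) → Good (vec χ P q) (r u) → good q)
    (ε : ℝ) (hε : 0 < ε) :
    ∀ᶠ x : ℕ in atTop, (((∑ w : ι → ZMod p, ((univ : Finset S).filter fun s => Good w s).card : ℕ) : ℝ) /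
      ((p : ℝ) ^ Fintype.card ι * Fintype.card S) - ε) *
      (((pr x).filter fun q : ℕ => ∃ u ∈ A, ((u : (ZMod N)ˣ) : ZMod N) = (q : ZMod N)).card : ℝ) ≤
      (((pr x).filter fun q : ℕ => (∃ u ∈ A, ((u : (ZMod N)ˣ) : ZMod N) = (q : ZMod N)) ∧ good q).card : ℝ) := by
  have hp : p.Prime := hpF.out
  have : NeZero N := ⟨hN⟩
  have hφ : (0 : ℝ) < (N.totient : ℝ) := by exact_mod_cast Nat.totient_pos.2 (Nat.pos_of_ne_zero hN)
  have hp0 : (0 : ℝ) < p := by exact_mod_cast hp.pos
  have hp1 : (0 : ℝ) < (p : ℝ) - 1 := by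
    have : (1 : ℝ) < p := by exact_mod_cast hp.one_lt
    linarith
  have hAc : (0 : ℝ) < A.card := by exact_mod_cast hAne.card_pos
  have h1 : Tendsto (M fun q => if ∃ u ∈ A, ((u : (ZMod N)ˣ) : ZMod N) = (q : ZMod N) then 1 else 0) atTop
      (𝓝 ((A.card : ℝ) / N.totient)) :=
    (dens_main N p 2 hN hp hp2 hpN two_ne_zero (fun b => by
      have := rat_no_root hp Nat.prime_two b
      exact_mod_cast this) A hA).1
  set n := Fintype.card ι with hn
  set L : (ZMod N)ˣ → (ι → ZMod p) → ℕ → ℝ := fun u w q =>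
    if (u : ZMod N) = (q : ZMod N) ∧ ∃ c : ZMod p, c ≠ 0 ∧ vec χ P q = fun j => c * w j then (1 : ℝ) else 0 with hL
  have hL0 : ∀ u w q, 0 ≤ L u w q := by
    intro u w q
    simp only [hL]
    split_ifs <;> norm_num
  set G : (ZMod N)ˣ → Finset (ι → ZMod p) := fun u => univ.filter fun w => Good w (r u) with hG
  have h2 : Tendsto (M fun q => ((p : ℝ) - 1)⁻¹ * ∑ u ∈ A, ∑ w ∈ G u, L u w q) atTop
      (𝓝 (((p : ℝ) - 1)⁻¹ * ∑ u ∈ A, ∑ w ∈ G u, (1 / (N.totient : ℝ)) * (((p : ℝ) - 1) / (p : ℝ) ^ n))) := by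
    refine (Tendsto.const_mul ((p : ℝ) - 1)⁻¹ (tendsto_finsetSum A fun u hu => tendsto_finsetSum (G u) fun w hw =>
      dens_orbit hp2 hχ hN hpN hP hinj hPN u (hA u hu) w (h0 w (r u) (mem_filter.1 hw).2))).congr fun x => ?_
    rw [M_smul, M_sum]
    congr 1
    refine sum_congr rfl fun u _ => ?_
    rw [M_sum]
  -- the limit
  have hcount : (∑ u ∈ A, (G u).card) * Fintype.card S = A.card * ∑ w : ι → ZMod p, ((univ : Finset S).filter fun s => Good w s).card := by
    have e1 : ∑ u ∈ A, (G u).card = ∑ w : ι → ZMod p, (A.filter fun u => Good w (r u)).card := by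
      simp only [hG, card_filter]
      rw [sum_comm]
    have e2 : ∀ w : ι → ZMod p, (A.filter fun u => Good w (r u)).card * Fintype.card S =
        A.card * ((univ : Finset S).filter fun s => Good w s).card := by
      intro w
      have e3 : (A.filter fun u => Good w (r u)).card = ∑ s ∈ (univ : Finset S).filter fun s => Good w s,
          (A.filter fun u => r u = s).card := by
        rw [card_eq_sum_card_fiberwise (f := r) (t := (univ : Finset S).filter fun s => Good w s)]
        · refine sum_congr rfl fun s hs => ?_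
          congr 1
          ext u
          rw [mem_filter, mem_filter, mem_filter]
          constructor
          · rintro ⟨⟨a1, a2⟩, a3⟩
            exact ⟨a1, a3⟩
          · rintro ⟨a1, a3⟩
            exact ⟨⟨a1, a3 ▸ (mem_filter.1 hs).2⟩, a3⟩
        · intro u hu
          exact mem_filter.2 ⟨mem_univ _, (mem_filter.1 hu).2⟩
      rw [e3, sum_mul]
      rw [sum_congr rfl fun s _ => (by rw [mul_comm]; exact hr s :
        (A.filter fun u => r u = s).card * Fintype.card S = A.card)]
      rw [sum_const, smul_eq_mul, mul_comm]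
    rw [e1, sum_mul, mul_sum]
    exact sum_congr rfl fun w _ => e2 w
  have hS : (0 : ℝ) < Fintype.card S := by
    have h3 : 0 < Fintype.card S := by
      rcases Nat.eq_zero_or_pos (Fintype.card S) with h | h
      · exfalso
        obtain ⟨u, hu⟩ := hAne
        have := hr (r u)
        rw [h, zero_mul] at this
        exact hAc.ne' (by exact_mod_cast this.symm)
      · exact h
    exact_mod_cast h3
  have hlim : (((p : ℝ) - 1)⁻¹ * ∑ u ∈ A, ∑ w ∈ G u, (1 / (N.totient : ℝ)) * (((p : ℝ) - 1) / (p : ℝ) ^ n)) /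
      ((A.card : ℝ) / N.totient) =
      ((∑ w : ι → ZMod p, ((univ : Finset S).filter fun s => Good w s).card : ℕ) : ℝ) / ((p : ℝ) ^ n * Fintype.card S) := by
    have e1 : ∑ u ∈ A, ∑ w ∈ G u, (1 / (N.totient : ℝ)) * (((p : ℝ) - 1) / (p : ℝ) ^ n) =
        ((∑ u ∈ A, (G u).card : ℕ) : ℝ) * ((1 / (N.totient : ℝ)) * (((p : ℝ) - 1) / (p : ℝ) ^ n)) := by
      rw [Nat.cast_sum, sum_mul]
      exact sum_congr rfl fun u _ => by rw [sum_const, nsmul_eq_mul]
    have e2 : ((∑ u ∈ A, (G u).card : ℕ) : ℝ) * (Fintype.card S : ℝ) =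
        (A.card : ℝ) * ((∑ w : ι → ZMod p, ((univ : Finset S).filter fun s => Good w s).card : ℕ) : ℝ) := by
      exact_mod_cast hcount
    have e3 : ((∑ u ∈ A, (G u).card : ℕ) : ℝ) =
        (A.card : ℝ) * ((∑ w : ι → ZMod p, ((univ : Finset S).filter fun s => Good w s).card : ℕ) : ℝ) / (Fintype.card S : ℝ) := by
      rw [eq_div_iff hS.ne']
      exact e2
    rw [e1, e3]
    exact lim_arith hp1.ne' hφ.ne' hAc.ne' (pow_ne_zero _ hp0.ne') hS.ne'
  have h4 : ∀ x, M (fun q => ((p : ℝ) - 1)⁻¹ * ∑ u ∈ A, ∑ w ∈ G u, L u w q) x ≤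
      M (fun q => if (∃ u ∈ A, ((u : (ZMod N)ˣ) : ZMod N) = (q : ZMod N)) ∧ good q then (1 : ℝ) else 0) x := by
    intro x
    refine M_mono (fun q hq => ?_) x
    by_cases hex : ∃ u ∈ A, ((u : (ZMod N)ˣ) : ZMod N) = (q : ZMod N)
    · obtain ⟨u0, hu0, huq⟩ := hex
      have e1 : ∑ u ∈ A, ∑ w ∈ G u, L u w q = ∑ w ∈ G u0, L u0 w q := by
        rw [sum_eq_single_of_mem u0 hu0]
        intro u _ hne
        refine sum_eq_zero fun w _ => ?_
        simp only [hL]
        rw [if_neg]
        rintro ⟨h, -⟩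
        exact hne (Units.ext (h.trans huq.symm))
      have e2 : ∑ w ∈ G u0, L u0 w q = (((G u0).filter fun w => ∃ c : ZMod p, c ≠ 0 ∧ vec χ P q = fun j => c * w j).card : ℝ) := by
        rw [← sum_boole]
        refine sum_congr rfl fun w _ => ?_
        exact if_congr ⟨fun h => h.2, fun h => ⟨huq, h⟩⟩ rfl rfl
      rw [e1, e2]
      by_cases hne : ((G u0).filter fun w => ∃ c : ZMod p, c ≠ 0 ∧ vec χ P q = fun j => c * w j).Nonempty
      · obtain ⟨w, hw⟩ := hne
        obtain ⟨hwG, c, hc, hvw⟩ := mem_filter.1 hw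
        have hGood : Good (vec χ P q) (r u0) := by
          rw [hvw]
          exact hsc w _ c hc (mem_filter.1 hwG).2
        rw [if_pos ⟨⟨u0, hu0, huq⟩, hgood q hq u0 hu0 huq hGood⟩]
        have e3 : ((G u0).filter fun w => ∃ c : ZMod p, c ≠ 0 ∧ vec χ P q = fun j => c * w j).card ≤ p - 1 := by
          have e4 : ((G u0).filter fun w => ∃ c : ZMod p, c ≠ 0 ∧ vec χ P q = fun j => c * w j) ⊆
              ((univ : Finset (ZMod p)).filter fun c => c ≠ 0).image fun c => fun j => c * vec χ P q j := by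
            intro w' hw'
            obtain ⟨-, c', hc', h'⟩ := mem_filter.1 hw'
            rw [mem_image]
            refine ⟨c'⁻¹, mem_filter.2 ⟨mem_univ _, inv_ne_zero hc'⟩, ?_⟩
            funext j
            rw [h', ← mul_assoc, inv_mul_cancel₀ hc', one_mul]
          have e5 : ((univ : Finset (ZMod p)).filter fun c => c ≠ 0).card = p - 1 := by
            have h : (univ : Finset (ZMod p)).filter (fun x => x ≠ 0) = univ.erase 0 := by
              ext x
              simp
            rw [h, card_erase_of_mem (mem_univ _), card_univ, ZMod.card]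
          exact (card_le_card e4).trans (card_image_le.trans e5.le)
        have e6 : (((G u0).filter fun w => ∃ c : ZMod p, c ≠ 0 ∧ vec χ P q = fun j => c * w j).card : ℝ) ≤ (p : ℝ) - 1 := by
          have : (((p - 1 : ℕ)) : ℝ) = (p : ℝ) - 1 := by rw [Nat.cast_sub hp.one_le, Nat.cast_one]
          rw [← this]
          exact_mod_cast e3
        rw [inv_mul_le_iff₀ hp1, mul_one]
        exact e6
      · rw [not_nonempty_iff_eq_empty.1 hne, card_empty, Nat.cast_zero, mul_zero]
        split_ifs <;> norm_num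
    · have e1 : ∑ u ∈ A, ∑ w ∈ G u, L u w q = 0 := by
        refine sum_eq_zero fun u hu => sum_eq_zero fun w _ => ?_
        simp only [hL]
        rw [if_neg]
        rintro ⟨h, -⟩
        exact hex ⟨u, hu, h⟩
      rw [e1, mul_zero]
      split_ifs <;> norm_num
  have h5 := h2.div h1 (by positivity)
  rw [hlim] at h5
  filter_upwards [h5.eventually_const_lt (show ((∑ w : ι → ZMod p, ((univ : Finset S).filter fun s => Good w s).card : ℕ) : ℝ) /
      ((p : ℝ) ^ n * Fintype.card S) - ε < ((∑ w : ι → ZMod p, ((univ : Finset S).filter fun s => Good w s).card : ℕ) : ℝ) /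
      ((p : ℝ) ^ n * Fintype.card S) by linarith),
    h1.eventually (lt_mem_nhds (show (0 : ℝ) < (A.card : ℝ) / N.totient by positivity))] with x hx1 hx2
  rw [card_eq_M, card_eq_M, ← mul_assoc]
  refine mul_le_mul_of_nonneg_right ?_ (Nat.cast_nonneg _)
  refine le_trans ?_ (h4 x)
  have hx3 : ((∑ w : ι → ZMod p, ((univ : Finset S).filter fun s => Good w s).card : ℕ) : ℝ) /
      ((p : ℝ) ^ n * Fintype.card S) - ε < (M (fun q => ((p : ℝ) - 1)⁻¹ * ∑ u ∈ A, ∑ w ∈ G u, L u w q) x) /
      (M (fun q => if ∃ u ∈ A, ((u : (ZMod N)ˣ) : ZMod N) = (q : ZMod N) then 1 else 0) x) := hx1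
  rw [lt_div_iff₀ hx2] at hx3
  exact hx3.le

end

end Pool.Agent.Q202.QT
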