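import Pool.Agent.Q202.QT.Wild

/-!
# Nontrivial characters are power residue characters
-/

set_option autoImplicit false

open NumberField Matrix IsLocalRing

namespace Pool.Agent.Q202.QT

open Finset Filter
open Pool.Agent.Results.MP_ca71b5_nt.RankTwoExtensions
open Pool.Agent.W569.TG (lk)
open Pool.Agent.Q202.RT

section
variable {p : ℕ} [hpF : Fact p.Prime]

theorem ker_of_ne {j : ℕ} (hj : j.Prime) (hpj : p ∣ j - 1) (χ : (ZMod j)ˣ →* Multiplicative (ZMod p)) (h : ∃ x, χ x ≠ 1)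
    (x : (ZMod j)ˣ) : χ x = 1 ↔ x ^ ((j - 1) / p) = 1 := by
  have hp : p.Prime := hpF.out
  have : Fact j.Prime := ⟨hj⟩
  have hj1 : 0 < j - 1 := by have := hj.two_le; omega
  have hmul : p * ((j - 1) / p) = j - 1 := Nat.mul_div_cancel' hpj
  have hN0 : (j - 1) / p ≠ 0 := by
    intro h
    rw [h, mul_zero] at hmul
    omega
  have hcard : Nat.card (ZMod j)ˣ = p * ((j - 1) / p) := by
    rw [hmul, Nat.card_eq_fintype_card, ZMod.card_units_eq_totient, Nat.totient_prime hj]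
  have hχp : ∀ z : Multiplicative (ZMod p), z ^ p = 1 := by
    intro z
    rw [← toAdd_eq_zero, toAdd_pow, nsmul_eq_mul, ZMod.natCast_self, zero_mul]
  constructor
  · intro hx
    obtain ⟨g, hg⟩ := IsCyclic.exists_generator (α := (ZMod j)ˣ)
    obtain ⟨k, hk⟩ := mem_powers_iff_mem_zpowers.2 (hg x)
    have hk' : g ^ k = x := hk
    have hg1 : χ g ≠ 1 := by
      intro h1
      obtain ⟨y, hy⟩ := h
      obtain ⟨m, hm⟩ := mem_powers_iff_mem_zpowers.2 (hg y)
      have hm' : g ^ m = y := hm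
      apply hy
      rw [← hm', map_pow, h1, one_pow]
    have h2 : p ∣ k := by
      rw [← hk', map_pow] at hx
      have h3 : orderOf (χ g) = p := orderOf_eq_prime (hχp _) hg1
      rw [← h3]
      exact orderOf_dvd_of_pow_eq_one hx
    obtain ⟨m, rfl⟩ := h2
    rw [← hk', ← pow_mul]
    have h4 : p * m * ((j - 1) / p) = (p * ((j - 1) / p)) * m := by ring
    rw [h4, pow_mul, ← hcard, pow_card_eq_one', one_pow]
  · intro hx
    obtain ⟨y, rfl⟩ := Pool.Agent.TH146.FM.exists_root hN0 hcard x hx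
    rw [map_pow, hχp]

/-- extend given characters to all primes -/
theorem extend (χ : ∀ j : ℕ, (ZMod j)ˣ →* Multiplicative (ZMod p)) (T : Set ℕ)
    (h : ∀ j ∈ T, j.Prime → p ∣ j - 1 → ∃ x, χ j x ≠ 1) :
    ∃ χ' : ∀ j : ℕ, (ZMod j)ˣ →* Multiplicative (ZMod p), Kr χ' ∧ ∀ j ∈ T, χ' j = χ j := by
  classical
  obtain ⟨χ0, hχ0⟩ := Pool.Agent.TH146.FM.exists_chi p
  refine ⟨fun j => if j ∈ T then χ j else χ0 j, ?_, fun j hj => if_pos hj⟩
  intro j hj hpj
  by_cases hT : j ∈ T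
  · simp only [if_pos hT]
    exact ⟨h j hT hj hpj, ker_of_ne hj hpj (χ j) (h j hT hj hpj)⟩
  · simp only [if_neg hT]
    exact hχ0 j hj hpj

theorem lk_of_eq {χ χ' : ∀ j : ℕ, (ZMod j)ˣ →* Multiplicative (ZMod p)} {j q : ℕ} (h : χ' j = χ j) :
    lk χ' q j = linking (ZMod p) j q (χ j) := by
  rw [linking_lk χ j q, ZMod.castHom_self, RingHom.id_apply]
  unfold lk
  rw [h]

end

end Pool.Agent.Q202.QT
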