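import Mathlib

/-!
# Four pairwise linked places: the plane condition is the nonexistence of a zero of a binary quadratic form
-/

set_option autoImplicit false

namespace Pool.Agent.Q202.QT

open Finset

section
variable {F : Type} [Field F]

/-- two vectors of length four all of whose minors vanish are dependent -/
theorem dep4 (x y : Fin 4 → F) (h01 : x 0 * y 1 = x 1 * y 0) (h02 : x 0 * y 2 = x 2 * y 0)
    (h03 : x 0 * y 3 = x 3 * y 0) (h12 : x 1 * y 2 = x 2 * y 1) (h13 : x 1 * y 3 = x 3 * y 1)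
    (h23 : x 2 * y 3 = x 3 * y 2) : ∃ c d : F, (c ≠ 0 ∨ d ≠ 0) ∧ ∀ i, c * x i = d * y i := by
  by_cases hy : ∀ i, y i = 0
  · exact ⟨0, 1, Or.inr one_ne_zero, fun i => by rw [hy i, zero_mul, mul_zero]⟩
  · push Not at hy
    obtain ⟨i, hi⟩ := hy
    refine ⟨y i, x i, Or.inl hi, fun j => ?_⟩
    fin_cases i <;> fin_cases j <;> simp only [Fin.zero_eta, Fin.mk_one, Fin.reduceFinMk] <;>
      first | ring1 | linear_combination h01 | linear_combination -h01 | linear_combination h02 | linear_combination -h02 |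
        linear_combination h12 | linear_combination -h12 | linear_combination h03 | linear_combination -h03 |
        linear_combination h13 | linear_combination -h13 | linear_combination h23 | linear_combination -h23

/-- the ternary form -/
def tern (a b c : F) : F := a ^ 2 + b ^ 2 + c ^ 2 - 2 * (a * b + b * c + c * a)

/-- the discriminant; `x`, `y`, `z` are the inverses of the linking numbers `λ₁₄`, `λ₂₄`, `λ₃₄`, and `s = (λ₄₁, λ₄₂, λ₄₃)` -/
def Del (l12 l13 l21 l23 l31 l32 x y z s0 s1 s2 : F) : F :=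
  tern ((l31 * z - l21 * y) * (l23 * y * s1 - l32 * z * s2)) ((l32 * z - l12 * x) * (l13 * x * s0 - l31 * z * s2))
    ((l23 * y - l13 * x) * (l12 * x * s0 - l21 * y * s1))

theorem map_Del {K : Type} [Field K] (f : K →+* F) (l12 l13 l21 l23 l31 l32 x y z s0 s1 s2 : K) :
    f (Del l12 l13 l21 l23 l31 l32 x y z s0 s1 s2) =
      Del (f l12) (f l13) (f l21) (f l23) (f l31) (f l32) (f x) (f y) (f z) (f s0) (f s1) (f s2) := by
  simp only [Del, tern, map_add, map_sub, map_mul, map_pow, map_ofNat]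

theorem quad (l12 l13 l14 l21 l23 l24 l31 l32 l34 l41 l42 l43 : F) (h14 : l14 ≠ 0) (h24 : l24 ≠ 0) (h34 : l34 ≠ 0)
    (hD : ¬ IsSquare (Del l12 l13 l21 l23 l31 l32 l14⁻¹ l24⁻¹ l34⁻¹ l41 l42 l43))
    (m12 m13 m14 m23 m24 m34 : F) (hP : m12 * m34 - m13 * m24 + m14 * m23 = 0)
    (e1 : l12 * m12 + l13 * m13 + l14 * m14 = 0) (e2 : -l21 * m12 + l23 * m23 + l24 * m24 = 0)
    (e3 : -l31 * m13 - l32 * m23 + l34 * m34 = 0) (e4 : -l41 * m14 - l42 * m24 - l43 * m34 = 0) :
    m12 = 0 ∧ m13 = 0 ∧ m14 = 0 ∧ m23 = 0 ∧ m24 = 0 ∧ m34 = 0 := by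
  have hx : l14 * l14⁻¹ = 1 := mul_inv_cancel₀ h14
  have hy : l24 * l24⁻¹ = 1 := mul_inv_cancel₀ h24
  have hz : l34 * l34⁻¹ = 1 := mul_inv_cancel₀ h34
  revert hD hx hy hz
  generalize l14⁻¹ = x
  generalize l24⁻¹ = y
  generalize l34⁻¹ = z
  intro hD hx hy hz
  have f1 : m14 = -x * (l12 * m12 + l13 * m13) := by linear_combination x * e1 - m14 * hx
  have f2 : m24 = y * (l21 * m12 - l23 * m23) := by linear_combination y * e2 - m24 * hy
  have f3 : m34 = z * (l31 * m13 + l32 * m23) := by linear_combination z * e3 - m34 * hz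
  unfold Del at hD
  set A := l31 * z - l21 * y with hA
  set B := l32 * z - l12 * x with hB
  set C := l23 * y - l13 * x with hC
  set α := l12 * x * l41 - l21 * y * l42 with hα
  set β := l13 * x * l41 - l31 * z * l43 with hβ
  set γ := l23 * y * l42 - l32 * z * l43 with hγ
  have g1 : α * m12 + β * m13 + γ * m23 = 0 := by
    rw [f1, f2, f3] at e4
    rw [hα, hβ, hγ]
    linear_combination e4
  have g2 : A * m12 * m13 + B * m12 * m23 + C * m13 * m23 = 0 := by
    rw [f1, f2, f3] at hP
    rw [hA, hB, hC]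
    linear_combination hP
  have hγ0 : γ ≠ 0 := by
    intro h
    apply hD
    refine ⟨B * β - C * α, ?_⟩
    rw [h]
    unfold tern
    ring
  have hBα : B * α ≠ 0 := by
    intro h
    apply hD
    refine ⟨B * β + C * α - A * γ, ?_⟩
    unfold tern
    linear_combination (-4 * C * β) * h
  have g3 : B * α * m12 ^ 2 + (B * β + C * α - A * γ) * (m12 * m13) + C * β * m13 ^ 2 = 0 := by
    linear_combination (B * m12 + C * m13) * g1 - γ * g2
  have g4 : (2 * (B * α) * m12 + (B * β + C * α - A * γ) * m13) ^ 2 = tern (A * γ) (B * β) (C * α) * m13 ^ 2 := by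
    unfold tern
    linear_combination 4 * (B * α) * g3
  have h13 : m13 = 0 := by
    by_contra hne
    apply hD
    refine ⟨(2 * (B * α) * m12 + (B * β + C * α - A * γ) * m13) / m13, ?_⟩
    rw [div_mul_div_comm, ← pow_two, g4]
    field_simp
  have h12 : m12 = 0 := by
    rw [h13] at g3
    have : B * α * m12 ^ 2 = 0 := by linear_combination g3
    exact pow_eq_zero_iff (two_ne_zero) |>.1 ((mul_eq_zero.1 this).resolve_left hBα)
  have h23 : m23 = 0 := by
    rw [h12, h13] at g1
    have : γ * m23 = 0 := by linear_combination g1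
    exact (mul_eq_zero.1 this).resolve_left hγ0
  refine ⟨h12, h13, ?_, h23, ?_, ?_⟩
  · rw [f1, h12, h13]; ring
  · rw [f2, h12, h23]; ring
  · rw [f3, h13, h23]; ring

/-- a nonsquare of the prime field is a nonsquare in every extension of odd degree -/
theorem nonsq_odd {p : ℕ} [Fact p.Prime] (hp2 : p ≠ 2) [CharP F p] [Finite F] {f : ℕ} (hf : Odd f)
    (hc : Nat.card F = p ^ f) (d : ZMod p) (hd : ¬ IsSquare d) : ¬ IsSquare (ZMod.castHom (dvd_refl p) F d) := by
  have hp : p.Prime := Fact.out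
  have : Fintype F := Fintype.ofFinite F
  rintro ⟨s, hs⟩
  have hd0 : d ≠ 0 := by
    rintro rfl
    exact hd ⟨0, by ring⟩
  have he : d ^ (p / 2) = -1 := by
    rcases ZMod.pow_div_two_eq_neg_one_or_one p hd0 with h | h
    · exact absurd ((ZMod.euler_criterion p hd0).2 h) hd
    · exact h
  have hodd : p % 2 = 1 := (Nat.Prime.eq_two_or_odd hp).resolve_left hp2
  have h1 : s ^ (p - 1) = -1 := by
    have h2 : p - 1 = 2 * (p / 2) := by omega
    rw [h2, pow_mul, pow_two, ← hs, ← map_pow, he, map_neg, map_one]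
  have h2 : s ^ p = -s := by
    have : s ^ p = s ^ (p - 1) * s := by rw [← pow_succ, Nat.sub_add_cancel hp.one_le]
    rw [this, h1]
    ring
  have h3 : ∀ n : ℕ, s ^ p ^ n = (-1) ^ n * s := by
    intro n
    induction n with
    | zero => rw [pow_zero, pow_one, pow_zero, one_mul]
    | succ n ih =>
      rw [pow_succ p n, pow_mul, ih, mul_pow, h2, ← pow_mul, mul_comm n p, pow_mul,
        Odd.neg_one_pow (Nat.odd_iff.2 hodd)]
      ring
  have h4 := h3 f
  rw [← hc, Nat.card_eq_fintype_card, FiniteField.pow_card, Odd.neg_one_pow hf] at h4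
  have h5 : (2 : F) * s = 0 := by linear_combination h4
  have h6 : (2 : F) ≠ 0 := by
    intro h
    have h7 : ((2 : ℕ) : F) = 0 := by exact_mod_cast h
    rw [CharP.cast_eq_zero_iff F p] at h7
    have := (Nat.prime_dvd_prime_iff_eq hp Nat.prime_two).1 h7
    exact hp2 this
  have h7 : s = 0 := (mul_eq_zero.1 h5).resolve_left h6
  rw [h7, mul_zero] at hs
  exact hd0 ((ZMod.castHom (dvd_refl p) F).injective (by rw [hs, map_zero]))

end

end Pool.Agent.Q202.QT
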