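import Pool.Agent.Q202.QT.NtCnt3

/-!
# Nested counting of tuples
-/

set_option autoImplicit false

namespace Pool.Agent.Q202.QT

open Finset Matrix Pool.Agent.TH831.OT Pool.Agent.TH831.OE

section
variable {K : Type} [Field K] {ι : Type} [Fintype ι]

theorem nti_colsc {u : ι → K} {L : ι → ι → K} {b : ι → K} {ε : K} {c : ι → K} (hc : ∀ j, c j ≠ 0) (h : NTi u L b ε) :
    NTi u (fun l j => c j * L l j) (fun j => c j * b j) ε := by
  intro C T hC hsq hrel ⟨v, hv0, hv1, hv2⟩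
  have hsum : ∀ f : ι → K, ∑ j, (c j * f j) • T j = ∑ j, f j • (c j • T j) := fun f =>
    Finset.sum_congr rfl fun j _ => by rw [smul_smul, mul_comm]
  obtain ⟨w, hw0, hw1, hw2⟩ := h C (fun j => c j • T j) hC (fun l => by
      rw [Matrix.smul_mul, Matrix.mul_smul, hsq l, smul_zero, smul_zero]) (fun l => by
      have h1 := hrel l
      unfold Rel at h1 ⊢
      rw [hsum] at h1
      rw [Matrix.mul_smul, Matrix.smul_mul, ← smul_sub, h1, smul_comm]) ⟨v, hv0, hv1, by rw [← hsum]; exact hv2⟩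
  refine ⟨w, hw0, hw1, fun l => ?_⟩
  have := hw2 l
  rw [Matrix.smul_mulVec] at this
  exact (smul_eq_zero.1 this).resolve_left (hc l)

theorem npi_colsc {u : ι → K} {L : ι → ι → K} {b : ι → K} {c : ι → K} (hc : ∀ j, c j ≠ 0) (h : NPi u L b) :
    NPi u (fun l j => c j * L l j) (fun j => c j * b j) := by
  intro xp yp x y hxy h1 h2 h3
  have hsum : ∀ f g : ι → K, ∑ j, (c j * f j) * g j = ∑ j, f j * (c j * g j) := fun f g =>
    Finset.sum_congr rfl fun j _ => by ring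
  have key := h xp yp (fun j => c j * x j) (fun j => c j * y j)
    (fun l => by
      have := hxy l
      linear_combination (c l * c l) * this)
    (fun l => by
      have := h1 l
      rw [hsum] at this
      linear_combination c l * this)
    (fun l => by
      have := h2 l
      rw [hsum] at this
      linear_combination c l * this)
    (by
      rw [← hsum, ← hsum]
      exact h3)
  rcases key with ⟨e1, e2⟩ | ⟨e1, e2⟩
  · exact Or.inl ⟨e1, fun l => (mul_eq_zero.1 (e2 l)).resolve_left (hc l)⟩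
  · exact Or.inr ⟨e1, fun l => (mul_eq_zero.1 (e2 l)).resolve_left (hc l)⟩

end

section
variable {p : ℕ} [hpF : Fact p.Prime]

/-- data of `k` primes -/
abbrev Dat (p k : ℕ) : Type := (Fin k → ZMod p × (Fin k → ZMod p)) × (Fin k → ZMod p)

def BadD {k : ℕ} (D : Dat p k) : Prop :=
  (∃ i, (D.1 i).1 = 0) ∨ ¬ NPi (fun l => (D.1 l).1) (fun l => (D.1 l).2) D.2 ∨
    ¬ NTi (fun l => (D.1 l).1) (fun l => (D.1 l).2) D.2 0 ∨ ¬ NTi (fun l => (D.1 l).1) (fun l => (D.1 l).2) D.2 1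

def ext {k : ℕ} (D : Dat p k) (w s : Fin (k + 1) → ZMod p) : Dat p (k + 1) :=
  (Fin.cons (α := fun _ => ZMod p × (Fin (k + 1) → ZMod p)) (s 0, Fin.cons (α := fun _ => ZMod p) 0 fun j => s j.succ)
    fun i => ((D.1 i).1, Fin.cons (α := fun _ => ZMod p) (w i.succ) (D.1 i).2),
    Fin.cons (α := fun _ => ZMod p) (w 0) D.2)

theorem cons_inj {k : ℕ} {α : Type} {a a' : α} {f f' : Fin k → α}
    (h : (Fin.cons (α := fun _ => α) a f : Fin (k + 1) → α) = Fin.cons (α := fun _ => α) a' f') : a = a' ∧ f = f' :=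
  ⟨congrFun h 0, funext fun i => congrFun h i.succ⟩

theorem ext_inj {k : ℕ} {D D' : Dat p k} {w s w' s' : Fin (k + 1) → ZMod p} (h : ext D w s = ext D' w' s') :
    D = D' ∧ w = w' ∧ s = s' := by
  obtain ⟨h1, h2⟩ := Prod.mk.inj h
  obtain ⟨h3, h4⟩ := cons_inj h1
  obtain ⟨h5, h6⟩ := cons_inj h2
  obtain ⟨h7, h8⟩ := Prod.mk.inj h3
  obtain ⟨-, h9⟩ := cons_inj h8
  have h10 : ∀ i, (D.1 i).1 = (D'.1 i).1 ∧ w i.succ = w' i.succ ∧ (D.1 i).2 = (D'.1 i).2 := by
    intro i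
    obtain ⟨a1, a2⟩ := Prod.mk.inj (congrFun h4 i)
    obtain ⟨a3, a4⟩ := cons_inj a2
    exact ⟨a1, a3, a4⟩
  refine ⟨Prod.ext (funext fun i => Prod.ext (h10 i).1 (h10 i).2.2) h6, ?_, ?_⟩
  · funext i
    refine Fin.cases ?_ (fun j => ?_) i
    · exact h5
    · exact (h10 j).2.1
  · funext i
    refine Fin.cases ?_ (fun j => ?_) i
    · exact h7
    · exact congrFun h9 j

open Classical in
/-- number of bad completions -/
noncomputable def Nb : (m k : ℕ) → Dat p k → ℕ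
  | 0, _, D => if BadD D then 1 else 0
  | m + 1, k, D => ∑ w, ∑ s, Nb m (k + 1) (ext D w s)

def colsc {k : ℕ} (c : Fin k → ZMod p) (D : Dat p k) : Dat p k :=
  (fun i => ((D.1 i).1, fun j => c j * (D.1 i).2 j), fun j => c j * D.2 j)

theorem colsc_inv {k : ℕ} {c : Fin k → ZMod p} (hc : ∀ j, c j ≠ 0) (D : Dat p k) :
    colsc (fun j => (c j)⁻¹) (colsc c D) = D := by
  refine Prod.ext (funext fun i => Prod.ext rfl (funext fun j => ?_)) (funext fun j => ?_)
  · exact inv_mul_cancel_left₀ (hc j) _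
  · exact inv_mul_cancel_left₀ (hc j) _

theorem bad_colsc1 {k : ℕ} {c : Fin k → ZMod p} (hc : ∀ j, c j ≠ 0) {D : Dat p k} (h : BadD (colsc c D)) : BadD D := by
  by_contra hD
  unfold BadD at hD
  push Not at hD
  obtain ⟨h1, h2, h3, h4⟩ := hD
  rcases h with ⟨i, hi⟩ | h | h | h
  · exact h1 i hi
  · exact h (npi_colsc hc h2)
  · exact h (nti_colsc hc h3)
  · exact h (nti_colsc hc h4)

theorem bad_colsc {k : ℕ} {c : Fin k → ZMod p} (hc : ∀ j, c j ≠ 0) (D : Dat p k) : BadD (colsc c D) ↔ BadD D := by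
  refine ⟨bad_colsc1 hc, fun h => bad_colsc1 (c := fun j => (c j)⁻¹) (fun j => inv_ne_zero (hc j)) ?_⟩
  rw [colsc_inv hc]
  exact h

theorem cons_ne {k : ℕ} {c : Fin k → ZMod p} (hc : ∀ j, c j ≠ 0) {a : ZMod p} (ha : a ≠ 0) :
    ∀ j, (Fin.cons (α := fun _ => ZMod p) a c : Fin (k + 1) → ZMod p) j ≠ 0 := by
  intro j
  refine Fin.cases ?_ (fun i => ?_) j
  · exact ha
  · exact hc i

theorem ext_colsc {k : ℕ} (c : Fin k → ZMod p) (D : Dat p k) (w s : Fin (k + 1) → ZMod p) :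
    ext (colsc c D) w (fun i => (Fin.cons (α := fun _ => ZMod p) 1 c : Fin (k + 1) → ZMod p) i * s i) =
      colsc (Fin.cons (α := fun _ => ZMod p) 1 c) (ext D w s) := by
  refine Prod.ext (funext fun i => ?_) (funext fun j => ?_)
  · refine Fin.cases ?_ (fun i' => ?_) i
    · refine Prod.ext ?_ (funext fun j => ?_)
      · show (1 : ZMod p) * s 0 = s 0
        exact one_mul _
      · refine Fin.cases ?_ (fun j' => ?_) j
        · show (0 : ZMod p) = 1 * 0
          rw [mul_zero]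
        · rfl
    · refine Prod.ext rfl (funext fun j => ?_)
      refine Fin.cases ?_ (fun j' => ?_) j
      · show w i'.succ = 1 * w i'.succ
        rw [one_mul]
      · rfl
  · refine Fin.cases ?_ (fun j' => ?_) j
    · show w 0 = 1 * w 0
      rw [one_mul]
    · rfl

theorem ext_wsc {k : ℕ} (c : ZMod p) (D : Dat p k) (w s : Fin (k + 1) → ZMod p) :
    ext D (fun i => c * w i) s = colsc (Fin.cons (α := fun _ => ZMod p) c fun _ => 1) (ext D w s) := by
  refine Prod.ext (funext fun i => ?_) (funext fun j => ?_)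
  · refine Fin.cases ?_ (fun i' => ?_) i
    · refine Prod.ext rfl (funext fun j => ?_)
      refine Fin.cases ?_ (fun j' => ?_) j
      · show (0 : ZMod p) = c * 0
        rw [mul_zero]
      · show s j'.succ = 1 * s j'.succ
        rw [one_mul]
    · refine Prod.ext rfl (funext fun j => ?_)
      refine Fin.cases ?_ (fun j' => ?_) j
      · rfl
      · show (D.1 i').2 j' = 1 * (D.1 i').2 j'
        rw [one_mul]
  · refine Fin.cases ?_ (fun j' => ?_) j
    · rfl
    · show D.2 j' = 1 * D.2 j'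
      rw [one_mul]

theorem Nb_colsc (m : ℕ) : ∀ (k : ℕ) (c : Fin k → ZMod p), (∀ j, c j ≠ 0) → ∀ D : Dat p k, Nb m k (colsc c D) = Nb m k D := by
  classical
  induction m with
  | zero =>
    intro k c hc D
    unfold Nb
    rw [if_congr (bad_colsc hc D) rfl rfl]
  | succ m ih =>
    intro k c hc D
    unfold Nb
    refine sum_congr rfl fun w _ => ?_
    have hcc := cons_ne hc (one_ne_zero (α := ZMod p))
    have hbij : Function.Bijective fun (s : Fin (k + 1) → ZMod p) => fun i =>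
        (Fin.cons (α := fun _ => ZMod p) 1 c : Fin (k + 1) → ZMod p) i * s i := by
      rw [← Finite.injective_iff_bijective]
      intro s s' h
      funext i
      exact mul_left_cancel₀ (hcc i) (congrFun h i)
    rw [← hbij.sum_comp]
    refine sum_congr rfl fun s _ => ?_
    rw [ext_colsc, ih (k + 1) _ hcc]

theorem Nb_wsc (m k : ℕ) {c : ZMod p} (hc : c ≠ 0) (D : Dat p k) (w s : Fin (k + 1) → ZMod p) :
    Nb m (k + 1) (ext D (fun i => c * w i) s) = Nb m (k + 1) (ext D w s) := by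
  rw [ext_wsc, Nb_colsc m (k + 1) _ (cons_ne (fun _ => one_ne_zero) hc)]

open Classical in
/-- data with zero diagonal -/
noncomputable def Z (p k : ℕ) [Fact p.Prime] : Finset (Dat p k) := univ.filter fun D => ∀ l, (D.1 l).2 l = 0

open Classical in
theorem Nb_sum (m : ℕ) : ∀ (k n : ℕ), k + m = n → ∑ D ∈ Z p k, Nb m k D ≤ ((Z p n).filter fun D => BadD D).card := by
  induction m with
  | zero =>
    intro k n hn
    obtain rfl : k = n := by omega
    unfold Nb
    rw [card_filter]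
  | succ m ih =>
    intro k n hn
    refine le_trans ?_ (ih (k + 1) n (by omega))
    have h1 : ∑ D ∈ Z p k, Nb (m + 1) k D =
        ∑ z ∈ (Z p k) ×ˢ ((univ : Finset (Fin (k + 1) → ZMod p)) ×ˢ (univ : Finset (Fin (k + 1) → ZMod p))),
          Nb m (k + 1) (ext z.1 z.2.1 z.2.2) := by
      rw [sum_product]
      refine sum_congr rfl fun D _ => ?_
      rw [sum_product]
      rfl
    rw [h1]
    rw [← sum_image (f := fun D' => Nb m (k + 1) D') (g := fun z : Dat p k × ((Fin (k + 1) → ZMod p) × (Fin (k + 1) → ZMod p)) =>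
      ext z.1 z.2.1 z.2.2) (by
        rintro ⟨D, w, s⟩ _ ⟨D', w', s'⟩ _ h
        obtain ⟨e1, e2, e3⟩ := ext_inj h
        exact Prod.ext e1 (Prod.ext e2 e3))]
    refine sum_le_sum_of_subset ?_
    intro D' hD'
    obtain ⟨⟨D, w, s⟩, hz, rfl⟩ := mem_image.1 hD'
    have hD := (mem_product.1 hz).1
    refine mem_filter.2 ⟨mem_univ _, fun l => ?_⟩
    refine Fin.cases ?_ (fun l' => ?_) l
    · rfl
    · exact (mem_filter.1 hD).2 l'

/-- number of completions -/
def tot (p m k : ℕ) : ℕ := p ^ (m ^ 2 + m + 2 * k * m)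

theorem tot_succ (p m k : ℕ) : tot p (m + 1) k = p ^ (2 * (k + 1)) * tot p m (k + 1) := by
  unfold tot
  rw [← pow_add]
  congr 1
  ring

/-- few bad completions -/
def GdN (η : ℝ) (m k : ℕ) (D : Dat p k) : Prop := (Nb m k D : ℝ) < η ^ m * (tot p m k : ℝ)

open Classical in
theorem gd_step {η : ℝ} (hη : 0 < η) {m k : ℕ} {D : Dat p k} (h : GdN η (m + 1) k D) :
    (1 - η) * ((p : ℝ) ^ (k + 1) * (p : ℝ) ^ (k + 1)) - (p : ℝ) ^ (k + 1) ≤
      ((∑ w : Fin (k + 1) → ZMod p, ((univ : Finset (Fin (k + 1) → ZMod p)).filter fun s =>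
        w ≠ 0 ∧ GdN η m (k + 1) (ext D w s)).card : ℕ) : ℝ) := by
  have hp : p.Prime := hpF.out
  have hp0 : (0 : ℝ) < p := by exact_mod_cast hp.pos
  have ht : (0 : ℝ) < (tot p m (k + 1) : ℝ) := by
    unfold tot
    push_cast
    positivity
  let V : Type := Fin (k + 1) → ZMod p
  have hVc : Fintype.card V = p ^ (k + 1) := by
    show Fintype.card (Fin (k + 1) → ZMod p) = p ^ (k + 1)
    rw [Fintype.card_fun, ZMod.card, Fintype.card_fin]
  set Bd : Finset (V × V) := univ.filter fun z => ¬ GdN η m (k + 1) (ext D z.1 z.2) with hBd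
  set Gg : Finset (V × V) := univ.filter fun z => z.1 ≠ 0 ∧ GdN η m (k + 1) (ext D z.1 z.2) with hGg
  have h1 : (∑ w : V, ((univ : Finset V).filter fun s => w ≠ 0 ∧ GdN η m (k + 1) (ext D w s)).card) = Gg.card := by
    rw [hGg, card_filter, Fintype.sum_prod_type]
    refine sum_congr rfl fun w _ => ?_
    rw [card_filter]
  rw [h1]
  have h2 : (Bd.card : ℝ) * (η ^ m * (tot p m (k + 1) : ℝ)) ≤ (Nb (m + 1) k D : ℝ) := by
    have h3 : (Nb (m + 1) k D : ℝ) = ∑ z : V × V, (Nb m (k + 1) (ext D z.1 z.2) : ℝ) := by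
      rw [Fintype.sum_prod_type]
      show ((∑ w, ∑ s, Nb m (k + 1) (ext D w s) : ℕ) : ℝ) = _
      push_cast
      rfl
    rw [h3, ← nsmul_eq_mul, ← sum_const]
    refine (sum_le_sum (g := fun z : V × V => (Nb m (k + 1) (ext D z.1 z.2) : ℝ)) fun z hz => ?_).trans
      (sum_le_sum_of_subset_of_nonneg (subset_univ Bd) fun z _ _ => Nat.cast_nonneg _)
    exact not_lt.1 (mem_filter.1 hz).2
  have h4 : (Bd.card : ℝ) < η * ((p : ℝ) ^ (k + 1) * (p : ℝ) ^ (k + 1)) := by
    unfold GdN at h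
    rw [tot_succ] at h
    have h5 := lt_of_le_of_lt h2 h
    have h6 : η ^ (m + 1) * ((p ^ (2 * (k + 1)) * tot p m (k + 1) : ℕ) : ℝ) =
        η * ((p : ℝ) ^ (k + 1) * (p : ℝ) ^ (k + 1)) * (η ^ m * (tot p m (k + 1) : ℝ)) := by
      push_cast
      ring
    rw [h6] at h5
    exact lt_of_mul_lt_mul_right h5 (by positivity)
  have h7 : (univ : Finset (V × V)).card ≤ Gg.card + Bd.card + (({0} : Finset V) ×ˢ (univ : Finset V)).card := by
    refine (card_le_card (t := Gg ∪ Bd ∪ (({0} : Finset V) ×ˢ (univ : Finset V))) ?_).trans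
      ((card_union_le _ _).trans (Nat.add_le_add_right (card_union_le _ _) _))
    intro z _
    by_cases hz : z.1 = 0
    · exact mem_union_right _ (mem_product.2 ⟨mem_singleton.2 hz, mem_univ _⟩)
    · by_cases hg : GdN η m (k + 1) (ext D z.1 z.2)
      · exact mem_union_left _ (mem_union_left _ (mem_filter.2 ⟨mem_univ _, hz, hg⟩))
      · exact mem_union_left _ (mem_union_right _ (mem_filter.2 ⟨mem_univ _, hg⟩))
  rw [card_univ, Fintype.card_prod, card_product, card_singleton, one_mul, card_univ, hVc] at h7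
  have h8 : ((p : ℝ) ^ (k + 1) * (p : ℝ) ^ (k + 1)) ≤ (Gg.card : ℝ) + (Bd.card : ℝ) + (p : ℝ) ^ (k + 1) := by
    exact_mod_cast h7
  nlinarith

/-- no bad completions at the end -/
theorem gd_zero {η : ℝ} {k : ℕ} {D : Dat p k} (h : GdN η 0 k D) : ¬ BadD D := by
  classical
  intro hb
  unfold GdN Nb at h
  rw [if_pos hb, tot] at h
  norm_num at h

open Classical in
/-- the union bound -/
theorem bad_card (hp2 : p ≠ 2) (n : ℕ) :
    (((Z p n).filter fun D => BadD D).card : ℝ) * p ≤ (8 * (n : ℝ) ^ 3 * 3 ^ n) * (p : ℝ) ^ (n ^ 2 + n) := by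
  have hp : p.Prime := hpF.out
  have hp0 : (0 : ℝ) < p := by exact_mod_cast hp.pos
  have hp1 : (1 : ℝ) ≤ p := by exact_mod_cast hp.one_lt.le
  have two : (2 : ZMod p) ≠ 0 := by
    intro h
    have h' : ((2 : ℕ) : ZMod p) = 0 := by exact_mod_cast h
    rw [ZMod.natCast_eq_zero_iff] at h'
    have := Nat.le_of_dvd (by norm_num) h'
    have := hp.two_le
    omega
  set S1 := (Z p n).filter fun D => ∃ i, (D.1 i).1 = 0 with hS1
  set S2 := (Z p n).filter fun D => PW (fun l => (D.1 l).1) (fun l => (D.1 l).2) D.2 with hS2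
  set S3 := (Z p n).filter fun D => W3 (fun l => (D.1 l).1) (fun l => (D.1 l).2) D.2 0 with hS3
  set S4 := (Z p n).filter fun D => W3 (fun l => (D.1 l).1) (fun l => (D.1 l).2) D.2 1 with hS4
  have hZ : ∀ D ∈ Z p n, ∀ l, (D.1 l).2 l = 0 := fun D hD => (mem_filter.1 hD).2
  have hsub : ((Z p n).filter fun D => BadD D) ⊆ S1 ∪ S2 ∪ S3 ∪ S4 := by
    intro D hD
    obtain ⟨hD1, hD2⟩ := mem_filter.1 hD
    by_cases hu : ∃ i, (D.1 i).1 = 0
    · exact mem_union_left _ (mem_union_left _ (mem_union_left _ (mem_filter.2 ⟨hD1, hu⟩)))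
    · have hu' : ∀ i, (D.1 i).1 ≠ 0 := fun i hi => hu ⟨i, hi⟩
      rcases hD2 with h | h | h | h
      · exact absurd h hu
      · exact mem_union_left _ (mem_union_left _ (mem_union_right _ (mem_filter.2 ⟨hD1, np_witness hu' h⟩)))
      · rcases nt_witness two hu' h with h | h
        · exact mem_union_left _ (mem_union_right _ (mem_filter.2 ⟨hD1, h⟩))
        · exact mem_union_left _ (mem_union_left _ (mem_union_right _ (mem_filter.2 ⟨hD1, h⟩)))
      · rcases nt_witness two hu' h with h | h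
        · exact mem_union_right _ (mem_filter.2 ⟨hD1, h⟩)
        · exact mem_union_left _ (mem_union_left _ (mem_union_right _ (mem_filter.2 ⟨hD1, h⟩)))
  have c1 := cnt_u S1 (fun D hD => ⟨hZ D (mem_filter.1 hD).1, (mem_filter.1 hD).2⟩)
  have c2 := cnt_pw S2 (fun D hD => ⟨hZ D (mem_filter.1 hD).1, (mem_filter.1 hD).2⟩)
  have c3 := cnt_w3 two 0 S3 (fun D hD => ⟨hZ D (mem_filter.1 hD).1, (mem_filter.1 hD).2⟩)
  have c4 := cnt_w3 two 1 S4 (fun D hD => ⟨hZ D (mem_filter.1 hD).1, (mem_filter.1 hD).2⟩)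
  have hc : (((Z p n).filter fun D => BadD D).card : ℝ) ≤ S1.card + S2.card + S3.card + S4.card := by
    have h1 := (card_le_card hsub).trans ((card_union_le _ _).trans (Nat.add_le_add_right ((card_union_le _ _).trans
      (Nat.add_le_add_right (card_union_le _ _) _)) _))
    exact_mod_cast h1
  rw [ZMod.card] at c1 c2 c3 c4
  simp only [Fintype.card_prod, Fintype.card_fin, ZMod.card, Fintype.card_option] at c2 c3 c4
  set Q : ℝ := (p : ℝ) ^ (n ^ 2 + n) with hQ
  have hQ0 : 0 < Q := by positivity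
  have hQe : ((p : ℝ) ^ n) ^ n * (p : ℝ) ^ n = Q := by rw [hQ, ← pow_mul, ← pow_add, ← sq]
  have e1 : (n : ℝ) * ((p : ℝ) ^ n * (((p : ℝ) ^ n) ^ n * (1 / (p : ℝ)) ^ 1)) * p = n * Q := by
    rw [← hQe]
    field_simp
  have e2 : ((n * (n * (3 * p)) : ℕ) : ℝ) * ((p : ℝ) ^ n / p * ((3 * (p : ℝ) ^ n) ^ n * (1 / (p : ℝ)) ^ 1)) * p =
      3 * n ^ 2 * 3 ^ n * Q := by
    rw [← hQe, mul_pow]
    push_cast
    field_simp
  have e3 : ((n * (n * n) * ((p + 1) * (p * p)) : ℕ) : ℝ) * ((p : ℝ) ^ n / p * ((2 * (p : ℝ) ^ n) ^ n * (1 / (p : ℝ)) ^ 3)) * p =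
      n ^ 3 * 2 ^ n * Q * ((p + 1) / p) := by
    rw [← hQe, mul_pow]
    push_cast
    field_simp
  have hpp : ((p : ℝ) + 1) / p ≤ 2 := by
    rw [div_le_iff₀ hp0]
    linarith
  have f1 : (S1.card : ℝ) * p ≤ n * Q := by
    rw [← e1]
    exact mul_le_mul_of_nonneg_right c1 hp0.le
  have f2 : (S2.card : ℝ) * p ≤ 3 * n ^ 2 * 3 ^ n * Q := by
    rw [← e2]
    exact mul_le_mul_of_nonneg_right c2 hp0.le
  have f3 : (S3.card : ℝ) * p ≤ n ^ 3 * 2 ^ n * Q * 2 := by
    refine le_trans (mul_le_mul_of_nonneg_right c3 hp0.le) ?_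
    rw [e3]
    exact mul_le_mul_of_nonneg_left hpp (by positivity)
  have f4 : (S4.card : ℝ) * p ≤ n ^ 3 * 2 ^ n * Q * 2 := by
    refine le_trans (mul_le_mul_of_nonneg_right c4 hp0.le) ?_
    rw [e3]
    exact mul_le_mul_of_nonneg_left hpp (by positivity)
  have g1 : (n : ℝ) ≤ n ^ 3 * 3 ^ n := by
    rcases Nat.eq_zero_or_pos n with h | h
    · rw [h]
      norm_num
    · have h1 : (1 : ℝ) ≤ n := by exact_mod_cast h
      have h2 : (1 : ℝ) ≤ 3 ^ n := one_le_pow₀ (by norm_num)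
      calc (n : ℝ) = n ^ 1 * 1 := by ring
        _ ≤ n ^ 3 * 3 ^ n := mul_le_mul (pow_le_pow_right₀ h1 (by norm_num)) h2 (by norm_num) (by positivity)
  have g2 : (n : ℝ) ^ 2 * 3 ^ n ≤ n ^ 3 * 3 ^ n := by
    rcases Nat.eq_zero_or_pos n with h | h
    · rw [h]
      norm_num
    · have h1 : (1 : ℝ) ≤ n := by exact_mod_cast h
      exact mul_le_mul_of_nonneg_right (pow_le_pow_right₀ h1 (by norm_num)) (by positivity)
  have g3 : (n : ℝ) ^ 3 * 2 ^ n ≤ n ^ 3 * 3 ^ n :=
    mul_le_mul_of_nonneg_left (pow_le_pow_left₀ (by norm_num) (by norm_num) n) (by positivity)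
  calc (((Z p n).filter fun D => BadD D).card : ℝ) * p ≤ (S1.card + S2.card + S3.card + S4.card) * p :=
        mul_le_mul_of_nonneg_right hc hp0.le
    _ = S1.card * p + S2.card * p + S3.card * p + S4.card * p := by ring
    _ ≤ n * Q + 3 * n ^ 2 * 3 ^ n * Q + n ^ 3 * 2 ^ n * Q * 2 + n ^ 3 * 2 ^ n * Q * 2 :=
        add_le_add (add_le_add (add_le_add f1 f2) f3) f4
    _ = (n + 3 * (n ^ 2 * 3 ^ n) + 4 * (n ^ 3 * 2 ^ n)) * Q := by ring
    _ ≤ (8 * (n : ℝ) ^ 3 * 3 ^ n) * Q := mul_le_mul_of_nonneg_right (by nlinarith) hQ0.le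

/-- the start of the recursion -/
theorem gd_init (hp2 : p ≠ 2) {n : ℕ} {η : ℝ} (h : 8 * (n : ℝ) ^ 3 * 3 ^ n < η ^ n * p) (D : Dat p 0) : GdN η n 0 D := by
  classical
  have hp : p.Prime := hpF.out
  have hp0 : (0 : ℝ) < p := by exact_mod_cast hp.pos
  have h1 : Nb n 0 D ≤ ((Z p n).filter fun D => BadD D).card := by
    refine le_trans ?_ (Nb_sum n 0 n (by omega))
    exact single_le_sum (f := fun D => Nb n 0 D) (fun _ _ => Nat.zero_le _) (mem_filter.2 ⟨mem_univ _, fun l => l.elim0⟩)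
  have h2 := bad_card hp2 n
  have h3 : (Nb n 0 D : ℝ) * p ≤ (8 * (n : ℝ) ^ 3 * 3 ^ n) * (p : ℝ) ^ (n ^ 2 + n) :=
    le_trans (mul_le_mul_of_nonneg_right (by exact_mod_cast h1) hp0.le) h2
  unfold GdN tot
  have h4 : (0 : ℝ) < (p : ℝ) ^ (n ^ 2 + n) := by positivity
  have h5 : (Nb n 0 D : ℝ) * p < (η ^ n * (p : ℝ) ^ (n ^ 2 + n)) * p := by
    refine lt_of_le_of_lt h3 ?_
    calc (8 * (n : ℝ) ^ 3 * 3 ^ n) * (p : ℝ) ^ (n ^ 2 + n) < (η ^ n * p) * (p : ℝ) ^ (n ^ 2 + n) :=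
          mul_lt_mul_of_pos_right h h4
      _ = _ := by ring
  have h6 := lt_of_mul_lt_mul_right h5 hp0.le
  simpa using h6

end

end Pool.Agent.Q202.QT
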