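import Pool.Agent.Q202.QT.Joint
import Pool.Agent.Q202.QT.Cnt
import Pool.Agent.Q202.RT.Np

/-!
# The plane condition for four places, and uniform reciprocal vectors
-/

set_option autoImplicit false

open NumberField Matrix IsLocalRing

namespace Pool.Agent.Q202.QT

open Finset Filter
open Pool.Agent.Results.MP_ca71b5_nt.RankTwoExtensions
open Pool.Agent.W569.TG (lk)
open Pool.Agent.Q202.RT

section
variable {p : ℕ} [hpF : Fact p.Prime]

theorem plane4 (hp2 : p ≠ 2) {F : Type} [Field F] [CharP F p] [Finite F] {d : ℕ} (hd : Odd d) (hc : Nat.card F = p ^ d)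
    (L : Fin 4 → Fin 4 → ZMod p) (hL : ∀ i, L i i = 0) (X Y : Fin 4 → F)
    (h : ∀ i, X i * ∑ j, ZMod.castHom (dvd_refl p) F (L i j) * Y j = Y i * ∑ j, ZMod.castHom (dvd_refl p) F (L i j) * X j)
    (hG : Gd (L 0 1) (L 0 2) (L 1 0) (L 1 2) (L 2 0) (L 2 1) ![L 0 3, L 1 3, L 2 3] ![L 3 0, L 3 1, L 3 2]) :
    ∃ c d : F, (c ≠ 0 ∨ d ≠ 0) ∧ ∀ i, c * X i = d * Y i := by
  obtain ⟨hne, hsq⟩ := hG
  have n0 : L 0 3 ≠ 0 := hne 0
  have n1 : L 1 3 ≠ 0 := hne 1
  have n2 : L 2 3 ≠ 0 := hne 2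
  have hinj : Function.Injective (ZMod.castHom (dvd_refl p) F) := (ZMod.castHom (dvd_refl p) F).injective
  have hsq2 := nonsq_odd (F := F) hp2 hd hc _ hsq
  rw [map_Del] at hsq2
  simp only [Matrix.cons_val_zero, Matrix.cons_val_one, Matrix.cons_val, map_inv₀] at hsq2
  simp only [Fin.sum_univ_four] at h
  have e0 := h 0
  have e1 := h 1
  have e2 := h 2
  have e3 := h 3
  simp only [hL, map_zero, zero_mul, zero_add, add_zero] at e0 e1 e2 e3
  set f := ZMod.castHom (dvd_refl p) F with hf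
  have nz : ∀ z : ZMod p, z ≠ 0 → f z ≠ 0 := fun z hz h => hz (hinj (by rw [h, map_zero]))
  obtain ⟨m12, m13, m14, m23, m24, m34⟩ := quad (f (L 0 1)) (f (L 0 2)) (f (L 0 3)) (f (L 1 0)) (f (L 1 2)) (f (L 1 3))
    (f (L 2 0)) (f (L 2 1)) (f (L 2 3)) (f (L 3 0)) (f (L 3 1)) (f (L 3 2)) (nz _ n0) (nz _ n1) (nz _ n2) hsq2
    (X 0 * Y 1 - X 1 * Y 0) (X 0 * Y 2 - X 2 * Y 0) (X 0 * Y 3 - X 3 * Y 0) (X 1 * Y 2 - X 2 * Y 1)
    (X 1 * Y 3 - X 3 * Y 1) (X 2 * Y 3 - X 3 * Y 2) (by ring) (by linear_combination e0) (by linear_combination e1)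
    (by linear_combination e2) (by linear_combination e3)
  exact dep4 X Y (sub_eq_zero.1 m12) (sub_eq_zero.1 m13) (sub_eq_zero.1 m14) (sub_eq_zero.1 m23) (sub_eq_zero.1 m24)
    (sub_eq_zero.1 m34)

theorem sum4 {F : Type} [AddCommMonoid F] {a b c q : ℕ} (hab : a ≠ b) (hac : a ≠ c) (haq : a ≠ q) (hbc : b ≠ c) (hbq : b ≠ q)
    (hcq : c ≠ q) (g : ℕ → F) : ∑ j ∈ ({a, b, c, q} : Finset ℕ), g j = g a + g b + g c + g q := by
  rw [sum_insert (by simp [hab, hac, haq]), sum_insert (by simp [hbc, hbq]), sum_pair hcq]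
  rw [← add_assoc, ← add_assoc]

/-- the good fourth primes, tame case -/
def GT (χ : ∀ j : ℕ, (ZMod j)ˣ →* Multiplicative (ZMod p)) (a b c q : ℕ) : Prop :=
  Gd (lk χ a b) (lk χ a c) (lk χ b a) (lk χ b c) (lk χ c a) (lk χ c b) (vec χ ![a, b, c] q)
    (fun i => lk χ q ((![a, b, c] : Fin 3 → ℕ) i))

theorem plane_tame (hp2 : p ≠ 2) {F : Type} [Field F] [CharP F p] [Finite F] {d : ℕ} (hd : Odd d) (hc : Nat.card F = p ^ d)
    (χ : ∀ j : ℕ, (ZMod j)ˣ →* Multiplicative (ZMod p)) (S : Finset ℕ)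
    (a b c q : ℕ) (ha1 : a ≠ 1) (hb1 : b ≠ 1) (hc1 : c ≠ 1) (hq1 : q ≠ 1) (hT : Tame p S = {a, b, c, q}) (hab : a ≠ b)
    (hac : a ≠ c) (haq : a ≠ q) (hbc : b ≠ c) (hbq : b ≠ q) (hcq : c ≠ q) (hpS : p ∉ S) (hD : GT χ a b c q) :
    NoPlane F p S χ := by
  intro x y α β h0 h1 _
  obtain ⟨rfl, rfl⟩ := h0 hpS
  rw [hT] at h1 ⊢
  have hs := sum4 (F := F) hab hac haq hbc hbq hcq
  have e0 := h1 a (by simp)
  have e1 := h1 b (by simp)
  have e2 := h1 c (by simp)
  have e3 := h1 q (by simp)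
  rw [hs, hs] at e0 e1 e2 e3
  simp only [linking_lk, mul_zero, add_zero] at e0 e1 e2 e3
  obtain ⟨c', d', hcd, h⟩ := plane4 hp2 hd hc (fun i j => lk χ ((![a, b, c, q] : Fin 4 → ℕ) i) ((![a, b, c, q] : Fin 4 → ℕ) j))
    (by
      intro i
      fin_cases i
      · exact lk_self χ ha1
      · exact lk_self χ hb1
      · exact lk_self χ hc1
      · exact lk_self χ hq1) (fun i => x ((![a, b, c, q] : Fin 4 → ℕ) i)) (fun i => y ((![a, b, c, q] : Fin 4 → ℕ) i))
    (by
      intro i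
      rw [Fin.sum_univ_four, Fin.sum_univ_four]
      fin_cases i
      · exact e0
      · exact e1
      · exact e2
      · exact e3) (by
      obtain ⟨h2, h3⟩ := hD
      refine ⟨?_, h3⟩
      intro i
      fin_cases i
      · exact h2 0
      · exact h2 1
      · exact h2 2)
  refine ⟨c', d', hcd, by rw [mul_zero, mul_zero], fun j hj => ?_⟩
  simp only [mem_insert, mem_singleton] at hj
  rcases hj with rfl | rfl | rfl | rfl
  · exact h 0
  · exact h 1
  · exact h 2
  · exact h 3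

/-- the good third primes, wild case -/
def GW (χ : ∀ j : ℕ, (ZMod j)ˣ →* Multiplicative (ZMod p)) (k l q : ℕ) : Prop :=
  Gd (lk χ p k) (lk χ p l) (lv p k) (lk χ k l) (lv p l) (lk χ l k) (vec χ ![p, k, l] q) ![lv p q, lk χ q k, lk χ q l]

theorem plane_wild (hp2 : p ≠ 2) {F : Type} [Field F] [CharP F p] [Finite F] {d : ℕ} (hd : Odd d) (hc : Nat.card F = p ^ d)
    (χ : ∀ j : ℕ, (ZMod j)ˣ →* Multiplicative (ZMod p)) (S : Finset ℕ)
    (k l q : ℕ) (hk1 : k ≠ 1) (hl1 : l ≠ 1) (hq1 : q ≠ 1) (hT : Tame p S = {k, l, q}) (hkl : k ≠ l)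
    (hkq : k ≠ q) (hlq : l ≠ q) (hD : GW χ k l q) : NoPlane F p S χ := by
  intro x y α β _ h1 h2
  rw [hT] at h1 h2 ⊢
  have hs : ∀ g : ℕ → F, ∑ j ∈ ({k, l, q} : Finset ℕ), g j = g k + g l + g q := by
    intro g
    rw [sum_insert (by simp [hkl, hkq]), sum_pair hlq, add_assoc]
  have hlv : ∀ c : ℕ, (((c - 1) / p : ℕ) : F) = ZMod.castHom (dvd_refl p) F (lv p c) := by
    intro c
    unfold lv
    rw [map_natCast]
  have e1 := h1 k (by simp)
  have e2 := h1 l (by simp)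
  have e3 := h1 q (by simp)
  rw [hs, hs] at e1 e2 e3 h2
  simp only [linking_lk, hlv] at e1 e2 e3 h2
  set L : Fin 4 → Fin 4 → ZMod p := ![![0, lk χ p k, lk χ p l, lk χ p q], ![lv p k, lk χ k k, lk χ k l, lk χ k q],
    ![lv p l, lk χ l k, lk χ l l, lk χ l q], ![lv p q, lk χ q k, lk χ q l, lk χ q q]] with hL
  obtain ⟨c', d', hcd, h⟩ := plane4 hp2 hd hc L
    (by
      intro i
      fin_cases i
      · rfl
      · exact lk_self χ hk1
      · exact lk_self χ hl1
      · exact lk_self χ hq1) ![α, x k, x l, x q] ![β, y k, y l, y q]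
    (by
      intro i
      rw [Fin.sum_univ_four, Fin.sum_univ_four]
      fin_cases i
      · show α * (ZMod.castHom (dvd_refl p) F 0 * β + ZMod.castHom (dvd_refl p) F (lk χ p k) * y k +
          ZMod.castHom (dvd_refl p) F (lk χ p l) * y l + ZMod.castHom (dvd_refl p) F (lk χ p q) * y q) =
          β * (ZMod.castHom (dvd_refl p) F 0 * α + ZMod.castHom (dvd_refl p) F (lk χ p k) * x k +
          ZMod.castHom (dvd_refl p) F (lk χ p l) * x l + ZMod.castHom (dvd_refl p) F (lk χ p q) * x q)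
        rw [map_zero]
        linear_combination h2
      · show x k * (ZMod.castHom (dvd_refl p) F (lv p k) * β + ZMod.castHom (dvd_refl p) F (lk χ k k) * y k +
          ZMod.castHom (dvd_refl p) F (lk χ k l) * y l + ZMod.castHom (dvd_refl p) F (lk χ k q) * y q) =
          y k * (ZMod.castHom (dvd_refl p) F (lv p k) * α + ZMod.castHom (dvd_refl p) F (lk χ k k) * x k +
          ZMod.castHom (dvd_refl p) F (lk χ k l) * x l + ZMod.castHom (dvd_refl p) F (lk χ k q) * x q)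
        linear_combination e1
      · show x l * (ZMod.castHom (dvd_refl p) F (lv p l) * β + ZMod.castHom (dvd_refl p) F (lk χ l k) * y k +
          ZMod.castHom (dvd_refl p) F (lk χ l l) * y l + ZMod.castHom (dvd_refl p) F (lk χ l q) * y q) =
          y l * (ZMod.castHom (dvd_refl p) F (lv p l) * α + ZMod.castHom (dvd_refl p) F (lk χ l k) * x k +
          ZMod.castHom (dvd_refl p) F (lk χ l l) * x l + ZMod.castHom (dvd_refl p) F (lk χ l q) * x q)
        linear_combination e2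
      · show x q * (ZMod.castHom (dvd_refl p) F (lv p q) * β + ZMod.castHom (dvd_refl p) F (lk χ q k) * y k +
          ZMod.castHom (dvd_refl p) F (lk χ q l) * y l + ZMod.castHom (dvd_refl p) F (lk χ q q) * y q) =
          y q * (ZMod.castHom (dvd_refl p) F (lv p q) * α + ZMod.castHom (dvd_refl p) F (lk χ q k) * x k +
          ZMod.castHom (dvd_refl p) F (lk χ q l) * x l + ZMod.castHom (dvd_refl p) F (lk χ q q) * x q)
        linear_combination e3) (by
      obtain ⟨h2, h3⟩ := hD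
      refine ⟨?_, h3⟩
      intro i
      fin_cases i
      · exact h2 0
      · exact h2 1
      · exact h2 2)
  refine ⟨c', d', hcd, h 0, fun j hj => ?_⟩
  simp only [mem_insert, mem_singleton] at hj
  rcases hj with rfl | rfl | rfl
  · exact h 1
  · exact h 2
  · exact h 3

open Classical in
/-- uniform fibres from translations -/
theorem unif {G S : Type} [Group G] [AddGroup S] [Fintype S] (A : Finset G) (r : G → S)
    (h : ∀ t : S, ∃ g : G, (∀ u, u ∈ A ↔ g * u ∈ A) ∧ ∀ u ∈ A, r (g * u) = t + r u) (s : S) :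
    Fintype.card S * (A.filter fun u => r u = s).card = A.card := by
  have h1 : ∀ s', (A.filter fun u => r u = s').card = (A.filter fun u => r u = s).card := by
    intro s'
    obtain ⟨g, hg1, hg2⟩ := h (s - s')
    refine card_bij (fun u _ => g * u) ?_ (fun u _ v _ huv => mul_left_cancel huv) ?_
    · intro u hu
      rw [mem_filter] at hu ⊢
      refine ⟨(hg1 u).1 hu.1, ?_⟩
      rw [hg2 u hu.1, hu.2, sub_add_cancel]
    · intro v hv
      rw [mem_filter] at hv
      have h2 : g⁻¹ * v ∈ A := by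
        rw [hg1, mul_inv_cancel_left]
        exact hv.1
      refine ⟨g⁻¹ * v, ?_, mul_inv_cancel_left g v⟩
      rw [mem_filter]
      refine ⟨h2, ?_⟩
      have h3 := hg2 _ h2
      rw [mul_inv_cancel_left, hv.2] at h3
      have h4 : s - s' + s' = s - s' + r (g⁻¹ * v) := by
        rw [sub_add_cancel]
        exact h3
      exact (add_left_cancel h4).symm
  have h2 : A.card = ∑ s' : S, (A.filter fun u => r u = s').card := card_eq_sum_card_fiberwise (fun u _ => mem_univ (r u))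
  rw [h2, sum_congr rfl fun s' _ => h1 s', sum_const, card_univ, smul_eq_mul]

/-- units with given residues -/
theorem exists_unit {m : ℕ} (s : Fin m → ℕ) (hs : ∀ i, s i ≠ 0) (hc : Pairwise (Function.onFun Nat.Coprime s))
    (x : ∀ i, (ZMod (s i))ˣ) {N : ℕ} (hN : N = ∏ i, s i) :
    ∃ g : (ZMod N)ˣ, ∀ i (h : s i ∣ N), ZMod.unitsMap h g = x i := by
  have hne : ∀ i, NeZero (s i) := fun i => ⟨hs i⟩
  obtain ⟨n, hn⟩ := Nat.chineseRemainderOfFinset (fun i => ((x i : ZMod (s i))).val) s univ (fun i _ => hs i)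
    (fun i _ j _ hij => hc hij)
  have hn' : ∀ i, ((n : ℕ) : ZMod (s i)) = (x i : ZMod (s i)) := by
    intro i
    have h1 := (ZMod.natCast_eq_natCast_iff _ _ _).2 (hn i (mem_univ i))
    rw [h1, ZMod.natCast_zmod_val]
  have hcop : n.Coprime N := by
    rw [hN]
    refine Nat.Coprime.prod_right fun i _ => ?_
    rw [← ZMod.isUnit_iff_coprime, hn' i]
    exact (x i).isUnit
  refine ⟨ZMod.unitOfCoprime n hcop, fun i h => ?_⟩
  apply Units.ext
  rw [ZMod.unitsMap_val, ZMod.coe_unitOfCoprime, ZMod.cast_natCast h, hn' i]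

/-- passing from classes to all primes -/
theorem transfer {δ ε C P G : ℝ} (hδ : δ ≤ 1) (hG : 0 ≤ G) (hP0 : 0 ≤ P) (hC : (δ - ε / 2) * C ≤ G) (hP : P ≤ C + 3)
    (hε : 0 < ε) (hbig : 3 ≤ ε / 2 * P) : (δ - ε) * P ≤ G := by
  rcases le_or_gt (δ - ε / 2) 0 with h | h
  · have : (δ - ε) * P ≤ 0 := mul_nonpos_of_nonpos_of_nonneg (by linarith) hP0
    linarith
  · have h1 : (δ - ε / 2) * P ≤ (δ - ε / 2) * (C + 3) := mul_le_mul_of_nonneg_left hP h.le
    have h2 : (δ - ε / 2) * 3 ≤ 3 := by nlinarith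
    nlinarith

end

end Pool.Agent.Q202.QT
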