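import Pool.Agent.Q202.QT.Trip2

/-!
# Tuples of nilpotent matrices without common eigenvector: normal forms
-/

set_option autoImplicit false

namespace Pool.Agent.Q202.QT

open Matrix Pool.Agent.TH831.OT Pool.Agent.TH831.OE

section
variable {K : Type} [Field K] {ι : Type} [Fintype ι]

abbrev M2 (K : Type) : Type := Matrix (Fin 2) (Fin 2) K

/-- the relations -/
def Rel (u : ι → K) (L : ι → ι → K) (ε : K) (C : M2 K) (T : ι → M2 K) (l : ι) : Prop :=
  (u l • C + ∑ j, L l j • T j) * T l - T l * (u l • C + ∑ j, L l j • T j) = (ε * u l) • T l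

/-- the condition on the levels, indexed version -/
def NTi (u : ι → K) (L : ι → ι → K) (b : ι → K) (ε : K) : Prop :=
  ∀ (C : M2 K) (T : ι → M2 K), C.trace = 0 → (∀ l, T l * T l = 0) → (∀ l, Rel u L ε C T l) →
    (∃ v : Fin 2 → K, v ≠ 0 ∧ wed (C *ᵥ v) v = 0 ∧ wed ((∑ j, b j • T j) *ᵥ v) v = 0) →
    ∃ w : Fin 2 → K, w ≠ 0 ∧ wed (C *ᵥ w) w = 0 ∧ ∀ l, T l *ᵥ w = 0

/-- the condition on pairs of characters, indexed version -/
def NPi (u : ι → K) (L : ι → ι → K) (b : ι → K) : Prop :=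
  ∀ (xp yp : K) (x y : ι → K), (∀ l, x l * y l = 0) → (∀ l, x l * (u l * yp + ∑ j, L l j * y j) = 0) →
    (∀ l, y l * (u l * xp + ∑ j, L l j * x j) = 0) →
    ((xp = 0 ∧ ∑ j, b j * x j = 0) ∨ (yp = 0 ∧ ∑ j, b j * y j = 0)) →
    (xp = 0 ∧ ∀ l, x l = 0) ∨ (yp = 0 ∧ ∀ l, y l = 0)

theorem nti_of_traces {u : ι → K} {L : ι → ι → K} {ε : K} (hu : ∀ l, u l ≠ 0)
    {C : M2 K} {T : ι → M2 K} (hsq : ∀ l, T l * T l = 0) (hrel : ∀ l, Rel u L ε C T l)
    {v : Fin 2 → K} (hv0 : v ≠ 0) (hv1 : wed (C *ᵥ v) v = 0) (htr : ∀ l j, (T l * T j).trace = 0) :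
    ∃ w : Fin 2 → K, w ≠ 0 ∧ wed (C *ᵥ w) w = 0 ∧ ∀ l, T l *ᵥ w = 0 := by
  by_cases hT : ∀ l, T l = 0
  · exact ⟨v, hv0, hv1, fun l => by rw [hT l, Matrix.zero_mulVec]⟩
  push Not at hT
  obtain ⟨k, hTk⟩ := hT
  obtain ⟨w, hw0, hTkw, hker, hw'⟩ := nil_kernel (hsq k) hTk
  have hall : ∀ l, T l *ᵥ w = 0 := fun l => hw' _ (hsq l) (htr k l)
  refine ⟨w, hw0, hker _ ?_, hall⟩
  have h0 : (u k • C + ∑ j, L k j • T j) *ᵥ w = u k • (C *ᵥ w) := by
    rw [Matrix.add_mulVec, Matrix.smul_mulVec, Matrix.sum_mulVec, Finset.sum_eq_zero, add_zero]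
    intro j _
    rw [Matrix.smul_mulVec, hall j, smul_zero]
  have h1 := congrArg (fun M => M *ᵥ w) (hrel k)
  simp only [Matrix.sub_mulVec, ← Matrix.mulVec_mulVec, h0, hTkw, Matrix.mulVec_zero, Matrix.smul_mulVec, smul_zero, zero_sub,
    Matrix.mulVec_smul] at h1
  exact (smul_eq_zero.1 (neg_eq_zero.1 h1)).resolve_left (hu k)

/-- conjugation by `P`, with inverse `Q` -/
def cj (P Q M : M2 K) : M2 K := Q * M * P

theorem cj_mul {P Q : M2 K} (h : P * Q = 1) (M N : M2 K) : cj P Q M * cj P Q N = cj P Q (M * N) := by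
  unfold cj
  calc Q * M * P * (Q * N * P) = Q * M * (P * Q) * N * P := by simp only [mul_assoc]
    _ = Q * (M * N) * P := by rw [h, mul_one]; simp only [mul_assoc]

theorem cj_add (P Q M N : M2 K) : cj P Q (M + N) = cj P Q M + cj P Q N := by
  unfold cj
  rw [mul_add, add_mul]

theorem cj_sub (P Q M N : M2 K) : cj P Q (M - N) = cj P Q M - cj P Q N := by
  unfold cj
  rw [mul_sub, sub_mul]

theorem cj_smul (P Q : M2 K) (c : K) (M : M2 K) : cj P Q (c • M) = c • cj P Q M := by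
  unfold cj
  rw [Matrix.mul_smul, Matrix.smul_mul]

theorem cj_sum (P Q : M2 K) (f : ι → M2 K) : cj P Q (∑ j, f j) = ∑ j, cj P Q (f j) := by
  unfold cj
  rw [Finset.mul_sum, Finset.sum_mul]

theorem cj_zero (P Q : M2 K) : cj P Q 0 = 0 := by
  unfold cj
  rw [mul_zero, zero_mul]

theorem cj_trace {P Q : M2 K} (h : P * Q = 1) (M : M2 K) : (cj P Q M).trace = M.trace := by
  unfold cj
  rw [Matrix.trace_mul_comm, ← mul_assoc, h, one_mul]

theorem cj_ne {P Q : M2 K} (h : P * Q = 1) {M : M2 K} (hM : M ≠ 0) : cj P Q M ≠ 0 := by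
  intro h0
  apply hM
  have h1 : P * cj P Q M * Q = M := by
    unfold cj
    calc P * (Q * M * P) * Q = (P * Q) * M * (P * Q) := by simp only [mul_assoc]
      _ = M := by rw [h, one_mul, mul_one]
  rw [← h1, h0, mul_zero, zero_mul]

theorem cj_mulVec {P Q : M2 K} (h : P * Q = 1) (M : M2 K) (v : Fin 2 → K) : cj P Q M *ᵥ (Q *ᵥ v) = Q *ᵥ (M *ᵥ v) := by
  unfold cj
  rw [Matrix.mulVec_mulVec, Matrix.mulVec_mulVec, mul_assoc (Q * M), h, mul_one]

theorem cj_wed {P Q : M2 K} (h : P * Q = 1) {M : M2 K} {v : Fin 2 → K} (hM : wed (M *ᵥ v) v = 0) :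
    wed (cj P Q M *ᵥ (Q *ᵥ v)) (Q *ᵥ v) = 0 := by
  rw [cj_mulVec h, wed_mulVec, hM, mul_zero]

theorem cj_rel {P Q : M2 K} (h : P * Q = 1) {u : ι → K} {L : ι → ι → K} {ε : K} {C : M2 K} {T : ι → M2 K} {l : ι}
    (hr : Rel u L ε C T l) : Rel u L ε (cj P Q C) (fun j => cj P Q (T j)) l := by
  unfold Rel at hr ⊢
  have h1 : u l • cj P Q C + ∑ j, L l j • cj P Q (T j) = cj P Q (u l • C + ∑ j, L l j • T j) := by
    rw [cj_add, cj_smul, cj_sum]
    congr 1
    exact Finset.sum_congr rfl fun j _ => (cj_smul _ _ _ _).symm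
  rw [h1, cj_mul h, cj_mul h, ← cj_sub, hr, cj_smul]

/-- the change of basis to `x w`, `y w'` -/
theorem exists_basis {w w' : Fin 2 → K} (hw : wed w w' ≠ 0) (z : Fin 2 → K) :
    ∃ x y : K, z = x • w + y • w' := by
  refine ⟨wed z w' / wed w w', wed w z / wed w w', ?_⟩
  have key : ∀ i, wed w w' * z i = wed z w' * w i + wed w z * w' i := by
    intro i
    unfold wed
    fin_cases i
    · show (w 0 * w' 1 - w 1 * w' 0) * z 0 = (z 0 * w' 1 - z 1 * w' 0) * w 0 + (w 0 * z 1 - w 1 * z 0) * w' 0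
      ring
    · show (w 0 * w' 1 - w 1 * w' 0) * z 1 = (z 0 * w' 1 - z 1 * w' 0) * w 1 + (w 0 * z 1 - w 1 * z 0) * w' 1
      ring
  funext i
  rw [Pi.add_apply, Pi.smul_apply, Pi.smul_apply, smul_eq_mul, smul_eq_mul, div_mul_eq_mul_div, div_mul_eq_mul_div,
    ← add_div, eq_div_iff hw, ← key i, mul_comm]

theorem exists_conj {w w' : Fin 2 → K} (hw : wed w w' ≠ 0) {x y : K} (hx : x ≠ 0) (hy : y ≠ 0) :
    ∃ P Q : M2 K, P * Q = 1 ∧ Q * P = 1 ∧ Q *ᵥ (x • w) = ![1, 0] ∧ Q *ᵥ (y • w') = ![0, 1] := by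
  set P : M2 K := !![x * w 0, y * w' 0; x * w 1, y * w' 1] with hP
  have hdet : P.det = x * y * wed w w' := by
    rw [hP, Matrix.det_fin_two_of, wed]
    ring
  have hd : IsUnit P.det := by
    rw [hdet]
    exact (mul_ne_zero (mul_ne_zero hx hy) hw).isUnit
  refine ⟨P, P⁻¹, Matrix.mul_nonsing_inv _ hd, Matrix.nonsing_inv_mul _ hd, ?_, ?_⟩
  · have h1 : P *ᵥ ![1, 0] = x • w := by
      funext i
      fin_cases i <;> simp [hP, Matrix.mulVec, dotProduct, Fin.sum_univ_two]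
    rw [← h1, Matrix.mulVec_mulVec, Matrix.nonsing_inv_mul _ hd, Matrix.one_mulVec]
  · have h1 : P *ᵥ ![0, 1] = y • w' := by
      funext i
      fin_cases i <;> simp [hP, Matrix.mulVec, dotProduct, Fin.sum_univ_two]
    rw [← h1, Matrix.mulVec_mulVec, Matrix.nonsing_inv_mul _ hd, Matrix.one_mulVec]

/-- `Good` tuple data without common eigenvector, three lines -/
def W3 (u : ι → K) (L : ι → ι → K) (b : ι → K) (ε : K) : Prop :=
  ∃ (i1 i2 i3 : ι) (C : M2 K) (T : ι → M2 K) (v : Fin 2 → K), i1 ≠ i2 ∧ i1 ≠ i3 ∧ i2 ≠ i3 ∧ C.trace = 0 ∧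
    (∀ l, T l * T l = 0) ∧ T i1 ≠ 0 ∧ T i1 *ᵥ ![1, 0] = 0 ∧ T i2 ≠ 0 ∧ T i2 *ᵥ ![0, 1] = 0 ∧ T i3 ≠ 0 ∧
    T i3 *ᵥ ![1, 1] = 0 ∧ (∀ l, Rel u L ε C T l) ∧ v ≠ 0 ∧ wed (C *ᵥ v) v = 0 ∧ wed ((∑ j, b j • T j) *ᵥ v) v = 0

/-- two lines: pairs of characters -/
def PW (u : ι → K) (L : ι → ι → K) (b : ι → K) : Prop :=
  ∃ (i1 i2 : ι) (xp yp : K) (x y : ι → K), i1 ≠ i2 ∧ x i1 = 1 ∧ y i2 ≠ 0 ∧ (∀ l, x l = 0 ∨ y l = 0) ∧
    (∀ l, x l ≠ 0 → u l * yp + ∑ j, L l j * y j = 0) ∧ (∀ l, y l ≠ 0 → u l * xp + ∑ j, L l j * x j = 0) ∧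
    ((xp = 0 ∧ ∑ j, b j * x j = 0) ∨ (yp = 0 ∧ ∑ j, b j * y j = 0) ∨ (xp = yp ∧ ∑ j, b j * (x j - y j) = 0))

theorem tr_of_ker {X Y : M2 K} {w : Fin 2 → K} (hw : w ≠ 0) (hX : X * X = 0) (hY : Y * Y = 0) (h1 : X *ᵥ w = 0)
    (h2 : Y *ᵥ w = 0) : (X * Y).trace = 0 :=
  trace_mul_zero hw (by rw [h1]; simp [wed]) h2 (trace_zero_of_sq hX) (trace_zero_of_sq hY)

theorem ker_ne {X Y : M2 K} {w w' : Fin 2 → K} (hw : w ≠ 0) (hw' : w' ≠ 0) (hX : X * X = 0) (hY : Y * Y = 0)
    (h1 : X *ᵥ w = 0) (h2 : Y *ᵥ w' = 0) (h : (X * Y).trace ≠ 0) : wed w w' ≠ 0 := by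
  intro h3
  apply h
  obtain ⟨c, hc⟩ := eig_of_wed hw' h3
  refine tr_of_ker hw hX hY h1 ?_
  rw [hc, Matrix.mulVec_smul, h2, smul_zero]

theorem pw_scale {u : ι → K} {L : ι → ι → K} {b : ι → K} {i1 i2 : ι} {xp yp : K} {x y : ι → K} (h12 : i1 ≠ i2)
    (hx : x i1 ≠ 0) (hy : y i2 ≠ 0) (hxy : ∀ l, x l = 0 ∨ y l = 0)
    (h1 : ∀ l, x l ≠ 0 → u l * yp + ∑ j, L l j * y j = 0) (h2 : ∀ l, y l ≠ 0 → u l * xp + ∑ j, L l j * x j = 0)
    (h3 : (xp = 0 ∧ ∑ j, b j * x j = 0) ∨ (yp = 0 ∧ ∑ j, b j * y j = 0) ∨ (xp = yp ∧ ∑ j, b j * (x j - y j) = 0)) :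
    PW u L b := by
  set s := (x i1)⁻¹ with hs
  have hs0 : s ≠ 0 := inv_ne_zero hx
  have hsum : ∀ (f g : ι → K), ∑ j, f j * (s * g j) = s * ∑ j, f j * g j := by
    intro f g
    rw [Finset.mul_sum]
    exact Finset.sum_congr rfl fun j _ => by ring
  refine ⟨i1, i2, s * xp, s * yp, fun l => s * x l, fun l => s * y l, h12, inv_mul_cancel₀ hx, mul_ne_zero hs0 hy, ?_, ?_, ?_, ?_⟩
  · intro l
    rcases hxy l with h | h
    · left
      simp only [h, mul_zero]
    · right
      simp only [h, mul_zero]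
  · intro l hl
    have := h1 l fun h => hl (by simp only [h, mul_zero])
    rw [hsum]
    linear_combination s * this
  · intro l hl
    have := h2 l fun h => hl (by simp only [h, mul_zero])
    rw [hsum]
    linear_combination s * this
  · rcases h3 with ⟨e1, e2⟩ | ⟨e1, e2⟩ | ⟨e1, e2⟩
    · left
      refine ⟨by rw [e1, mul_zero], ?_⟩
      rw [hsum, e2, mul_zero]
    · right; left
      refine ⟨by rw [e1, mul_zero], ?_⟩
      rw [hsum, e2, mul_zero]
    · right; right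
      refine ⟨by rw [e1], ?_⟩
      have : ∑ j, b j * (s * x j - s * y j) = s * ∑ j, b j * (x j - y j) := by
        rw [Finset.mul_sum]
        exact Finset.sum_congr rfl fun j _ => by ring
      rw [this, e2, mul_zero]

theorem np_witness {u : ι → K} {L : ι → ι → K} {b : ι → K} (hu : ∀ l, u l ≠ 0) (h : ¬ NPi u L b) : PW u L b := by
  unfold NPi at h
  push Not at h
  obtain ⟨xp, yp, x, y, hxy, h1, h2, h3, h4, h5⟩ := h
  have hxy' : ∀ l, x l = 0 ∨ y l = 0 := fun l => mul_eq_zero.1 (hxy l)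
  have h1' : ∀ l, x l ≠ 0 → u l * yp + ∑ j, L l j * y j = 0 := fun l hl => (mul_eq_zero.1 (h1 l)).resolve_left hl
  have h2' : ∀ l, y l ≠ 0 → u l * xp + ∑ j, L l j * x j = 0 := fun l hl => (mul_eq_zero.1 (h2 l)).resolve_left hl
  -- neither `x` nor `y` vanishes
  have hx : ∃ i, x i ≠ 0 := by
    by_contra hcon
    push Not at hcon
    have hxp : xp ≠ 0 := by
      intro h0
      obtain ⟨l, hl⟩ := h4 h0
      exact hl (hcon l)
    rcases h3 with ⟨e1, e2⟩ | ⟨e1, e2⟩
    · exact hxp e1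
    · obtain ⟨j, hj⟩ := h5 e1
      have := h2' j hj
      rw [Finset.sum_eq_zero (fun i _ => by rw [hcon i, mul_zero]), add_zero] at this
      exact (mul_ne_zero (hu j) hxp) this
  have hy : ∃ i, y i ≠ 0 := by
    by_contra hcon
    push Not at hcon
    have hyp : yp ≠ 0 := by
      intro h0
      obtain ⟨l, hl⟩ := h5 h0
      exact hl (hcon l)
    obtain ⟨j, hj⟩ := hx
    have := h1' j hj
    rw [Finset.sum_eq_zero (fun i _ => by rw [hcon i, mul_zero]), add_zero] at this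
    exact (mul_ne_zero (hu j) hyp) this
  obtain ⟨i1, hi1⟩ := hx
  obtain ⟨i2, hi2⟩ := hy
  refine pw_scale (i1 := i1) (i2 := i2) ?_ hi1 hi2 hxy' h1' h2' ?_
  · rintro rfl
    rcases hxy' i1 with h | h
    · exact hi1 h
    · exact hi2 h
  · rcases h3 with h | h
    · exact Or.inl h
    · exact Or.inr (Or.inl h)

/-- matrices with kernel `e1` or `e2` -/
theorem shape_of_ker {M : M2 K} (hM : M * M = 0) (h : M *ᵥ ![1, 0] = 0 ∨ M *ᵥ ![0, 1] = 0) :
    M 0 0 = 0 ∧ M 1 1 = 0 ∧ (M 0 1 = 0 ∨ M 1 0 = 0) := by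
  have ht := tz (trace_zero_of_sq hM)
  rcases h with h | h
  · have e0 := congrFun h 0
    have e1 := congrFun h 1
    simp only [Matrix.mulVec, dotProduct, Fin.sum_univ_two, Matrix.cons_val_zero, Matrix.cons_val_one, mul_one, mul_zero, add_zero,
      Pi.zero_apply] at e0 e1
    exact ⟨e0, by rw [ht, e0, neg_zero], Or.inr e1⟩
  · have e0 := congrFun h 0
    have e1 := congrFun h 1
    simp only [Matrix.mulVec, dotProduct, Fin.sum_univ_two, Matrix.cons_val_zero, Matrix.cons_val_one, mul_one, mul_zero, zero_add,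
      Pi.zero_apply] at e0 e1
    refine ⟨?_, e1, Or.inl e0⟩
    rw [e1] at ht
    exact neg_eq_zero.1 ht.symm

theorem nt_witness (two : (2 : K) ≠ 0) {u : ι → K} {L : ι → ι → K} {b : ι → K} {ε : K} (hu : ∀ l, u l ≠ 0)
    (h : ¬ NTi u L b ε) : W3 u L b ε ∨ PW u L b := by
  classical
  unfold NTi at h
  push Not at h
  obtain ⟨C, T, hC, hsq, hrel, ⟨v, hv0, hv1, hv2⟩, hno⟩ := h
  have hex : ∃ a c, (T a * T c).trace ≠ 0 := by
    by_contra hcon
    push Not at hcon
    obtain ⟨w, hw0, hw1, hw2⟩ := nti_of_traces hu hsq hrel hv0 hv1 hcon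
    obtain ⟨l, hl⟩ := hno w hw0 hw1
    exact hl (hw2 l)
  obtain ⟨a, c, hac⟩ := hex
  have hTa : T a ≠ 0 := by
    intro h
    apply hac
    rw [h, zero_mul, Matrix.trace_zero]
  have hTc : T c ≠ 0 := by
    intro h
    apply hac
    rw [h, mul_zero, Matrix.trace_zero]
  have hne : a ≠ c := by
    rintro rfl
    exact hac (by rw [hsq a, Matrix.trace_zero])
  obtain ⟨wa, hwa0, hTwa, -, hwa⟩ := nil_kernel (hsq a) hTa
  obtain ⟨wc, hwc0, hTwc, -, hwc⟩ := nil_kernel (hsq c) hTc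
  have hw : wed wa wc ≠ 0 := ker_ne hwa0 hwc0 (hsq a) (hsq c) hTwa hTwc hac
  have hQz : ∀ {P Q : M2 K}, P * Q = 1 → ∀ {z : Fin 2 → K}, z ≠ 0 → Q *ᵥ z ≠ 0 := by
    intro P Q hPQ z hz h0
    apply hz
    have := congrArg (fun x => P *ᵥ x) h0
    rwa [Matrix.mulVec_mulVec, hPQ, Matrix.one_mulVec, Matrix.mulVec_zero] at this
  by_cases hthird : ∃ d, (T a * T d).trace ≠ 0 ∧ (T c * T d).trace ≠ 0
  · left
    obtain ⟨d, h1, h2⟩ := hthird
    have hTd : T d ≠ 0 := by
      intro h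
      apply h1
      rw [h, mul_zero, Matrix.trace_zero]
    obtain ⟨wd, hwd0, hTwd, -, -⟩ := nil_kernel (hsq d) hTd
    obtain ⟨x, y, hxy⟩ := exists_basis hw wd
    have hx : x ≠ 0 := by
      rintro rfl
      rw [zero_smul, zero_add] at hxy
      have hy0 : y ≠ 0 := by
        rintro rfl
        exact hwd0 (by rw [hxy, zero_smul])
      have h3 : T d *ᵥ wc = 0 := by
        rw [hxy, Matrix.mulVec_smul] at hTwd
        exact (smul_eq_zero.1 hTwd).resolve_left hy0
      exact h2 (tr_of_ker hwc0 (hsq c) (hsq d) hTwc h3)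
    have hy : y ≠ 0 := by
      rintro rfl
      rw [zero_smul, add_zero] at hxy
      have h3 : T d *ᵥ wa = 0 := by
        rw [hxy, Matrix.mulVec_smul] at hTwd
        exact (smul_eq_zero.1 hTwd).resolve_left hx
      exact h1 (tr_of_ker hwa0 (hsq a) (hsq d) hTwa h3)
    obtain ⟨P, Q, hPQ, -, hQ1, hQ2⟩ := exists_conj hw hx hy
    have hQ3 : Q *ᵥ wd = ![1, 1] := by
      rw [hxy, Matrix.mulVec_add, hQ1, hQ2]
      funext i
      fin_cases i <;> simp
    refine ⟨a, c, d, cj P Q C, fun l => cj P Q (T l), Q *ᵥ v, hne, ?_, ?_, ?_, ?_, cj_ne hPQ hTa, ?_, cj_ne hPQ hTc, ?_,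
      cj_ne hPQ hTd, ?_, fun l => cj_rel hPQ (hrel l), hQz hPQ hv0, cj_wed hPQ hv1, ?_⟩
    · rintro rfl
      exact h1 (by rw [hsq a, Matrix.trace_zero])
    · rintro rfl
      exact h2 (by rw [hsq c, Matrix.trace_zero])
    · rw [cj_trace hPQ, hC]
    · intro l
      rw [cj_mul hPQ, hsq l, cj_zero]
    · rw [← hQ1, cj_mulVec hPQ, Matrix.mulVec_smul, hTwa, smul_zero, Matrix.mulVec_zero]
    · rw [← hQ2, cj_mulVec hPQ, Matrix.mulVec_smul, hTwc, smul_zero, Matrix.mulVec_zero]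
    · rw [← hQ3, cj_mulVec hPQ, hTwd, Matrix.mulVec_zero]
    · have : ∑ j, b j • cj P Q (T j) = cj P Q (∑ j, b j • T j) := by
        rw [cj_sum]
        exact Finset.sum_congr rfl fun j _ => (cj_smul _ _ _ _).symm
      rw [this]
      exact cj_wed hPQ hv2
  · right
    push Not at hthird
    obtain ⟨x, y, hxy⟩ := exists_basis hw v
    set x' : K := if x = 0 then 1 else x with hx'
    set y' : K := if y = 0 then 1 else y with hy'
    have hx0 : x' ≠ 0 := by
      rw [hx']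
      split_ifs with h
      · exact one_ne_zero
      · exact h
    have hy0 : y' ≠ 0 := by
      rw [hy']
      split_ifs with h
      · exact one_ne_zero
      · exact h
    obtain ⟨P, Q, hPQ, -, hQ1, hQ2⟩ := exists_conj hw hx0 hy0
    set T' : ι → M2 K := fun l => cj P Q (T l) with hT'
    set C' : M2 K := cj P Q C with hC'
    have hsq' : ∀ l, T' l * T' l = 0 := fun l => by rw [hT', cj_mul hPQ, hsq l, cj_zero]
    have hker : ∀ l, T' l *ᵥ ![1, 0] = 0 ∨ T' l *ᵥ ![0, 1] = 0 := by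
      intro l
      by_cases h1 : (T a * T l).trace = 0
      · left
        rw [← hQ1, hT', cj_mulVec hPQ, Matrix.mulVec_smul, hwa _ (hsq l) h1, smul_zero, Matrix.mulVec_zero]
      · right
        rw [← hQ2, hT', cj_mulVec hPQ, Matrix.mulVec_smul, hwc _ (hsq l) (hthird l h1), smul_zero, Matrix.mulVec_zero]
    have hsh := fun l => shape_of_ker (hsq' l) (hker l)
    have hCt := tz (show C'.trace = 0 by rw [hC', cj_trace hPQ, hC])
    have hrel' : ∀ l, Rel u L ε C' T' l := fun l => cj_rel hPQ (hrel l)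
    -- the entries of `M = u C + sum`
    have hM : ∀ l i j, (u l • C' + ∑ k, L l k • T' k) i j = u l * C' i j + ∑ k, L l k * T' k i j := by
      intro l i j
      rw [Matrix.add_apply, Matrix.smul_apply, Matrix.sum_apply, smul_eq_mul]
      rfl
    have hz : ∀ l i, ∑ k, L l k * T' k i i = 0 := by
      intro l i
      refine Finset.sum_eq_zero fun k _ => ?_
      have : T' k i i = 0 := by
        fin_cases i
        · exact (hsh k).1
        · exact (hsh k).2.1
      rw [this, mul_zero]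
    have ha1 : T' a *ᵥ ![1, 0] = 0 := by
      rw [← hQ1, hT', cj_mulVec hPQ, Matrix.mulVec_smul, hTwa, smul_zero, Matrix.mulVec_zero]
    have hc1 : T' c *ᵥ ![0, 1] = 0 := by
      rw [← hQ2, hT', cj_mulVec hPQ, Matrix.mulVec_smul, hTwc, smul_zero, Matrix.mulVec_zero]
    have ea : T' a 1 0 = 0 := by
      have e1 := congrFun ha1 1
      simpa [Matrix.mulVec, dotProduct, Fin.sum_univ_two] using e1
    have ec : T' c 0 1 = 0 := by
      have e1 := congrFun hc1 0
      simpa [Matrix.mulVec, dotProduct, Fin.sum_univ_two] using e1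
    have hxa : T' a 0 1 ≠ 0 := by
      intro h0
      apply cj_ne hPQ hTa
      ext i j
      fin_cases i <;> fin_cases j
      · exact (hsh a).1
      · exact h0
      · exact ea
      · exact (hsh a).2.1
    have hyc : T' c 1 0 ≠ 0 := by
      intro h0
      apply cj_ne hPQ hTc
      ext i j
      fin_cases i <;> fin_cases j
      · exact (hsh c).1
      · exact ec
      · exact h0
      · exact (hsh c).2.1
    -- the relations in coordinates
    have r00 : ∀ l, (u l * C' 0 1 + ∑ k, L l k * T' k 0 1) * T' l 1 0 = T' l 0 1 * (u l * C' 1 0 + ∑ k, L l k * T' k 1 0) := by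
      intro l
      have h1 := congrFun (congrFun (hrel' l) 0) 0
      rw [Matrix.sub_apply, Matrix.mul_apply, Matrix.mul_apply, Fin.sum_univ_two, Fin.sum_univ_two, Matrix.smul_apply, hM, hM, hM,
        (hsh l).1] at h1
      linear_combination h1
    have r01 : ∀ l, T' l 0 1 * (2 * u l * C' 0 0) = ε * u l * T' l 0 1 := by
      intro l
      have h1 := congrFun (congrFun (hrel' l) 0) 1
      rw [Matrix.sub_apply, Matrix.mul_apply, Matrix.mul_apply, Fin.sum_univ_two, Fin.sum_univ_two, Matrix.smul_apply, hM, hM, hM,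
        (hsh l).1, (hsh l).2.1, hz, hz, hCt] at h1
      rw [smul_eq_mul] at h1
      linear_combination h1
    have r10 : ∀ l, T' l 1 0 * (-(2 * u l * C' 0 0)) = ε * u l * T' l 1 0 := by
      intro l
      have h1 := congrFun (congrFun (hrel' l) 1) 0
      rw [Matrix.sub_apply, Matrix.mul_apply, Matrix.mul_apply, Fin.sum_univ_two, Fin.sum_univ_two, Matrix.smul_apply, hM, hM, hM,
        (hsh l).1, (hsh l).2.1, hz, hz, hCt] at h1
      rw [smul_eq_mul] at h1
      linear_combination h1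
    have c00 : C' 0 0 = 0 := by
      have h1 : 2 * C' 0 0 = ε := by
        have := r01 a
        have h2 : (T' a 0 1 * u a) * (2 * C' 0 0) = (T' a 0 1 * u a) * ε := by linear_combination this
        exact mul_left_cancel₀ (mul_ne_zero hxa (hu a)) h2
      have h3 : -(2 * C' 0 0) = ε := by
        have := r10 c
        have h2 : (T' c 1 0 * u c) * (-(2 * C' 0 0)) = (T' c 1 0 * u c) * ε := by linear_combination this
        exact mul_left_cancel₀ (mul_ne_zero hyc (hu c)) h2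
      have h4 : 2 * (2 * C' 0 0) = 0 := by linear_combination h1 - h3
      rcases mul_eq_zero.1 h4 with h | h
      · exact absurd h two
      · exact (mul_eq_zero.1 h).resolve_left two
    have c11 : C' 1 1 = 0 := by rw [hCt, c00, neg_zero]
    refine pw_scale (x := fun l => T' l 0 1) (y := fun l => T' l 1 0) (xp := C' 0 1) (yp := C' 1 0) hne hxa hyc
      (fun l => (hsh l).2.2) ?_ ?_ ?_
    · intro l hl
      have hy1 : T' l 1 0 = 0 := (hsh l).2.2.resolve_left hl
      have := r00 l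
      rw [hy1, mul_zero] at this
      exact (mul_eq_zero.1 this.symm).resolve_left hl
    · intro l hl
      have hx1 : T' l 0 1 = 0 := (hsh l).2.2.resolve_right hl
      have := r00 l
      rw [hx1, zero_mul] at this
      exact (mul_eq_zero.1 this).resolve_right hl
    · have w1 : wed (C' *ᵥ (Q *ᵥ v)) (Q *ᵥ v) = 0 := cj_wed hPQ hv1
      have w2 : wed ((∑ j, b j • T' j) *ᵥ (Q *ᵥ v)) (Q *ᵥ v) = 0 := by
        have : ∑ j, b j • T' j = cj P Q (∑ j, b j • T j) := by
          rw [cj_sum]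
          exact Finset.sum_congr rfl fun j _ => (cj_smul _ _ _ _).symm
        rw [this]
        exact cj_wed hPQ hv2
      have hB : ∀ i j, (∑ k, b k • T' k) i j = ∑ k, b k * T' k i j := by
        intro i j
        rw [Matrix.sum_apply]
        rfl
      have hBz : ∀ i, ∑ k, b k * T' k i i = 0 := by
        intro i
        refine Finset.sum_eq_zero fun k _ => ?_
        have : T' k i i = 0 := by
          fin_cases i
          · exact (hsh k).1
          · exact (hsh k).2.1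
        rw [this, mul_zero]
      have hQv : Q *ᵥ v = ![if x = 0 then 0 else 1, if y = 0 then 0 else 1] := by
        have e1 : Q *ᵥ (x • wa) = ![if x = 0 then 0 else 1, 0] := by
          by_cases h : x = 0
          · rw [h, zero_smul, Matrix.mulVec_zero]
            funext i
            fin_cases i <;> simp
          · rw [hx', if_neg h] at hQ1
            rw [hQ1, if_neg h]
        have e2 : Q *ᵥ (y • wc) = ![0, if y = 0 then 0 else 1] := by
          by_cases h : y = 0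
          · rw [h, zero_smul, Matrix.mulVec_zero]
            funext i
            fin_cases i <;> simp
          · rw [hy', if_neg h] at hQ2
            rw [hQ2, if_neg h]
        rw [hxy, Matrix.mulVec_add, e1, e2]
        funext i
        fin_cases i <;> simp
      rw [hQv] at w1 w2
      simp only [wed, Matrix.mulVec, dotProduct, Fin.sum_univ_two, Matrix.cons_val_zero, Matrix.cons_val_one, c00, c11, hB, hBz] at w1 w2
      by_cases h1 : x = 0
      · by_cases h2 : y = 0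
        · exfalso
          apply hv0
          rw [hxy, h1, h2, zero_smul, zero_smul, add_zero]
        · left
          rw [if_pos h1, if_neg h2] at w1 w2
          refine ⟨by linear_combination w1, by linear_combination w2⟩
      · by_cases h2 : y = 0
        · right; left
          rw [if_neg h1, if_pos h2] at w1 w2
          refine ⟨by linear_combination -w1, by linear_combination -w2⟩
        · right; right
          rw [if_neg h1, if_neg h2] at w1 w2
          refine ⟨by linear_combination w1, ?_⟩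
          have : ∑ j, b j * (T' j 0 1 - T' j 1 0) = ∑ j, b j * T' j 0 1 - ∑ j, b j * T' j 1 0 := by
            rw [← Finset.sum_sub_distrib]
            exact Finset.sum_congr rfl fun j _ => by ring
          rw [this]
          linear_combination w2

end

end Pool.Agent.Q202.QT
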