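import Pool.Agent.Q202.QT.NtAlg

/-!
# Counting data of tuples with a common solution
-/

set_option autoImplicit false

namespace Pool.Agent.Q202.QT

open Finset

section
variable {F : Type} [Field F] [Fintype F] {n : ℕ}

theorem gen_card {α X : Type} [Fintype X] (g : α → X) (f : α → Fin n → F) (A : Finset (Fin n)) (S : Finset α)
    (h : ∀ r ∈ S, ∀ r' ∈ S, g r = g r' → (∀ j, j ∉ A → f r j = f r' j) → r = r') :
    (S.card : ℝ) ≤ (Fintype.card X : ℝ) * (Fintype.card F : ℝ) ^ n / (Fintype.card F : ℝ) ^ A.card := by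
  classical
  have hq : (0 : ℝ) < Fintype.card F := by exact_mod_cast Fintype.card_pos
  set U : Finset (X × (Fin n → F)) := univ ×ˢ Fintype.piFinset (fun j => if j ∈ A then ({0} : Finset F) else univ) with hUdef
  have hU : U.card * Fintype.card F ^ A.card = Fintype.card X * Fintype.card F ^ n := by
    rw [hUdef, card_product, card_univ, Fintype.card_piFinset, mul_assoc]
    congr 1
    have h1 : ∀ j, (if j ∈ A then ({0} : Finset F) else univ).card = if j ∈ A then 1 else Fintype.card F := by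
      intro j
      split_ifs
      · exact card_singleton _
      · exact card_univ
    rw [prod_congr rfl (fun j _ => h1 j), prod_ite, prod_const_one, one_mul, prod_const, ← pow_add]
    congr 1
    rw [filter_not, filter_mem_eq_inter, univ_inter, card_sdiff_of_subset (subset_univ _), card_univ, Fintype.card_fin]
    have := card_le_univ A
    rw [Fintype.card_fin] at this
    omega
  have hle : S.card ≤ U.card := by
    refine card_le_card_of_injOn (fun r => (g r, fun j => if j ∈ A then 0 else f r j)) ?_ ?_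
    · intro r _
      refine mem_coe.2 (mem_product.2 ⟨mem_univ _, Fintype.mem_piFinset.2 fun j => ?_⟩)
      dsimp only
      split_ifs
      · exact mem_singleton_self _
      · exact mem_univ _
    · intro r hr r' hr' he
      have he' := Prod.mk.inj he
      refine h r hr r' hr' he'.1 fun j hj => ?_
      have := congrFun he'.2 j
      simpa [hj] using this
  rw [le_div_iff₀ (pow_pos hq _)]
  calc (S.card : ℝ) * (Fintype.card F : ℝ) ^ A.card ≤ (U.card : ℝ) * (Fintype.card F : ℝ) ^ A.card :=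
        mul_le_mul_of_nonneg_right (by exact_mod_cast hle) (by positivity)
    _ = _ := by exact_mod_cast hU

theorem prod_bd (I : Finset (Fin n)) {c κ : ℝ} {f : Fin n → ℝ} (h0 : ∀ l, 0 ≤ f l)
    (h : ∀ l, f l ≤ c * if l ∈ I then κ else 1) : ∏ l, f l ≤ c ^ n * κ ^ I.card := by
  classical
  calc ∏ l, f l ≤ ∏ l, (c * if l ∈ I then κ else 1) := prod_le_prod (fun l _ => h0 l) (fun l _ => h l)
    _ = _ := by rw [prod_mul_distrib, prod_const, card_univ, Fintype.card_fin, prod_ite_mem, univ_inter, prod_const]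

theorem union_bound {H α R B : Type} [Fintype H] [Fintype α] (Hs : Finset H) (Bad : Finset ((Fin n → R) × B))
    (ok : H → (Fin n → α) → Prop) (RR : H → (Fin n → α) → Fin n → Finset R) (BB : H → (Fin n → α) → Finset B)
    (hbad : ∀ ω ∈ Bad, ∃ h ∈ Hs, ∃ T, ok h T ∧ (∀ l, ω.1 l ∈ RR h T l) ∧ ω.2 ∈ BB h T)
    (w : H → Fin n → α → ℝ) (hw : ∀ h l a, 0 ≤ w h l a) {β : ℝ} (hβ : 0 ≤ β)
    (hR : ∀ h T, ok h T → ∀ l, ((RR h T l).card : ℝ) ≤ w h l (T l))
    (hB : ∀ h T, ok h T → ((BB h T).card : ℝ) ≤ β) (I : H → Finset (Fin n)) (k : ℕ) (hI : ∀ h ∈ Hs, (I h).card = k)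
    {c κ : ℝ} (hsum : ∀ h ∈ Hs, ∀ l, ∑ a, w h l a ≤ c * if l ∈ I h then κ else 1) (hcκ : 0 ≤ c ^ n * κ ^ k) :
    (Bad.card : ℝ) ≤ (Fintype.card H : ℝ) * (β * (c ^ n * κ ^ k)) := by
  classical
  have hsub : Bad ⊆ ((Hs ×ˢ (univ : Finset (Fin n → α))).filter (fun g : H × (Fin n → α) => ok g.1 g.2)).biUnion
      fun g => (Fintype.piFinset (RR g.1 g.2)) ×ˢ (BB g.1 g.2) := by
    intro ω hω
    obtain ⟨h, hh, T, hok, h1, h2⟩ := hbad ω hω
    refine mem_biUnion.2 ⟨(h, T), mem_filter.2 ⟨mem_product.2 ⟨hh, mem_univ _⟩, hok⟩, ?_⟩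
    exact mem_product.2 ⟨Fintype.mem_piFinset.2 h1, h2⟩
  calc (Bad.card : ℝ) ≤ ∑ g ∈ (Hs ×ˢ (univ : Finset (Fin n → α))).filter (fun g : H × (Fin n → α) => ok g.1 g.2),
        ((Fintype.piFinset (RR g.1 g.2) ×ˢ BB g.1 g.2).card : ℝ) := by
        exact_mod_cast (card_le_card hsub).trans card_biUnion_le
    _ ≤ ∑ g ∈ (Hs ×ˢ (univ : Finset (Fin n → α))).filter (fun g : H × (Fin n → α) => ok g.1 g.2),
        (∏ l, w g.1 l (g.2 l)) * β := by
        refine sum_le_sum fun g hg => ?_
        have hok := (mem_filter.1 hg).2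
        rw [card_product, Fintype.card_piFinset, Nat.cast_mul, Nat.cast_prod]
        refine mul_le_mul (prod_le_prod (fun l _ => Nat.cast_nonneg _) fun l _ => hR _ _ hok l) (hB _ _ hok)
          (Nat.cast_nonneg _) (prod_nonneg fun l _ => hw _ _ _)
    _ ≤ ∑ g ∈ Hs ×ˢ (univ : Finset (Fin n → α)), (∏ l, w g.1 l (g.2 l)) * β :=
        sum_le_sum_of_subset_of_nonneg (filter_subset _ _) fun g _ _ => mul_nonneg (prod_nonneg fun l _ => hw _ _ _) hβ
    _ = ∑ h ∈ Hs, β * ∏ l, ∑ a, w h l a := by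
        rw [sum_product]
        refine sum_congr rfl fun h _ => ?_
        rw [← sum_mul, mul_comm, prod_univ_sum, Fintype.piFinset_univ]
    _ ≤ ∑ h ∈ Hs, β * (c ^ n * κ ^ k) := by
        refine sum_le_sum fun h hh => mul_le_mul_of_nonneg_left ?_ hβ
        rw [← hI h hh]
        exact prod_bd (I h) (fun l => sum_nonneg fun a _ => hw _ _ _) (hsum h hh)
    _ ≤ (Fintype.card H : ℝ) * (β * (c ^ n * κ ^ k)) := by
        rw [sum_const, nsmul_eq_mul]
        exact mul_le_mul_of_nonneg_right (by exact_mod_cast card_le_univ Hs) (mul_nonneg hβ hcκ)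

theorem piv {c : Fin n → F} {a : Fin n} (ha : c a ≠ 0) {x y : Fin n → F} (h : ∀ j, j ≠ a → x j = y j)
    (hs : ∑ j, x j * c j = ∑ j, y j * c j) : x = y := by
  have h1 : ∑ j, (x j - y j) * c j = 0 := by
    simp only [sub_mul, sum_sub_distrib, hs, sub_self]
  rw [sum_eq_single a (fun j _ hj => by rw [h j hj, sub_self, zero_mul]) (fun h => absurd (mem_univ a) h)] at h1
  funext j
  by_cases hj : j = a
  · rw [hj]
    exact sub_eq_zero.1 ((mul_eq_zero.1 h1).resolve_right ha)
  · exact h j hj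

theorem vec_card {c : Fin n → F} {a : Fin n} (ha : c a ≠ 0) (S : Finset (Fin n → F)) (hS : ∀ x ∈ S, ∑ j, x j * c j = 0) :
    (S.card : ℝ) ≤ (Fintype.card F : ℝ) ^ n / Fintype.card F := by
  have := gen_card (F := F) (X := Unit) (fun _ => ()) (fun x : Fin n → F => x) {a} S (fun r hr r' hr' _ h =>
    piv ha (fun j hj => h j (by simpa using hj)) (by rw [hS r hr, hS r' hr']))
  simpa using this

/-- rows with zero diagonal entry -/
theorem row_card0 (l : Fin n) (S : Finset (F × (Fin n → F))) (hS : ∀ r ∈ S, r.2 l = 0) :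
    (S.card : ℝ) ≤ (Fintype.card F : ℝ) ^ n := by
  have hq : (0 : ℝ) < Fintype.card F := by exact_mod_cast Fintype.card_pos
  have := gen_card (F := F) (X := F) Prod.fst Prod.snd {l} S (fun r hr r' hr' h1 h => Prod.ext h1 (by
    funext j
    by_cases hj : j = l
    · rw [hj, hS r hr, hS r' hr']
    · exact h j (by simpa using hj)))
  rwa [card_singleton, pow_one, mul_comm, mul_div_cancel_right₀ _ hq.ne'] at this

theorem row_card1 (l : Fin n) (S : Finset (F × (Fin n → F))) (hS : ∀ r ∈ S, r.2 l = 0) (hS' : ∀ r ∈ S, r.1 = 0) :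
    (S.card : ℝ) ≤ (Fintype.card F : ℝ) ^ n / Fintype.card F := by
  have := gen_card (F := F) (X := Unit) (fun _ => ()) Prod.snd {l} S (fun r hr r' hr' _ h => Prod.ext
    (by rw [hS' r hr, hS' r' hr']) (by
    funext j
    by_cases hj : j = l
    · rw [hj, hS r hr, hS r' hr']
    · exact h j (by simpa using hj)))
  simpa using this

theorem row_card2 (l : Fin n) {c : Fin n → F} {a : Fin n} (ha : c a ≠ 0) (hal : a ≠ l) (z : F)
    (S : Finset (F × (Fin n → F))) (hS : ∀ r ∈ S, r.2 l = 0) (hS' : ∀ r ∈ S, r.1 * z + ∑ j, r.2 j * c j = 0) :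
    (S.card : ℝ) ≤ (Fintype.card F : ℝ) ^ n / Fintype.card F := by
  have hq : (0 : ℝ) < Fintype.card F := by exact_mod_cast Fintype.card_pos
  have := gen_card (F := F) (X := F) Prod.fst Prod.snd {l, a} S (fun r hr r' hr' h1 h => Prod.ext h1 (piv ha (fun j hj => by
    by_cases hjl : j = l
    · rw [hjl, hS r hr, hS r' hr']
    · exact h j (by simp [hjl, hj])) (by
      have e1 := hS' r hr
      have e2 := hS' r' hr'
      rw [← h1] at e2
      linear_combination e1 - e2)))
  rw [card_pair hal.symm] at this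
  refine this.trans (le_of_eq ?_)
  field_simp

theorem row_card3 (l : Fin n) {a b : Fin n} (hab : a ≠ b) (hal : a ≠ l) (hbl : b ≠ l)
    (S : Finset (F × (Fin n → F))) (hS : ∀ r ∈ S, r.2 l = 0)
    (hS' : ∀ r ∈ S, ∀ r' ∈ S, r.1 = r'.1 → (∀ j, j ≠ a → j ≠ b → r.2 j = r'.2 j) → r.2 a = r'.2 a ∧ r.2 b = r'.2 b) :
    (S.card : ℝ) ≤ (Fintype.card F : ℝ) ^ n / (Fintype.card F : ℝ) ^ 2 := by
  have hq : (0 : ℝ) < Fintype.card F := by exact_mod_cast Fintype.card_pos
  have := gen_card (F := F) (X := F) Prod.fst Prod.snd {l, a, b} S (fun r hr r' hr' h1 h => by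
    have h2 : ∀ j, j ≠ a → j ≠ b → r.2 j = r'.2 j := by
      intro j hja hjb
      by_cases hjl : j = l
      · rw [hjl, hS r hr, hS r' hr']
      · exact h j (by simp [hjl, hja, hjb])
    obtain ⟨h3, h4⟩ := hS' r hr r' hr' h1 h2
    refine Prod.ext h1 (funext fun j => ?_)
    by_cases hja : j = a
    · rw [hja, h3]
    · by_cases hjb : j = b
      · rw [hjb, h4]
      · exact h2 j hja hjb)
  have hc : ({l, a, b} : Finset (Fin n)).card = 3 := by
    rw [card_eq_three]
    exact ⟨l, a, b, hal.symm, hbl.symm, hab, rfl⟩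
  rw [hc] at this
  refine this.trans (le_of_eq ?_)
  field_simp

end

end Pool.Agent.Q202.QT
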