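import Pool.Agent.Q202.QT.NtCnt

/-!
# Counting data of tuples with a common solution, II
-/

set_option autoImplicit false

namespace Pool.Agent.Q202.QT

open Finset

section
variable {F : Type} [Field F] [Fintype F] {n : ℕ}

open Classical in
theorem cnt_u (S : Finset ((Fin n → F × (Fin n → F)) × (Fin n → F)))
    (hS : ∀ ω ∈ S, (∀ l, (ω.1 l).2 l = 0) ∧ ∃ i, (ω.1 i).1 = 0) :
    (S.card : ℝ) ≤ (n : ℝ) * ((Fintype.card F : ℝ) ^ n * (((Fintype.card F : ℝ) ^ n) ^ n * (1 / (Fintype.card F : ℝ)) ^ 1)) := by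
  have hq : (0 : ℝ) < Fintype.card F := by exact_mod_cast Fintype.card_pos
  have := union_bound (n := n) (H := Fin n) (α := Unit) univ S (fun _ _ => True)
    (fun i _ l => univ.filter fun r : F × (Fin n → F) => r.2 l = 0 ∧ (l = i → r.1 = 0)) (fun _ _ => univ)
    (by
      intro ω hω
      obtain ⟨h1, i, h2⟩ := hS ω hω
      refine ⟨i, mem_univ _, fun _ => (), trivial, fun l => mem_filter.2 ⟨mem_univ _, h1 l, ?_⟩, mem_univ _⟩
      rintro rfl
      exact h2)
    (fun i l _ => (Fintype.card F : ℝ) ^ n * if l ∈ ({i} : Finset (Fin n)) then 1 / (Fintype.card F : ℝ) else 1)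
    (by intro i l _; split_ifs <;> positivity)
    (β := (Fintype.card F : ℝ) ^ n) (by positivity)
    (by
      intro i T _ l
      by_cases hl : l = i
      · rw [if_pos (mem_singleton.2 hl)]
        have h := row_card1 l (univ.filter fun r : F × (Fin n → F) => r.2 l = 0 ∧ (l = i → r.1 = 0))
          (fun r hr => (mem_filter.1 hr).2.1) (fun r hr => (mem_filter.1 hr).2.2 hl)
        rwa [div_eq_mul_one_div] at h
      · rw [if_neg (fun h => hl (mem_singleton.1 h)), mul_one]
        exact row_card0 l _ (fun r hr => (mem_filter.1 hr).2.1))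
    (by
      intro _ _ _
      rw [card_univ, Fintype.card_fun, Fintype.card_fin, Nat.cast_pow])
    (fun i => {i}) 1 (fun i _ => card_singleton _) (c := (Fintype.card F : ℝ) ^ n) (κ := 1 / (Fintype.card F : ℝ))
    (by
      intro i _ l
      simp) (by positivity)
  rwa [Fintype.card_fin] at this

open Classical in
theorem cnt_pw (S : Finset ((Fin n → F × (Fin n → F)) × (Fin n → F)))
    (hS : ∀ ω ∈ S, (∀ l, (ω.1 l).2 l = 0) ∧ PW (fun l => (ω.1 l).1) (fun l => (ω.1 l).2) ω.2) :
    (S.card : ℝ) ≤ ((Fintype.card (Fin n × Fin n × Fin 3 × F) : ℕ) : ℝ) *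
      ((Fintype.card F : ℝ) ^ n / Fintype.card F * ((3 * (Fintype.card F : ℝ) ^ n) ^ n * (1 / (Fintype.card F : ℝ)) ^ 1)) := by
  have hq : (0 : ℝ) < Fintype.card F := by exact_mod_cast Fintype.card_pos
  set q : ℝ := (Fintype.card F : ℝ) with hqdef
  set XP : Fin n × Fin n × Fin 3 × F → F := fun h => if h.2.2.1 = 0 then 0 else h.2.2.2 with hXP
  set YP : Fin n × Fin n × Fin 3 × F → F := fun h => if h.2.2.1 = 1 then 0 else h.2.2.2 with hYP
  set cc : Fin n × Fin n × Fin 3 × F → (Fin n → F × F) → Fin n → F := fun h T j =>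
    if h.2.2.1 = 0 then (T j).1 else if h.2.2.1 = 1 then (T j).2 else (T j).1 - (T j).2 with hcc
  have := union_bound (n := n) (H := Fin n × Fin n × Fin 3 × F) (α := F × F) univ S
    (fun h T => T h.1 = (1, 0) ∧ (T h.2.1).1 = 0 ∧ (T h.2.1).2 ≠ 0 ∧ ∀ l, (T l).1 = 0 ∨ (T l).2 = 0)
    (fun h T l => univ.filter fun r : F × (Fin n → F) => r.2 l = 0 ∧
      ((T l).1 ≠ 0 → r.1 * YP h + ∑ j, r.2 j * (T j).2 = 0) ∧ ((T l).2 ≠ 0 → r.1 * XP h + ∑ j, r.2 j * (T j).1 = 0))
    (fun h T => univ.filter fun b => ∑ j, b j * cc h T j = 0)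
    (by
      intro ω hω
      obtain ⟨h1, i1, i2, xp, yp, x, y, h12, hx, hy, hxy, r1, r2, hc⟩ := hS ω hω
      rcases hc with ⟨e1, e2⟩ | ⟨e1, e2⟩ | ⟨e1, e2⟩
      · refine ⟨(i1, i2, 0, yp), mem_univ _, fun l => (x l, y l), ⟨Prod.ext hx ((hxy i1).resolve_left (by rw [hx]; exact one_ne_zero)),
          (hxy i2).resolve_right hy, hy, hxy⟩, fun l => mem_filter.2 ⟨mem_univ _, h1 l, ?_, ?_⟩, mem_filter.2 ⟨mem_univ _, ?_⟩⟩
        · intro hl
          simpa [hYP] using r1 l hl
        · intro hl
          simpa [hXP, e1] using r2 l hl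
        · simpa [hcc] using e2
      · refine ⟨(i1, i2, 1, xp), mem_univ _, fun l => (x l, y l), ⟨Prod.ext hx ((hxy i1).resolve_left (by rw [hx]; exact one_ne_zero)),
          (hxy i2).resolve_right hy, hy, hxy⟩, fun l => mem_filter.2 ⟨mem_univ _, h1 l, ?_, ?_⟩, mem_filter.2 ⟨mem_univ _, ?_⟩⟩
        · intro hl
          simpa [hYP, e1] using r1 l hl
        · intro hl
          simpa [hXP] using r2 l hl
        · simpa [hcc] using e2
      · refine ⟨(i1, i2, 2, xp), mem_univ _, fun l => (x l, y l), ⟨Prod.ext hx ((hxy i1).resolve_left (by rw [hx]; exact one_ne_zero)),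
          (hxy i2).resolve_right hy, hy, hxy⟩, fun l => mem_filter.2 ⟨mem_univ _, h1 l, ?_, ?_⟩, mem_filter.2 ⟨mem_univ _, ?_⟩⟩
        · intro hl
          simpa [hYP, e1] using r1 l hl
        · intro hl
          simpa [hXP] using r2 l hl
        · simpa [hcc] using e2)
    (fun h l a => q ^ n * if l = h.1 then (if a = (1, 0) then 1 / q else 0) else if a.1 ≠ 0 ∧ a.2 ≠ 0 then 0
      else if a = 0 then 1 else 1 / q)
    (by intro h l a; split_ifs <;> positivity)
    (β := q ^ n / q) (by positivity)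
    (by
      rintro ⟨i1, i2, cs, z⟩ T ⟨hT1, hT2, hT2', hT⟩ l
      dsimp only at hT1 hT2 hT2' ⊢
      have key : T l ≠ 0 → ((univ.filter fun r : F × (Fin n → F) => r.2 l = 0 ∧
          ((T l).1 ≠ 0 → r.1 * YP (i1, i2, cs, z) + ∑ j, r.2 j * (T j).2 = 0) ∧
          ((T l).2 ≠ 0 → r.1 * XP (i1, i2, cs, z) + ∑ j, r.2 j * (T j).1 = 0)).card : ℝ) ≤ q ^ n * (1 / q) := by
        intro hTl
        rw [← div_eq_mul_one_div]
        by_cases h1 : (T l).1 = 0
        · have h2 : (T l).2 ≠ 0 := fun h2 => hTl (Prod.ext h1 h2)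
          refine row_card2 l (c := fun j => (T j).1) (a := i1) (by rw [hT1]; exact one_ne_zero) ?_ (XP (i1, i2, cs, z)) _
            (fun r hr => (mem_filter.1 hr).2.1) (fun r hr => (mem_filter.1 hr).2.2.2 h2)
          rintro rfl
          exact h2 (by rw [hT1])
        · refine row_card2 l (c := fun j => (T j).2) (a := i2) hT2' ?_ (YP (i1, i2, cs, z)) _
            (fun r hr => (mem_filter.1 hr).2.1) (fun r hr => (mem_filter.1 hr).2.2.1 h1)
          rintro rfl
          exact h1 hT2
      by_cases hl : l = i1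
      · rw [if_pos hl, if_pos (by rw [hl, hT1])]
        exact key (by rw [hl, hT1]; exact fun h => one_ne_zero (congrArg Prod.fst h))
      · rw [if_neg hl, if_neg (fun h => by rcases hT l with h' | h'; exacts [h.1 h', h.2 h'])]
        by_cases h0 : T l = 0
        · rw [if_pos h0, mul_one]
          exact row_card0 l _ (fun r hr => (mem_filter.1 hr).2.1)
        · rw [if_neg h0]
          exact key h0)
    (by
      rintro ⟨i1, i2, cs, z⟩ T ⟨hT1, hT2, hT2', hT⟩
      dsimp only at hT1 hT2 hT2' ⊢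
      by_cases h0 : cs = 0
      · refine vec_card (c := cc (i1, i2, cs, z) T) (a := i1) ?_ _ (fun b hb => (mem_filter.1 hb).2)
        simp [hcc, h0, hT1]
      · by_cases h1 : cs = 1
        · refine vec_card (c := cc (i1, i2, cs, z) T) (a := i2) ?_ _ (fun b hb => (mem_filter.1 hb).2)
          simp [hcc, h1, hT2']
        · refine vec_card (c := cc (i1, i2, cs, z) T) (a := i1) ?_ _ (fun b hb => (mem_filter.1 hb).2)
          simp [hcc, h0, h1, hT1])
    (fun h => {h.1}) 1 (fun i _ => card_singleton _) (c := 3 * q ^ n) (κ := 1 / q)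
    (by
      rintro ⟨i1, i2, cs, z⟩ _ l
      dsimp only
      rw [← mul_sum]
      have hqn : (0 : ℝ) < q ^ n := by positivity
      by_cases hl : l = i1
      · rw [if_pos (mem_singleton.2 hl)]
        simp only [if_pos hl]
        rw [sum_ite_eq' univ ((1 : F), (0 : F)) (fun _ => 1 / q), if_pos (mem_univ _)]
        have : (0 : ℝ) < 1 / q := by positivity
        nlinarith [mul_pos hqn this]
      · rw [if_neg (fun h => hl (mem_singleton.1 h)), mul_one]
        simp only [if_neg hl]
        rw [mul_comm (3 : ℝ)]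
        refine mul_le_mul_of_nonneg_left ?_ hqn.le
        have h1 : ∀ a : F × F, (if a.1 ≠ 0 ∧ a.2 ≠ 0 then (0 : ℝ) else if a = 0 then 1 else 1 / q) ≤
            (if a = 0 then 1 else 0) + ((if a.2 = 0 then 1 / q else 0) + (if a.1 = 0 then 1 / q else 0)) := by
          intro a
          have : (0 : ℝ) < 1 / q := by positivity
          by_cases h1 : a.1 = 0 <;> by_cases h2 : a.2 = 0
          · have : a = 0 := Prod.ext h1 h2
            simp only [this]
            simp
            positivity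
          · have : a ≠ 0 := fun h => h2 (by rw [h]; rfl)
            simp [h1, h2, this]
          · have : a ≠ 0 := fun h => h1 (by rw [h]; rfl)
            simp [h1, h2, this]
          · have : a ≠ 0 := fun h => h1 (by rw [h]; rfl)
            simp [h1, h2, this]
        refine (sum_le_sum fun a _ => h1 a).trans (le_of_eq ?_)
        rw [sum_add_distrib, sum_add_distrib, sum_ite_eq' univ (0 : F × F) (fun _ => (1 : ℝ)), if_pos (mem_univ _),
          Fintype.sum_prod_type, Fintype.sum_prod_type_right]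
        simp only [sum_ite_eq', mem_univ, if_true, sum_const, card_univ, nsmul_eq_mul]
        rw [← hqdef, mul_one_div_cancel hq.ne']
        norm_num) (by positivity)
  exact this

end

end Pool.Agent.Q202.QT
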