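import Pool.Agent.Q202.QT.NtCnt2

/-!
# Counting data of tuples with a common solution, III: three lines
-/

set_option autoImplicit false

namespace Pool.Agent.Q202.QT

open Finset Matrix Pool.Agent.TH831.OT Pool.Agent.TH831.OE

section
variable {F : Type} [Field F]

open Classical in
/-- nilpotent matrices -/
noncomputable def dec (a : F × F) : M2 F := if a.2 = 0 then !![0, 0; a.1, 0] else !![a.1, a.2; -(a.1 ^ 2 / a.2), -a.1]

theorem dec0 {a : F × F} (h : a.2 = 0) : dec a = !![0, 0; a.1, 0] := if_pos h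

theorem dec1 {a : F × F} (h : a.2 ≠ 0) : dec a = !![a.1, a.2; -(a.1 ^ 2 / a.2), -a.1] := if_neg h

theorem exists_dec {M : M2 F} (hM : M * M = 0) : ∃ a, M = dec a := by
  have h1 := tz (trace_zero_of_sq hM)
  have h2 := congrFun (congrFun hM 0) 0
  rw [Matrix.mul_apply, Fin.sum_univ_two, Matrix.zero_apply] at h2
  by_cases h : M 0 1 = 0
  · have h3 : M 0 0 = 0 := by
      rw [h, zero_mul, add_zero] at h2
      exact mul_self_eq_zero.1 h2
    refine ⟨(M 1 0, 0), ?_⟩
    rw [dec0 rfl]
    ext i j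
    fin_cases i <;> fin_cases j
    · exact h3
    · exact h
    · rfl
    · simp [h1, h3]
  · refine ⟨(M 0 0, M 0 1), ?_⟩
    rw [dec1 h]
    ext i j
    fin_cases i <;> fin_cases j
    · rfl
    · rfl
    · show M 1 0 = -(M 0 0 ^ 2 / M 0 1)
      field_simp
      linear_combination h2
    · exact h1

theorem dec_zero : dec (0 : F × F) = 0 := by
  rw [dec0 rfl]
  ext i j
  fin_cases i <;> fin_cases j <;> rfl

/-- lines -/
def VV : Option F → Fin 2 → F
  | none => ![0, 1]
  | some t => ![1, t]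

/-- matrices which preserve a line -/
def CC : Option F → F → F → M2 F
  | none, x, y => !![x, 0; y, -x]
  | some t, x, y => !![x, y; 2 * x * t + y * t ^ 2, -x]

theorem exists_line {v : Fin 2 → F} (hv : v ≠ 0) : ∃ o, ∃ c : F, c ≠ 0 ∧ v = c • VV o := by
  by_cases h : v 0 = 0
  · refine ⟨none, v 1, ?_, ?_⟩
    · intro h1
      apply hv
      funext i
      fin_cases i
      · exact h
      · exact h1
    · funext i
      fin_cases i
      · simp [VV, h]
      · simp [VV]
  · refine ⟨some (v 1 / v 0), v 0, h, ?_⟩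
    funext i
    fin_cases i
    · simp [VV]
    · simp [VV, mul_div_cancel₀ _ h]

theorem wed_scale (M : M2 F) (c : F) (v : Fin 2 → F) : wed (M *ᵥ (c • v)) (c • v) = c ^ 2 * wed (M *ᵥ v) v := by
  rw [Matrix.mulVec_smul]
  unfold wed
  simp only [Pi.smul_apply, smul_eq_mul]
  ring

theorem exists_CC {C : M2 F} (hC : C.trace = 0) {o : Option F} (h : wed (C *ᵥ VV o) (VV o) = 0) :
    ∃ x y, C = CC o x y := by
  have h1 := tz hC
  cases o with
  | none =>
    refine ⟨C 0 0, C 1 0, ?_⟩
    simp only [wed, VV, Matrix.mulVec, dotProduct, Fin.sum_univ_two, Matrix.cons_val_zero, Matrix.cons_val_one] at h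
    ext i j
    fin_cases i <;> fin_cases j
    · rfl
    · show C 0 1 = 0
      linear_combination h
    · rfl
    · exact h1
  | some t =>
    refine ⟨C 0 0, C 0 1, ?_⟩
    simp only [wed, VV, Matrix.mulVec, dotProduct, Fin.sum_univ_two, Matrix.cons_val_zero, Matrix.cons_val_one] at h
    ext i j
    fin_cases i <;> fin_cases j
    · rfl
    · rfl
    · show C 1 0 = 2 * C 0 0 * t + C 0 1 * t ^ 2
      rw [h1] at h
      linear_combination -h
    · exact h1

theorem wed_sum {n : ℕ} (b : Fin n → F) (S : Fin n → M2 F) (v : Fin 2 → F) :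
    wed ((∑ j, b j • S j) *ᵥ v) v = ∑ j, b j * wed (S j *ᵥ v) v := by
  rw [Matrix.sum_mulVec]
  unfold wed
  rw [Finset.sum_apply, Finset.sum_apply, Finset.sum_mul, Finset.sum_mul, ← Finset.sum_sub_distrib]
  refine Finset.sum_congr rfl fun j _ => ?_
  rw [Matrix.smul_mulVec, Pi.smul_apply, Pi.smul_apply, smul_eq_mul, smul_eq_mul]
  ring

theorem rel_diff {n : ℕ} {C : M2 F} {S : Fin n → M2 F} {l : Fin n} {ε : F} {r r' : F × (Fin n → F)}
    (h : (r.1 • C + ∑ j, r.2 j • S j) * S l - S l * (r.1 • C + ∑ j, r.2 j • S j) = (ε * r.1) • S l)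
    (h' : (r'.1 • C + ∑ j, r'.2 j • S j) * S l - S l * (r'.1 • C + ∑ j, r'.2 j • S j) = (ε * r'.1) • S l)
    (h1 : r.1 = r'.1) {a b : Fin n} (hab : a ≠ b) (h2 : ∀ j, j ≠ a → j ≠ b → r.2 j = r'.2 j) :
    ((r.2 a - r'.2 a) • S a + (r.2 b - r'.2 b) • S b) * S l = S l * ((r.2 a - r'.2 a) • S a + (r.2 b - r'.2 b) • S b) := by
  have h3 : ∑ j, (r.2 j - r'.2 j) • S j = (r.2 a - r'.2 a) • S a + (r.2 b - r'.2 b) • S b :=
    Fintype.sum_eq_add a b hab fun j hj => by rw [h2 j hj.1 hj.2, sub_self, zero_smul]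
  have h4 : ∑ j, r.2 j • S j = ∑ j, r'.2 j • S j + ((r.2 a - r'.2 a) • S a + (r.2 b - r'.2 b) • S b) := by
    rw [← h3, ← Finset.sum_add_distrib]
    exact Finset.sum_congr rfl fun j _ => by rw [← add_smul]; congr 1; ring
  set D := (r.2 a - r'.2 a) • S a + (r.2 b - r'.2 b) • S b with hD
  rw [h4, h1] at h
  have h5 : D * S l - S l * D = 0 := by
    have h6 : (r'.1 • C + (∑ j, r'.2 j • S j + D)) * S l - S l * (r'.1 • C + (∑ j, r'.2 j • S j + D)) =
        ((r'.1 • C + ∑ j, r'.2 j • S j) * S l - S l * (r'.1 • C + ∑ j, r'.2 j • S j)) + (D * S l - S l * D) := by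
      noncomm_ring
    rw [h6, h'] at h
    exact left_eq_add.1 h.symm
  exact sub_eq_zero.1 h5

/-- the three cases of the linear independence -/
theorem ind12 (two : (2 : F) ≠ 0) {x y a b s t : F} (hx : x ≠ 0) (hy : y ≠ 0) (ha : a ≠ 0)
    (h : (s • !![0, x; 0, 0] + t • !![0, 0; y, 0]) * !![a, b; -(a ^ 2 / b), -a] =
      !![a, b; -(a ^ 2 / b), -a] * (s • !![0, x; 0, 0] + t • !![0, 0; y, 0])) : s = 0 ∧ t = 0 := by
  have e1 := congrFun (congrFun h 0) 1
  have e2 := congrFun (congrFun h 1) 0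
  simp only [Matrix.mul_apply, Fin.sum_univ_two, Matrix.add_apply, Matrix.smul_apply, Matrix.of_apply, Matrix.cons_val', Matrix.cons_val_zero, Matrix.cons_val_one,
    smul_eq_mul] at e1 e2
  constructor
  · have : (2 * a * x) * s = 0 := by linear_combination -e1
    exact (mul_eq_zero.1 this).resolve_left (mul_ne_zero (mul_ne_zero two ha) hx)
  · have : (2 * a * y) * t = 0 := by linear_combination e2
    exact (mul_eq_zero.1 this).resolve_left (mul_ne_zero (mul_ne_zero two ha) hy)

theorem ind23 (two : (2 : F) ≠ 0) {y z b s t : F} (hy : y ≠ 0) (hz : z ≠ 0) (hb : b ≠ 0)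
    (h : (s • !![0, 0; y, 0] + t • !![z, -z; z, -z]) * !![0, b; 0, 0] =
      !![0, b; 0, 0] * (s • !![0, 0; y, 0] + t • !![z, -z; z, -z])) : s = 0 ∧ t = 0 := by
  have e1 := congrFun (congrFun h 0) 1
  have e2 := congrFun (congrFun h 0) 0
  simp only [Matrix.mul_apply, Fin.sum_univ_two, Matrix.add_apply, Matrix.smul_apply, Matrix.of_apply, Matrix.cons_val', Matrix.cons_val_zero, Matrix.cons_val_one,
    smul_eq_mul] at e1 e2
  have ht : t = 0 := by
    have : (2 * b * z) * t = 0 := by linear_combination e1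
    exact (mul_eq_zero.1 this).resolve_left (mul_ne_zero (mul_ne_zero two hb) hz)
  refine ⟨?_, ht⟩
  rw [ht] at e2
  have : (b * y) * s = 0 := by linear_combination -e2
  exact (mul_eq_zero.1 this).resolve_left (mul_ne_zero hb hy)

theorem ind13 (two : (2 : F) ≠ 0) {x z a s t : F} (hx : x ≠ 0) (hz : z ≠ 0) (ha : a ≠ 0)
    (h : (s • !![0, x; 0, 0] + t • !![z, -z; z, -z]) * !![0, 0; a, 0] =
      !![0, 0; a, 0] * (s • !![0, x; 0, 0] + t • !![z, -z; z, -z])) : s = 0 ∧ t = 0 := by
  have e1 := congrFun (congrFun h 1) 0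
  have e2 := congrFun (congrFun h 0) 0
  simp only [Matrix.mul_apply, Fin.sum_univ_two, Matrix.add_apply, Matrix.smul_apply, Matrix.of_apply, Matrix.cons_val', Matrix.cons_val_zero, Matrix.cons_val_one,
    smul_eq_mul] at e1 e2
  have ht : t = 0 := by
    have : (2 * a * z) * t = 0 := by linear_combination -e1
    exact (mul_eq_zero.1 this).resolve_left (mul_ne_zero (mul_ne_zero two ha) hz)
  refine ⟨?_, ht⟩
  rw [ht] at e2
  have : (a * x) * s = 0 := by linear_combination e2
  exact (mul_eq_zero.1 this).resolve_left (mul_ne_zero ha hx)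

variable [Fintype F] {n : ℕ}

open Classical in
theorem row3 (two : (2 : F) ≠ 0) {ε : F} (C : M2 F) {T : Fin n → F × F} {i1 i2 i3 : Fin n} (h12 : i1 ≠ i2) (h13 : i1 ≠ i3)
    (h23 : i2 ≠ i3) (h1 : (T i1).1 = 0) (h1' : (T i1).2 ≠ 0) (h2 : (T i2).2 = 0) (h2' : (T i2).1 ≠ 0) (h3 : (T i3).1 ≠ 0)
    (h3' : (T i3).2 = -(T i3).1) (l : Fin n) (hl : T l ≠ 0) (S : Finset (F × (Fin n → F))) (hS : ∀ r ∈ S, r.2 l = 0)
    (hS' : ∀ r ∈ S, (r.1 • C + ∑ j, r.2 j • dec (T j)) * dec (T l) - dec (T l) * (r.1 • C + ∑ j, r.2 j • dec (T j)) =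
      (ε * r.1) • dec (T l)) :
    (S.card : ℝ) ≤ (Fintype.card F : ℝ) ^ n / (Fintype.card F : ℝ) ^ 2 := by
  have s1 : dec (T i1) = !![0, (T i1).2; 0, 0] := by
    rw [dec1 h1', h1]
    simp
  have s2 : dec (T i2) = !![0, 0; (T i2).1, 0] := dec0 h2
  have s3 : dec (T i3) = !![(T i3).1, -(T i3).1; (T i3).1, -(T i3).1] := by
    rw [dec1 (by rw [h3']; exact neg_ne_zero.2 h3), h3']
    have : -((T i3).1 ^ 2 / -(T i3).1) = (T i3).1 := by
      field_simp
    rw [this]
  by_cases hb : (T l).2 = 0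
  · have ha : (T l).1 ≠ 0 := fun ha => hl (Prod.ext ha hb)
    have sl : dec (T l) = !![0, 0; (T l).1, 0] := dec0 hb
    refine row_card3 l h13 ?_ ?_ S hS ?_
    · rintro rfl
      exact ha h1
    · rintro rfl
      rw [h3'] at hb
      exact ha (neg_eq_zero.1 hb)
    · intro r hr r' hr' e1 e2
      have := rel_diff (S := fun j => dec (T j)) (hS' r hr) (hS' r' hr') e1 h13 e2
      simp only [s1, s3, sl] at this
      obtain ⟨e3, e4⟩ := ind13 two h1' h3 ha this
      exact ⟨sub_eq_zero.1 e3, sub_eq_zero.1 e4⟩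
  · by_cases ha : (T l).1 = 0
    · have sl : dec (T l) = !![0, (T l).2; 0, 0] := by
        rw [dec1 hb, ha]
        simp
      refine row_card3 l h23 ?_ ?_ S hS ?_
      · rintro rfl
        exact hb h2
      · rintro rfl
        exact h3 ha
      · intro r hr r' hr' e1 e2
        have := rel_diff (S := fun j => dec (T j)) (hS' r hr) (hS' r' hr') e1 h23 e2
        simp only [s2, s3, sl] at this
        obtain ⟨e3, e4⟩ := ind23 two h2' h3 hb this
        exact ⟨sub_eq_zero.1 e3, sub_eq_zero.1 e4⟩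
    · have sl : dec (T l) = !![(T l).1, (T l).2; -((T l).1 ^ 2 / (T l).2), -(T l).1] := dec1 hb
      refine row_card3 l h12 ?_ ?_ S hS ?_
      · rintro rfl
        exact ha h1
      · rintro rfl
        exact hb h2
      · intro r hr r' hr' e1 e2
        have := rel_diff (S := fun j => dec (T j)) (hS' r hr) (hS' r' hr') e1 h12 e2
        simp only [s1, s2, sl] at this
        obtain ⟨e3, e4⟩ := ind12 two h1' h2' ha this
        exact ⟨sub_eq_zero.1 e3, sub_eq_zero.1 e4⟩

open Classical in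
theorem cnt_w3 (two : (2 : F) ≠ 0) (ε : F) (S : Finset ((Fin n → F × (Fin n → F)) × (Fin n → F)))
    (hS : ∀ ω ∈ S, (∀ l, (ω.1 l).2 l = 0) ∧ W3 (fun l => (ω.1 l).1) (fun l => (ω.1 l).2) ω.2 ε) :
    (S.card : ℝ) ≤ ((Fintype.card ((Fin n × Fin n × Fin n) × Option F × F × F) : ℕ) : ℝ) *
      ((Fintype.card F : ℝ) ^ n / Fintype.card F * ((2 * (Fintype.card F : ℝ) ^ n) ^ n * (1 / (Fintype.card F : ℝ)) ^ 3)) := by
  have hq : (0 : ℝ) < Fintype.card F := by exact_mod_cast Fintype.card_pos
  set q : ℝ := (Fintype.card F : ℝ) with hqdef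
  have hqn : (0 : ℝ) < q ^ n := by positivity
  have := union_bound (n := n) (H := (Fin n × Fin n × Fin n) × Option F × F × F) (α := F × F)
    (univ.filter fun h => h.1.1 ≠ h.1.2.1 ∧ h.1.1 ≠ h.1.2.2 ∧ h.1.2.1 ≠ h.1.2.2) S
    (fun h T => (h.1.1 ≠ h.1.2.1 ∧ h.1.1 ≠ h.1.2.2 ∧ h.1.2.1 ≠ h.1.2.2) ∧ (T h.1.1).1 = 0 ∧ (T h.1.1).2 ≠ 0 ∧
      (T h.1.2.1).2 = 0 ∧ (T h.1.2.1).1 ≠ 0 ∧ (T h.1.2.2).1 ≠ 0 ∧ (T h.1.2.2).2 = -(T h.1.2.2).1)
    (fun h T l => univ.filter fun r : F × (Fin n → F) => r.2 l = 0 ∧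
      (r.1 • CC h.2.1 h.2.2.1 h.2.2.2 + ∑ j, r.2 j • dec (T j)) * dec (T l) -
        dec (T l) * (r.1 • CC h.2.1 h.2.2.1 h.2.2.2 + ∑ j, r.2 j • dec (T j)) = (ε * r.1) • dec (T l))
    (fun h T => univ.filter fun b => ∑ j, b j * wed (dec (T j) *ᵥ VV h.2.1) (VV h.2.1) = 0)
    (by
      intro ω hω
      obtain ⟨h1, i1, i2, i3, C, T, v, h12, h13, h23, hC, hsq, t1, t1', t2, t2', t3, t3', hrel, hv0, hv1, hv2⟩ := hS ω hω
      choose t ht using fun l => exists_dec (hsq l)
      obtain ⟨o, c, hc, rfl⟩ := exists_line hv0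
      rw [wed_scale] at hv1 hv2
      have hv1' := (mul_eq_zero.1 hv1).resolve_left (pow_ne_zero 2 hc)
      have hv2' := (mul_eq_zero.1 hv2).resolve_left (pow_ne_zero 2 hc)
      obtain ⟨x, y, rfl⟩ := exists_CC hC hv1'
      have a1 : (t i1).1 = 0 ∧ (t i1).2 ≠ 0 := by
        rw [ht] at t1 t1'
        by_cases h : (t i1).2 = 0
        · exfalso
          apply t1
          rw [dec0 h] at t1' ⊢
          have e := congrFun t1' 1
          simp [Matrix.mulVec, dotProduct, Fin.sum_univ_two] at e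
          ext i j
          fin_cases i <;> fin_cases j <;> simp [e]
        · rw [dec1 h] at t1'
          have e := congrFun t1' 0
          simp [Matrix.mulVec, dotProduct, Fin.sum_univ_two] at e
          exact ⟨e, h⟩
      have a2 : (t i2).2 = 0 ∧ (t i2).1 ≠ 0 := by
        rw [ht] at t2 t2'
        by_cases h : (t i2).2 = 0
        · refine ⟨h, fun h' => t2 ?_⟩
          have : t i2 = 0 := Prod.ext h' h
          rw [this, dec_zero]
        · exfalso
          rw [dec1 h] at t2'
          have e := congrFun t2' 0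
          simp [Matrix.mulVec, dotProduct, Fin.sum_univ_two] at e
          exact h e
      have a3 : (t i3).1 ≠ 0 ∧ (t i3).2 = -(t i3).1 := by
        rw [ht] at t3 t3'
        by_cases h : (t i3).2 = 0
        · exfalso
          rw [dec0 h] at t3'
          have e := congrFun t3' 1
          simp [Matrix.mulVec, dotProduct, Fin.sum_univ_two] at e
          apply t3
          have : t i3 = 0 := Prod.ext e h
          rw [this, dec_zero]
        · rw [dec1 h] at t3'
          have e := congrFun t3' 0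
          simp [Matrix.mulVec, dotProduct, Fin.sum_univ_two] at e
          have e' : (t i3).2 = -(t i3).1 := by linear_combination e
          refine ⟨fun h' => h ?_, e'⟩
          rw [e', h', neg_zero]
      refine ⟨((i1, i2, i3), o, x, y), mem_filter.2 ⟨mem_univ _, h12, h13, h23⟩, t, ⟨⟨h12, h13, h23⟩, a1.1, a1.2, a2.1, a2.2, a3.1, a3.2⟩,
        fun l => mem_filter.2 ⟨mem_univ _, h1 l, ?_⟩, mem_filter.2 ⟨mem_univ _, ?_⟩⟩
      · have := hrel l
        unfold Rel at this
        simp only [ht] at this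
        exact this
      · rw [← wed_sum]
        simp only [ht] at hv2'
        exact hv2')
    (fun h l a => if l = h.1.1 then (if a.1 = 0 then q ^ n / q ^ 2 else 0) else if l = h.1.2.1 then
      (if a.2 = 0 then q ^ n / q ^ 2 else 0) else if l = h.1.2.2 then (if a.2 = -a.1 then q ^ n / q ^ 2 else 0) else
      if a = 0 then q ^ n else q ^ n / q ^ 2)
    (by intro h l a; split_ifs <;> positivity)
    (β := q ^ n / q) (by positivity)
    (by
      rintro ⟨⟨i1, i2, i3⟩, o, x, y⟩ T ⟨⟨h12, h13, h23⟩, h1, h1', h2, h2', h3, h3'⟩ l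
      dsimp only at h12 h13 h23 h1 h1' h2 h2' h3 h3' ⊢
      have key : T l ≠ 0 → ((univ.filter fun r : F × (Fin n → F) => r.2 l = 0 ∧
          (r.1 • CC o x y + ∑ j, r.2 j • dec (T j)) * dec (T l) -
            dec (T l) * (r.1 • CC o x y + ∑ j, r.2 j • dec (T j)) = (ε * r.1) • dec (T l)).card : ℝ) ≤ q ^ n / q ^ 2 := by
        intro hTl
        exact row3 two (CC o x y) h12 h13 h23 h1 h1' h2 h2' h3 h3' l hTl _ (fun r hr => (mem_filter.1 hr).2.1)
          (fun r hr => (mem_filter.1 hr).2.2)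
      by_cases e1 : l = i1
      · rw [if_pos e1, if_pos (by rw [e1, h1])]
        exact key (by rw [e1]; exact fun h => h1' (by rw [h]; rfl))
      · rw [if_neg e1]
        by_cases e2 : l = i2
        · rw [if_pos e2, if_pos (by rw [e2, h2])]
          exact key (by rw [e2]; exact fun h => h2' (by rw [h]; rfl))
        · rw [if_neg e2]
          by_cases e3 : l = i3
          · rw [if_pos e3, if_pos (by rw [e3, h3'])]
            exact key (by rw [e3]; exact fun h => h3 (by rw [h]; rfl))
          · rw [if_neg e3]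
            by_cases h0 : T l = 0
            · rw [if_pos h0]
              exact row_card0 l _ (fun r hr => (mem_filter.1 hr).2.1)
            · rw [if_neg h0]
              exact key h0)
    (by
      rintro ⟨⟨i1, i2, i3⟩, o, x, y⟩ T ⟨⟨h12, h13, h23⟩, h1, h1', h2, h2', h3, h3'⟩
      dsimp only at h12 h13 h23 h1 h1' h2 h2' h3 h3' ⊢
      have s1 : dec (T i1) = !![0, (T i1).2; 0, 0] := by
        rw [dec1 h1', h1]
        simp
      have s2 : dec (T i2) = !![0, 0; (T i2).1, 0] := dec0 h2
      cases o with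
      | none =>
        refine vec_card (c := fun j => wed (dec (T j) *ᵥ VV none) (VV none)) (a := i1) ?_ _ (fun b hb => (mem_filter.1 hb).2)
        simp [s1, wed, VV, Matrix.mulVec, dotProduct, Fin.sum_univ_two, h1']
      | some t =>
        by_cases ht : t = 0
        · refine vec_card (c := fun j => wed (dec (T j) *ᵥ VV (some t)) (VV (some t))) (a := i2) ?_ _
            (fun b hb => (mem_filter.1 hb).2)
          simp [s2, wed, VV, Matrix.mulVec, dotProduct, Fin.sum_univ_two, h2', ht]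
        · refine vec_card (c := fun j => wed (dec (T j) *ᵥ VV (some t)) (VV (some t))) (a := i1) ?_ _
            (fun b hb => (mem_filter.1 hb).2)
          simp [s1, wed, VV, Matrix.mulVec, dotProduct, Fin.sum_univ_two, h1', ht])
    (fun h => {h.1.1, h.1.2.1, h.1.2.2}) 3
    (by
      intro h hh
      obtain ⟨h1, h2, h3⟩ := (mem_filter.1 hh).2
      exact card_eq_three.2 ⟨_, _, _, h1, h2, h3, rfl⟩) (c := 2 * q ^ n) (κ := 1 / q)
    (by
      rintro ⟨⟨i1, i2, i3⟩, o, x, y⟩ _ l
      dsimp only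
      have hp0 : (0 : ℝ) < 1 / q := by positivity
      have hW : q * (q ^ n / q ^ 2) ≤ 2 * q ^ n * (1 / q) := by
        have : q * (q ^ n / q ^ 2) = q ^ n * (1 / q) := by field_simp
        rw [this]
        nlinarith [mul_pos hqn hp0]
      by_cases e1 : l = i1
      · simp only [if_pos e1]
        rw [if_pos (by rw [e1]; simp), Fintype.sum_prod_type_right]
        simp only [sum_ite_eq', mem_univ, if_true, sum_const, card_univ, nsmul_eq_mul]
        exact hW
      · simp only [if_neg e1]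
        by_cases e2 : l = i2
        · simp only [if_pos e2]
          rw [if_pos (by rw [e2]; simp), Fintype.sum_prod_type]
          simp only [sum_ite_eq', mem_univ, if_true, sum_const, card_univ, nsmul_eq_mul]
          exact hW
        · simp only [if_neg e2]
          by_cases e3 : l = i3
          · simp only [if_pos e3]
            rw [if_pos (by rw [e3]; simp), Fintype.sum_prod_type]
            simp only [sum_ite_eq', mem_univ, if_true, sum_const, card_univ, nsmul_eq_mul]
            exact hW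
          · simp only [if_neg e3]
            rw [if_neg (by simp [e1, e2, e3]), mul_one]
            have h1 : ∀ a : F × F, (if a = 0 then q ^ n else q ^ n / q ^ 2) ≤ (if a = 0 then q ^ n else 0) + q ^ n / q ^ 2 := by
              intro a
              have : (0 : ℝ) < q ^ n / q ^ 2 := by positivity
              split_ifs
              · linarith
              · linarith
            refine (sum_le_sum fun a _ => h1 a).trans (le_of_eq ?_)
            rw [sum_add_distrib, sum_ite_eq' univ (0 : F × F) (fun _ => q ^ n), if_pos (mem_univ _), sum_const, card_univ,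
              Fintype.card_prod, nsmul_eq_mul, Nat.cast_mul, ← hqdef]
            field_simp
            norm_num) (by positivity)
  exact this

end

end Pool.Agent.Q202.QT
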