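import Pool.Agent.Q202.QT.Nest

/-!
# Change of fields and of index sets
-/

set_option autoImplicit false

namespace Pool.Agent.Q202.QT

open Matrix Pool.Agent.TH831.OT Pool.Agent.TH831.OE

section
variable {F K : Type} [Field F] [Field K]

theorem wed_map (f : K →+* F) (C : Matrix (Fin 2) (Fin 2) K) (v : Fin 2 → K) :
    wed (f.mapMatrix C *ᵥ fun i => f (v i)) (fun i => f (v i)) = f (wed (C *ᵥ v) v) := by
  unfold wed
  simp only [Matrix.mulVec, dotProduct, Fin.sum_univ_two, RingHom.mapMatrix_apply, Matrix.map_apply, map_sub, map_mul, map_add]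

theorem gsm (f : K →+* F) (c : K) (X : Matrix (Fin 2) (Fin 2) K) : f.mapMatrix (c • X) = f c • f.mapMatrix X := by
  ext i j
  simp only [RingHom.mapMatrix_apply, Matrix.map_apply, Matrix.smul_apply, smul_eq_mul, map_mul]

theorem nti_map {ι : Type} [Fintype ι] (e : F ≃+* K) {u : ι → F} {L : ι → ι → F} {b : ι → F} {ε : F} (h : NTi u L b ε) :
    NTi (fun l => e (u l)) (fun l j => e (L l j)) (fun j => e (b j)) (e ε) := by
  intro C T hC hsq hrel ⟨v, hv0, hv1, hv2⟩
  set f : K →+* F := e.symm.toRingHom with hf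
  have hfe : ∀ x, f (e x) = x := fun x => e.symm_apply_apply x
  have hef : ∀ x, e (f x) = x := fun x => e.apply_symm_apply x
  have finj : Function.Injective f := f.injective
  obtain ⟨w, hw0, hw1, hw2⟩ := h (f.mapMatrix C) (fun j => f.mapMatrix (T j))
    (by
      have := congrArg f hC
      rw [Matrix.trace_fin_two] at this ⊢
      simpa using this)
    (fun l => by rw [← map_mul, hsq l, map_zero])
    (fun l => by
      have h1 := congrArg f.mapMatrix (hrel l)
      unfold Rel
      simp only [map_sub, map_mul, map_add, map_sum, gsm, hfe] at h1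
      exact h1)
    ⟨fun i => f (v i), by
      intro h0
      apply hv0
      funext i
      apply finj
      rw [Pi.zero_apply, map_zero]
      exact congrFun h0 i, by rw [wed_map, hv1, map_zero], by
      have h1 : ∑ j, b j • f.mapMatrix (T j) = f.mapMatrix (∑ j, e (b j) • T j) := by
        rw [map_sum]
        exact Finset.sum_congr rfl fun j _ => by rw [gsm, hfe]
      rw [h1, wed_map, hv2, map_zero]⟩
  have hw : (fun i => f (e (w i))) = w := funext fun i => hfe (w i)
  refine ⟨fun i => e (w i), ?_, ?_, fun l => ?_⟩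
  · intro h0
    apply hw0
    rw [← hw]
    funext i
    have := congrFun h0 i
    simp only [Pi.zero_apply] at this
    rw [this, map_zero, Pi.zero_apply]
  · apply finj
    rw [← wed_map, hw, hw1, map_zero]
  · funext i
    apply finj
    rw [RingHom.map_mulVec, Pi.zero_apply, map_zero]
    have : (f ∘ fun i => e (w i)) = w := hw
    rw [this]
    exact congrFun (hw2 l) i

theorem npi_map {ι : Type} [Fintype ι] (e : F ≃+* K) {u : ι → F} {L : ι → ι → F} {b : ι → F} (h : NPi u L b) :
    NPi (fun l => e (u l)) (fun l j => e (L l j)) (fun j => e (b j)) := by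
  intro xp yp x y hxy h1 h2 h3
  set f : K →+* F := e.symm.toRingHom with hf
  have hfe : ∀ x, f (e x) = x := fun x => e.symm_apply_apply x
  have finj : Function.Injective f := f.injective
  have z : ∀ {a : K}, f a = 0 → a = 0 := fun {a} ha => finj (by rw [ha, map_zero])
  have key := h (f xp) (f yp) (fun j => f (x j)) (fun j => f (y j))
    (fun l => by rw [← map_mul, hxy l, map_zero])
    (fun l => by
      have := congrArg f (h1 l)
      simpa only [map_mul, map_add, map_sum, hfe, map_zero] using this)
    (fun l => by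
      have := congrArg f (h2 l)
      simpa only [map_mul, map_add, map_sum, hfe, map_zero] using this)
    (by
      rcases h3 with ⟨e1, e2⟩ | ⟨e1, e2⟩
      · left
        refine ⟨by rw [e1, map_zero], ?_⟩
        have := congrArg f e2
        simpa only [map_mul, map_sum, hfe, map_zero] using this
      · right
        refine ⟨by rw [e1, map_zero], ?_⟩
        have := congrArg f e2
        simpa only [map_mul, map_sum, hfe, map_zero] using this)
  rcases key with ⟨e1, e2⟩ | ⟨e1, e2⟩
  · exact Or.inl ⟨z e1, fun l => z (e2 l)⟩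
  · exact Or.inr ⟨z e1, fun l => z (e2 l)⟩

open Finset in
theorem nto_of_nti {n : ℕ} {l : Fin n → ℕ} (hl : Function.Injective l) {u : ℕ → K} {L : ℕ → ℕ → K} {b : ℕ → K} {ε : K}
    (h : NTi (fun i => u (l i)) (fun i j => L (l i) (l j)) (fun j => b (l j)) ε) : NTo (univ.image l) u L b ε := by
  intro C T hC hsq hrel ⟨v, hv0, hv1, hv2⟩
  have hs : ∀ g : ℕ → Matrix (Fin 2) (Fin 2) K, ∑ j ∈ univ.image l, g j = ∑ i, g (l i) := fun g =>
    sum_image fun i _ j _ hij => hl hij
  have hm : ∀ i, l i ∈ univ.image l := fun i => mem_image_of_mem l (mem_univ i)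
  obtain ⟨w, hw0, hw1, hw2⟩ := h C (fun i => T (l i)) hC (fun i => hsq _ (hm i)) (fun i => by
      have := hrel _ (hm i)
      rw [hs] at this
      exact this) ⟨v, hv0, hv1, by rw [hs] at hv2; exact hv2⟩
  refine ⟨w, hw0, hw1, fun a ha => ?_⟩
  obtain ⟨i, -, rfl⟩ := mem_image.1 ha
  exact hw2 i

open Finset in
theorem np_of_npi {n : ℕ} {l : Fin n → ℕ} (hl : Function.Injective l) {u : ℕ → K} {L : ℕ → ℕ → K} {b : ℕ → K}
    (h : NPi (fun i => u (l i)) (fun i j => L (l i) (l j)) (fun j => b (l j))) : NP (univ.image l) u L b := by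
  intro xp yp x y hxy h1 h2 h3
  have hs : ∀ g : ℕ → K, ∑ j ∈ univ.image l, g j = ∑ i, g (l i) := fun g =>
    sum_image fun i _ j _ hij => hl hij
  have hm : ∀ i, l i ∈ univ.image l := fun i => mem_image_of_mem l (mem_univ i)
  rcases h xp yp (fun i => x (l i)) (fun i => y (l i)) (fun i => hxy _ (hm i))
    (fun i => by have := h1 _ (hm i); rw [hs] at this; exact this)
    (fun i => by have := h2 _ (hm i); rw [hs] at this; exact this)
    (by rw [hs, hs] at h3; exact h3) with ⟨e1, e2⟩ | ⟨e1, e2⟩
  · left
    refine ⟨e1, fun a ha => ?_⟩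
    obtain ⟨i, -, rfl⟩ := mem_image.1 ha
    exact e2 i
  · right
    refine ⟨e1, fun a ha => ?_⟩
    obtain ⟨i, -, rfl⟩ := mem_image.1 ha
    exact e2 i

end

end Pool.Agent.Q202.QT
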