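import Pool.Agent.TH831.OE.OrdH

/-!
# Ordinary deformations at three tame primes: explicit solution of the equations

For three primes the equations of the criterion for ordinary representations have, up to conjugation, exactly one solution without
common eigenvector; the condition of the criterion is that a quadratic expression does not vanish.
-/

set_option autoImplicit false

namespace Pool.Agent.Q202.QT

open Matrix Pool.Agent.TH831.OT Pool.Agent.TH831.OE

section
variable {K : Type} [Field K]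

def MM (a b c d e f B1 B2 B3 : K) : K :=
  ((c + e) * B2 + (a + f) * B1) * (b - d) + ((c + e) * B3 + (b + d) * B1) * (f - a) + ((a + f) * B3 + (b + d) * B2) * (c - e)

def N1 (a b c d e f : K) : K := (c + e) * (a + f) * (b - d) + (c + e) * (b + d) * (f - a) + (a + f) * (b + d) * (c - e)

def N2 (a b c d e f B1 B2 B3 : K) : K := B1 * B2 * (b - d) + B1 * B3 * (f - a) + B2 * B3 * (c - e)

/-- the quadratic expression -/
def QQ (a b c d e f B1 B2 B3 : K) : K := MM a b c d e f B1 B2 B3 ^ 2 - 4 * N1 a b c d e f * N2 a b c d e f B1 B2 B3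

theorem tz {M : Matrix (Fin 2) (Fin 2) K} (h : M.trace = 0) : M 1 1 = - M 0 0 := by
  rw [Matrix.trace_fin_two] at h
  linear_combination h

theorem det_comm {C D : Matrix (Fin 2) (Fin 2) K} (hC : C.trace = 0) (hD : D.trace = 0) :
    (C * D - D * C).det = (C * C).trace * (D * D).trace - (C * D).trace ^ 2 := by
  have h1 := tz hC
  have h2 := tz hD
  simp only [Matrix.det_fin_two, Matrix.trace_fin_two, Matrix.mul_apply, Fin.sum_univ_two, Matrix.sub_apply, h1, h2]
  ring

theorem res_zero {C D : Matrix (Fin 2) (Fin 2) K} (hC : C.trace = 0) (hD : D.trace = 0) {v : Fin 2 → K} (hv : v ≠ 0)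
    (h1 : wed (C *ᵥ v) v = 0) (h2 : wed (D *ᵥ v) v = 0) : (C * C).trace * (D * D).trace = (C * D).trace ^ 2 := by
  obtain ⟨x, hx⟩ := eig_of_wed hv h1
  obtain ⟨y, hy⟩ := eig_of_wed hv h2
  have h3 : (C * D - D * C) *ᵥ v = 0 := by
    rw [Matrix.sub_mulVec, ← Matrix.mulVec_mulVec, ← Matrix.mulVec_mulVec, hx, hy, Matrix.mulVec_smul, Matrix.mulVec_smul, hx, hy,
      smul_smul, smul_smul, mul_comm, sub_self]
  have h4 : (C * D - D * C).det = 0 := Matrix.exists_mulVec_eq_zero_iff.1 ⟨v, hv, h3⟩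
  rw [det_comm hC hD] at h4
  linear_combination h4

/-- expansion of a trace zero matrix -/
theorem cramer {C X Y Z : Matrix (Fin 2) (Fin 2) K} (hC : C.trace = 0) (hX : X.trace = 0) (hY : Y.trace = 0) (hZ : Z.trace = 0) :
    (X * (Y * Z - Z * Y)).trace • C = (C * (Y * Z - Z * Y)).trace • X + (C * (Z * X - X * Z)).trace • Y +
      (C * (X * Y - Y * X)).trace • Z := by
  have h1 := tz hC
  have h2 := tz hX
  have h3 := tz hY
  have h4 := tz hZ
  ext i j
  fin_cases i <;> fin_cases j <;>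
    simp [Matrix.trace_fin_two, Matrix.mul_apply, Fin.sum_univ_two, Matrix.sub_apply, h1, h2, h3, h4] <;> ring

theorem rel_tr {C X Y Z : Matrix (Fin 2) (Fin 2) K} (hC : C.trace = 0) (hX : X.trace = 0) (hY : Y.trace = 0) (hZ : Z.trace = 0)
    {a b ε : K} (h : (C + a • Y + b • Z) * X - X * (C + a • Y + b • Z) = ε • X) :
    2 * (C * X * Y).trace + 2 * b * (X * Y * Z).trace = ε * (X * Y).trace := by
  have h1 := tz hC
  have h2 := tz hX
  have h3 := tz hY
  have h4 := tz hZ
  have key : (((C + a • Y + b • Z) * X - X * (C + a • Y + b • Z)) * Y).trace =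
      2 * (C * X * Y).trace + 2 * b * (X * Y * Z).trace := by
    simp only [Matrix.trace_fin_two, Matrix.mul_apply, Fin.sum_univ_two, Matrix.sub_apply, Matrix.add_apply, Matrix.smul_apply,
      smul_eq_mul, h1, h2, h3, h4]
    ring
  rw [← key, h, Matrix.smul_mul, Matrix.trace_smul, smul_eq_mul]

theorem tr_swap {X Y Z : Matrix (Fin 2) (Fin 2) K} (hX : X.trace = 0) (hY : Y.trace = 0) (hZ : Z.trace = 0) :
    (X * Z * Y).trace = - (X * Y * Z).trace := by
  have h2 := tz hX
  have h3 := tz hY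
  have h4 := tz hZ
  simp only [Matrix.trace_fin_two, Matrix.mul_apply, Fin.sum_univ_two, h2, h3, h4]
  ring

theorem tr_sw2 {X Y Z : Matrix (Fin 2) (Fin 2) K} (hX : X.trace = 0) (hY : Y.trace = 0) (hZ : Z.trace = 0) :
    (Y * X * Z).trace = - (X * Y * Z).trace := by
  have h2 := tz hX
  have h3 := tz hY
  have h4 := tz hZ
  simp only [Matrix.trace_fin_two, Matrix.mul_apply, Fin.sum_univ_two, h2, h3, h4]
  ring

theorem tr_rev {X Y Z : Matrix (Fin 2) (Fin 2) K} (hX : X.trace = 0) (hY : Y.trace = 0) (hZ : Z.trace = 0) :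
    (Z * Y * X).trace = - (X * Y * Z).trace := by
  have h2 := tz hX
  have h3 := tz hY
  have h4 := tz hZ
  simp only [Matrix.trace_fin_two, Matrix.mul_apply, Fin.sum_univ_two, h2, h3, h4]
  ring

theorem tr_cyc (X Y Z : Matrix (Fin 2) (Fin 2) K) : (Y * Z * X).trace = (X * Y * Z).trace := by
  rw [Matrix.trace_mul_comm, mul_assoc]

/-- the six relations between traces -/
theorem six {C X Y Z : Matrix (Fin 2) (Fin 2) K} (hC : C.trace = 0) (hX : X.trace = 0) (hY : Y.trace = 0) (hZ : Z.trace = 0)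
    {a b c d e f ε : K} (h1 : (C + a • Y + b • Z) * X - X * (C + a • Y + b • Z) = ε • X)
    (h2 : (C + c • X + d • Z) * Y - Y * (C + c • X + d • Z) = ε • Y)
    (h3 : (C + e • X + f • Y) * Z - Z * (C + e • X + f • Y) = ε • Z) :
    2 * (C * X * Y).trace + 2 * b * (X * Y * Z).trace = ε * (X * Y).trace ∧
    -(2 * (C * X * Y).trace) - 2 * d * (X * Y * Z).trace = ε * (X * Y).trace ∧
    2 * (C * Z * X).trace + 2 * f * (X * Y * Z).trace = ε * (X * Z).trace ∧
    -(2 * (C * Z * X).trace) - 2 * a * (X * Y * Z).trace = ε * (X * Z).trace ∧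
    2 * (C * Y * Z).trace + 2 * c * (X * Y * Z).trace = ε * (Y * Z).trace ∧
    -(2 * (C * Y * Z).trace) - 2 * e * (X * Y * Z).trace = ε * (Y * Z).trace := by
  have h1' : (C + b • Z + a • Y) * X - X * (C + b • Z + a • Y) = ε • X := by
    rw [add_right_comm]
    exact h1
  have h2' : (C + d • Z + c • X) * Y - Y * (C + d • Z + c • X) = ε • Y := by
    rw [add_right_comm]
    exact h2
  have h3' : (C + f • Y + e • X) * Z - Z * (C + f • Y + e • X) = ε • Z := by
    rw [add_right_comm]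
    exact h3
  have a1 := rel_tr hC hX hY hZ h1
  have a2 := rel_tr hC hX hZ hY h1'
  have a3 := rel_tr hC hY hX hZ h2
  have a4 := rel_tr hC hY hZ hX h2'
  have a5 := rel_tr hC hZ hX hY h3
  have a6 := rel_tr hC hZ hY hX h3'
  have s1 := tr_swap hC hX hY
  have s2 := tr_swap hC hZ hX
  have s3 := tr_swap hC hY hZ
  have s4 := tr_swap hX hY hZ
  have s5 : (Y * X * Z).trace = -(X * Y * Z).trace := tr_sw2 hX hY hZ
  have s6 : (Y * Z * X).trace = (X * Y * Z).trace := tr_cyc _ _ _
  have s7 : (Z * X * Y).trace = (X * Y * Z).trace := by rw [← tr_cyc]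
  have s8 : (Z * Y * X).trace = -(X * Y * Z).trace := tr_rev hX hY hZ
  have c1 : (Y * X).trace = (X * Y).trace := Matrix.trace_mul_comm _ _
  have c2 : (Z * X).trace = (X * Z).trace := Matrix.trace_mul_comm _ _
  have c3 : (Z * Y).trace = (Y * Z).trace := Matrix.trace_mul_comm _ _
  rw [s4, s2] at a2
  rw [s1, s5, c1] at a3
  rw [s6] at a4
  rw [s7, c2] at a5
  rw [s8, s3, c3] at a6
  refine ⟨a1, ?_, ?_, ?_, ?_, ?_⟩
  · linear_combination a3
  · linear_combination a5
  · linear_combination a2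
  · linear_combination a4
  · linear_combination a6

theorem tr_lin {X Y Z : Matrix (Fin 2) (Fin 2) K} (hX : X * X = 0) (hY : Y * Y = 0) (hZ : Z * Z = 0) (x1 x2 x3 y1 y2 y3 : K) :
    ((x1 • X + x2 • Y + x3 • Z) * (y1 • X + y2 • Y + y3 • Z)).trace =
      (x1 * y2 + x2 * y1) * (X * Y).trace + (x1 * y3 + x3 * y1) * (X * Z).trace + (x2 * y3 + x3 * y2) * (Y * Z).trace := by
  have c1 : (Y * X).trace = (X * Y).trace := Matrix.trace_mul_comm _ _
  have c2 : (Z * X).trace = (X * Z).trace := Matrix.trace_mul_comm _ _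
  have c3 : (Z * Y).trace = (Y * Z).trace := Matrix.trace_mul_comm _ _
  simp only [add_mul, mul_add, Matrix.smul_mul, Matrix.mul_smul, smul_smul, Matrix.trace_add, Matrix.trace_smul, hX, hY, hZ,
    Matrix.trace_zero, smul_eq_mul, c1, c2, c3]
  ring

/-- the case `ε = 1` -/
theorem core1 {C X Y Z : Matrix (Fin 2) (Fin 2) K} (two : (2 : K) ≠ 0) (hC : C.trace = 0) (hX : X * X = 0) (hY : Y * Y = 0)
    (hZ : Z * Z = 0) {a b c d e f B1 B2 B3 : K} (h1 : (C + a • Y + b • Z) * X - X * (C + a • Y + b • Z) = (1 : K) • X)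
    (h2 : (C + c • X + d • Z) * Y - Y * (C + c • X + d • Z) = (1 : K) • Y)
    (h3 : (C + e • X + f • Y) * Z - Z * (C + e • X + f • Y) = (1 : K) • Z) {v : Fin 2 → K} (hv : v ≠ 0)
    (hv1 : wed (C *ᵥ v) v = 0) (hv2 : wed ((B1 • X + B2 • Y + B3 • Z) *ᵥ v) v = 0) (hQ : QQ a b c d e f B1 B2 B3 ≠ 0) :
    (X * Y).trace = 0 ∧ (X * Z).trace = 0 ∧ (Y * Z).trace = 0 := by
  have tX := trace_zero_of_sq hX
  have tY := trace_zero_of_sq hY
  have tZ := trace_zero_of_sq hZ
  obtain ⟨r1, r2, r3, r4, r5, r6⟩ := six hC tX tY tZ h1 h2 h3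
  set t := (X * Y * Z).trace with ht
  have q3 : (X * Y).trace = (b - d) * t := by
    apply mul_left_cancel₀ two
    linear_combination -r1 - r2
  have q2 : (X * Z).trace = (f - a) * t := by
    apply mul_left_cancel₀ two
    linear_combination -r3 - r4
  have q1 : (Y * Z).trace = (c - e) * t := by
    apply mul_left_cancel₀ two
    linear_combination -r5 - r6
  by_cases h0 : t = 0
  · rw [q1, q2, q3, h0]
    simp
  exfalso
  apply hQ
  -- the matrix `C`
  have k1 : (X * (Y * Z - Z * Y)).trace = 2 * t := by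
    rw [mul_sub, Matrix.trace_sub, ← mul_assoc, ← mul_assoc, tr_swap tX tY tZ]
    ring
  have k2 : (C * (Y * Z - Z * Y)).trace = -((c + e) * t) := by
    rw [mul_sub, Matrix.trace_sub, ← mul_assoc, ← mul_assoc, tr_swap hC tY tZ]
    apply mul_left_cancel₀ two
    linear_combination r5 - r6
  have k3 : (C * (Z * X - X * Z)).trace = -((a + f) * t) := by
    rw [mul_sub, Matrix.trace_sub, ← mul_assoc, ← mul_assoc, tr_swap hC tZ tX]
    apply mul_left_cancel₀ two
    linear_combination r3 - r4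
  have k4 : (C * (X * Y - Y * X)).trace = -((b + d) * t) := by
    rw [mul_sub, Matrix.trace_sub, ← mul_assoc, ← mul_assoc, tr_swap hC tX tY]
    apply mul_left_cancel₀ two
    linear_combination r1 - r2
  have k5 := cramer hC tX tY tZ
  rw [k1, k2, k3, k4] at k5
  set C' := (c + e) • X + (a + f) • Y + (b + d) • Z with hC'
  have k6 : C' = (-2 : K) • C := by
    have h : t • C' = t • ((-2 : K) • C) := by
      rw [smul_smul, show t * -2 = -(2 * t) by ring, neg_smul, k5, hC']
      simp only [smul_add, smul_smul, neg_smul, neg_add, neg_neg, mul_comm t]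
    have h' := congrArg (fun M => t⁻¹ • M) h
    simp only [smul_smul, inv_mul_cancel₀ h0, one_smul] at h'
    rw [h', ← mul_assoc, inv_mul_cancel₀ h0, one_mul]
  have k7 : wed (C' *ᵥ v) v = 0 := by
    rw [k6, Matrix.smul_mulVec, wed_smul_left, hv1, mul_zero]
  have tC' : C'.trace = 0 := by rw [k6, Matrix.trace_smul, hC, smul_zero]
  have tD : (B1 • X + B2 • Y + B3 • Z).trace = 0 := by
    rw [Matrix.trace_add, Matrix.trace_add, Matrix.trace_smul, Matrix.trace_smul, Matrix.trace_smul, tX, tY, tZ]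
    simp
  have k8 := res_zero tC' tD hv k7 hv2
  rw [hC', tr_lin hX hY hZ, tr_lin hX hY hZ, tr_lin hX hY hZ, q1, q2, q3] at k8
  have k9 : t ^ 2 * QQ a b c d e f B1 B2 B3 = 0 := by
    unfold QQ MM N1 N2
    linear_combination -k8
  exact (mul_eq_zero.1 k9).resolve_left (pow_ne_zero 2 h0)

theorem nil_form {T : Matrix (Fin 2) (Fin 2) K} {w : Fin 2 → K} (hw : w ≠ 0) (hT : T *ᵥ w = 0) (h0 : T.trace = 0) :
    ∃ x : K, T = x • !![w 0 * w 1, -w 0 ^ 2; w 1 ^ 2, -(w 0 * w 1)] := by
  have e0 := congrFun hT 0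
  have e1 := congrFun hT 1
  simp only [Matrix.mulVec, dotProduct, Fin.sum_univ_two, Pi.zero_apply] at e0 e1
  have e2 := tz h0
  rw [e2] at e1
  by_cases h : w 0 = 0
  · have h1 : w 1 ≠ 0 := by
      intro h1
      apply hw
      funext i
      fin_cases i
      · exact h
      · exact h1
    rw [h] at e0 e1
    have e3 : T 0 1 = 0 := by
      have : T 0 1 * w 1 = 0 := by linear_combination e0
      exact (mul_eq_zero.1 this).resolve_right h1
    have e4 : T 0 0 = 0 := by
      have : T 0 0 * w 1 = 0 := by linear_combination -e1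
      exact (mul_eq_zero.1 this).resolve_right h1
    refine ⟨T 1 0 / w 1 ^ 2, ?_⟩
    ext i j
    fin_cases i <;> fin_cases j
    · simp [e4, h]
    · simp [e3, h]
    · simp [h1]
    · simp [e2, e4, h]
  · refine ⟨-(T 0 1) / w 0 ^ 2, ?_⟩
    have e3 : T 0 0 = - T 0 1 * w 1 / w 0 := by
      field_simp
      linear_combination e0
    have e4 : T 1 0 = - T 0 1 * w 1 ^ 2 / w 0 ^ 2 := by
      have : T 1 0 * w 0 = T 0 0 * w 1 := by linear_combination e1
      field_simp
      have h5 : T 1 0 * w 0 ^ 2 = (T 0 0 * w 0) * w 1 := by linear_combination w 0 * this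
      rw [h5]
      have h6 : T 0 0 * w 0 = - T 0 1 * w 1 := by linear_combination e0
      rw [h6]
      ring
    ext i j
    fin_cases i <;> fin_cases j
    · simp [e3]
      field_simp
    · simp [h]
    · simp [e4]
      field_simp
    · simp [e2, e3]
      field_simp

theorem prop_of_trace {X Z : Matrix (Fin 2) (Fin 2) K} (hX : X * X = 0) (hZ : Z * Z = 0) (hX0 : X ≠ 0)
    (h : (X * Z).trace = 0) : ∃ s : K, Z = s • X := by
  obtain ⟨w, hw0, hXw, -, hw⟩ := nil_kernel hX hX0
  obtain ⟨x, hx⟩ := nil_form hw0 hXw (trace_zero_of_sq hX)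
  obtain ⟨z, hz⟩ := nil_form hw0 (hw Z hZ h) (trace_zero_of_sq hZ)
  have hx0 : x ≠ 0 := by
    rintro rfl
    apply hX0
    rw [hx, zero_smul]
  refine ⟨z / x, ?_⟩
  rw [hx, smul_smul, div_mul_cancel₀ _ hx0]
  exact hz

theorem trace_of_comm {X Y : Matrix (Fin 2) (Fin 2) K} (hX : X * X = 0) (h : X * Y = Y * X) : (X * Y).trace = 0 := by
  apply trace_zero_of_sq
  rw [show X * Y * (X * Y) = X * (Y * X) * Y by simp only [mul_assoc], ← h, ← mul_assoc, hX, zero_mul, zero_mul]

/-- the case `ε = 0`, two independent matrices -/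
theorem pair0 {C X Y Z : Matrix (Fin 2) (Fin 2) K} (hX : X * X = 0) (hY : Y * Y = 0)
    (hZ : Z * Z = 0) {a b c d e f B1 B2 B3 : K} (h1 : (C + a • Y + b • Z) * X - X * (C + a • Y + b • Z) = 0)
    (h2 : (C + c • X + d • Z) * Y - Y * (C + c • X + d • Z) = 0)
    (h3 : (C + e • X + f • Y) * Z - Z * (C + e • X + f • Y) = 0) {v : Fin 2 → K} (hv : v ≠ 0)
    (hv1 : wed (C *ᵥ v) v = 0) (hv2 : wed ((B1 • X + B2 • Y + B3 • Z) *ᵥ v) v = 0) (haf : a ≠ f) (hce : c ≠ e)
    (hD : c * B2 ≠ a * B1) (ht : (X * Z).trace = 0 ∨ (Y * Z).trace = 0) : (X * Y).trace = 0 := by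
  by_contra hxy
  have hX0 : X ≠ 0 := by
    rintro rfl
    apply hxy
    rw [zero_mul, Matrix.trace_zero]
  have hY0 : Y ≠ 0 := by
    rintro rfl
    apply hxy
    rw [mul_zero, Matrix.trace_zero]
  by_cases hZ0 : Z = 0
  · subst hZ0
    obtain ⟨w, hw0, hXw, hker, hw⟩ := nil_kernel hX hX0
    obtain ⟨w', hw'0, hYw', hker', hww'⟩ := nil_kernel hY hY0
    have hwed : wed w w' ≠ 0 := by
      intro hwed
      obtain ⟨c', hc⟩ := eig_of_wed hw'0 hwed
      have h4 : Y *ᵥ w = 0 := by rw [hc, Matrix.mulVec_smul, hYw', smul_zero]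
      exact hxy (trace_mul_zero hw0 (by rw [hXw]; simp [wed]) h4 (trace_zero_of_sq hX) (trace_zero_of_sq hY))
    rw [smul_zero, add_zero] at h1 h2 hv2
    have := triangle (C := C) (uk := 1) (ul := 1) (lkl := a) (llk := c) (bk := B1) (bl := B2) (v := v) hXw hYw' hwed hX hY
      hX0 hY0 one_ne_zero (by
        rw [one_smul, ← h1]
        simp only [add_mul, mul_add, Matrix.smul_mul, Matrix.mul_smul, smul_sub]
        abel) (by
        rw [one_smul, ← h2]
        simp only [add_mul, mul_add, Matrix.smul_mul, Matrix.mul_smul, smul_sub]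
        abel) hv hv1 hv2
    apply hD
    linear_combination this
  rcases ht with ht | ht
  · obtain ⟨s, rfl⟩ := prop_of_trace hX hZ hX0 ht
    have hs : s ≠ 0 := by
      rintro rfl
      exact hZ0 (zero_smul _ _)
    have h4 : s • ((f - a) • (Y * X - X * Y)) = 0 := by
      have h5 : s • ((f - a) • (Y * X - X * Y)) = ((C + e • X + f • Y) * (s • X) - (s • X) * (C + e • X + f • Y)) -
          s • ((C + a • Y + b • s • X) * X - X * (C + a • Y + b • s • X)) := by
        simp only [add_mul, mul_add, Matrix.smul_mul, Matrix.mul_smul, hX, smul_zero]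
        module
      rw [h5, h1, h3, smul_zero, sub_zero]
    have h6 := (smul_eq_zero.1 ((smul_eq_zero.1 h4).resolve_left hs)).resolve_left (sub_ne_zero.2 haf.symm)
    exact hxy (trace_of_comm hX (sub_eq_zero.1 h6).symm)
  · obtain ⟨s, rfl⟩ := prop_of_trace hY hZ hY0 ht
    have hs : s ≠ 0 := by
      rintro rfl
      exact hZ0 (zero_smul _ _)
    have h4 : s • ((e - c) • (X * Y - Y * X)) = 0 := by
      have h5 : s • ((e - c) • (X * Y - Y * X)) = ((C + e • X + f • Y) * (s • Y) - (s • Y) * (C + e • X + f • Y)) -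
          s • ((C + c • X + d • s • Y) * Y - Y * (C + c • X + d • s • Y)) := by
        simp only [add_mul, mul_add, Matrix.smul_mul, Matrix.mul_smul, hY, smul_zero]
        module
      rw [h5, h2, h3, smul_zero, sub_zero]
    have h6 := (smul_eq_zero.1 ((smul_eq_zero.1 h4).resolve_left hs)).resolve_left (sub_ne_zero.2 hce.symm)
    exact hxy (trace_of_comm hX (sub_eq_zero.1 h6))

/-- the case `ε = 0` -/
theorem core0 {C X Y Z : Matrix (Fin 2) (Fin 2) K} (two : (2 : K) ≠ 0) (hC : C.trace = 0) (hX : X * X = 0) (hY : Y * Y = 0)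
    (hZ : Z * Z = 0) {a b c d e f B1 B2 B3 : K} (h1 : (C + a • Y + b • Z) * X - X * (C + a • Y + b • Z) = 0)
    (h2 : (C + c • X + d • Z) * Y - Y * (C + c • X + d • Z) = 0)
    (h3 : (C + e • X + f • Y) * Z - Z * (C + e • X + f • Y) = 0) {v : Fin 2 → K} (hv : v ≠ 0)
    (hv1 : wed (C *ᵥ v) v = 0) (hv2 : wed ((B1 • X + B2 • Y + B3 • Z) *ᵥ v) v = 0) (haf : a ≠ f) (hce : c ≠ e)
    (hbd : b ≠ d) (hD1 : c * B2 ≠ a * B1) (hD2 : e * B3 ≠ b * B1) (hD3 : f * B3 ≠ d * B2) :
    (X * Y).trace = 0 ∧ (X * Z).trace = 0 ∧ (Y * Z).trace = 0 := by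
  have tX := trace_zero_of_sq hX
  have tY := trace_zero_of_sq hY
  have tZ := trace_zero_of_sq hZ
  obtain ⟨r1, r2, -, -, -, -⟩ := six hC tX tY tZ (a := a) (b := b) (c := c) (d := d) (e := e) (f := f) (ε := 0)
    (by rw [zero_smul]; exact h1) (by rw [zero_smul]; exact h2) (by rw [zero_smul]; exact h3)
  have ht : (X * Y * Z).trace = 0 := by
    have : 2 * (b - d) * (X * Y * Z).trace = 0 := by linear_combination r1 + r2
    exact (mul_eq_zero.1 this).resolve_left (mul_ne_zero two (sub_ne_zero.2 hbd))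
  have hg := gram hX hY hZ
  have k1 : ((X * Y - Y * X) * Z).trace = 0 := by
    rw [sub_mul, Matrix.trace_sub, tr_sw2 tX tY tZ, ht]
    ring
  rw [k1] at hg
  have k2 : (X * Y).trace * ((X * Z).trace * (Y * Z).trace) = 0 := by
    have : (2 : K) * 2 * ((X * Y).trace * ((X * Z).trace * (Y * Z).trace)) = 0 := by linear_combination hg
    exact (mul_eq_zero.1 this).resolve_left (mul_ne_zero two two)
  have c1 : (Y * X).trace = (X * Y).trace := Matrix.trace_mul_comm _ _
  have c2 : (Z * X).trace = (X * Z).trace := Matrix.trace_mul_comm _ _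
  have c3 : (Z * Y).trace = (Y * Z).trace := Matrix.trace_mul_comm _ _
  have h1' : (C + b • Z + a • Y) * X - X * (C + b • Z + a • Y) = 0 := by
    rw [add_right_comm]
    exact h1
  have h2' : (C + d • Z + c • X) * Y - Y * (C + d • Z + c • X) = 0 := by
    rw [add_right_comm]
    exact h2
  have h3' : (C + f • Y + e • X) * Z - Z * (C + f • Y + e • X) = 0 := by
    rw [add_right_comm]
    exact h3
  have g1 : (X * Z).trace = 0 ∨ (Y * Z).trace = 0 → (X * Y).trace = 0 := fun h =>
    pair0 hX hY hZ h1 h2 h3 hv hv1 hv2 haf hce hD1 h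
  have g2 : (X * Y).trace = 0 ∨ (Y * Z).trace = 0 → (X * Z).trace = 0 := fun h =>
    pair0 (a := b) (b := a) (c := e) (d := f) (e := c) (f := d) (B1 := B1) (B2 := B3) (B3 := B2) hX hZ hY h1' h3 h2 hv hv1
      (by rw [add_right_comm]; exact hv2) hbd hce.symm hD2 (by rw [c3]; exact h)
  have g3 : (X * Y).trace = 0 ∨ (X * Z).trace = 0 → (Y * Z).trace = 0 := fun h =>
    pair0 (a := d) (b := c) (c := f) (d := e) (e := a) (f := b) (B1 := B2) (B2 := B3) (B3 := B1) hY hZ hX h2' h3' h1 hv hv1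
      (by rw [add_comm (B2 • Y + B3 • Z), ← add_assoc]; exact hv2) hbd.symm haf.symm hD3 (by rw [c1, c2]; exact h)
  rcases mul_eq_zero.1 k2 with h | h
  · exact ⟨h, g2 (Or.inl h), g3 (Or.inl h)⟩
  rcases mul_eq_zero.1 h with h | h
  · exact ⟨g1 (Or.inl h), h, g3 (Or.inr h)⟩
  · exact ⟨g1 (Or.inr h), g2 (Or.inr h), h⟩

end

end Pool.Agent.Q202.QT
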