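import Pool.Agent.Q202.QT.Dens

/-!
# Most primes are good as a third tame prime, wild case
-/

set_option autoImplicit false

namespace Pool.Agent.Q202.QT

open Finset Filter Topology Pool.Agent.W401.Cheb
open Pool.Agent.W569.TG (lk)
open Pool.Agent.Q202.RT

section
variable {p : ℕ} [hpF : Fact p.Prime]

theorem lv_one_add (z : ℕ) : lv p (1 + p * z) = (z : ZMod p) := by
  have hp : p.Prime := hpF.out
  unfold lv
  rw [Nat.add_sub_cancel_left, Nat.mul_div_cancel_left _ hp.pos]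

theorem val_cast {N : ℕ} [NeZero N] (u : ZMod N) {m : ℕ} (h : m ∣ N) : ((u.val : ℕ) : ZMod m) = ZMod.castHom h (ZMod m) u := by
  rw [ZMod.castHom_apply, ZMod.natCast_val]

open Classical in
/-- **Most primes are good as the third tame prime.** -/
theorem dens_wild (hp5 : 5 ≤ p) (χ : ∀ j : ℕ, (ZMod j)ˣ →* Multiplicative (ZMod p)) (hχ : Kr χ) (k l : ℕ)
    (hk : k.Prime) (hl : l.Prime) (hpk : p ∣ k - 1) (hpl : p ∣ l - 1) (hkl : k ≠ l) (hD : Dt χ k l ≠ 0)
    (ε : ℝ) (hε : 0 < ε) :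
    ∀ᶠ x : ℕ in atTop, (dlt p - ε) * ((P1 p x).card : ℝ) ≤ (((P1 p x).filter fun q => q ≠ k ∧ q ≠ l ∧
      GW χ k l q).card : ℝ) := by
  have hp : p.Prime := hpF.out
  have hp2 : p ≠ 2 := by omega
  have hkp : k ≠ p := hnep hk hpk
  have hlp : l ≠ p := hnep hl hpl
  set N := p ^ 2 * k * l with hN
  have hN0 : N ≠ 0 := mul_ne_zero (mul_ne_zero (pow_ne_zero _ hp.ne_zero) hk.ne_zero) hl.ne_zero
  have hp2N : p ^ 2 ∣ N := ⟨k * l, by rw [hN]; ring⟩
  have hpN : p ∣ N := (dvd_pow_self p two_ne_zero).trans hp2N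
  have hkN : k ∣ N := ⟨p ^ 2 * l, by rw [hN]; ring⟩
  have hlN : l ∣ N := ⟨p ^ 2 * k, by rw [hN]; ring⟩
  have : NeZero N := ⟨hN0⟩
  have : NeZero (p ^ 2) := ⟨pow_ne_zero _ hp.ne_zero⟩
  set P : Fin 3 → ℕ := ![p, k, l] with hPdef
  have hP : ∀ i, (P i).Prime := by
    intro i
    fin_cases i
    · exact hp
    · exact hk
    · exact hl
  have hPN : ∀ i, P i ∣ N := by
    intro i
    fin_cases i
    · exact hpN
    · exact hkN
    · exact hlN
  have hinj : Function.Injective P := by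
    intro i j h
    fin_cases i <;> fin_cases j
    · rfl
    · exact absurd h hkp.symm
    · exact absurd h hlp.symm
    · exact absurd h hkp
    · rfl
    · exact absurd h hkl
    · exact absurd h hlp
    · exact absurd h.symm hkl
    · rfl
  set A : Finset (ZMod N)ˣ := univ.filter fun u => ZMod.castHom hpN (ZMod p) (u : ZMod N) = 1 with hA
  have hAne : A.Nonempty := ⟨1, by rw [hA, mem_filter, Units.val_one, map_one]; exact ⟨mem_univ _, rfl⟩⟩
  set r : (ZMod N)ˣ → (Fin 3 → ZMod p) := fun u => ![lv p (u : ZMod N).val, sy χ hkN u, sy χ hlN u] with hr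
  -- the members of `A`
  have hval : ∀ u ∈ A, 1 ≤ (u : ZMod N).val ∧ p ∣ (u : ZMod N).val - 1 := by
    intro u hu
    have h1 := (mem_filter.1 hu).2
    rw [← val_cast (u : ZMod N) hpN] at h1
    have h2 : 1 ≤ (u : ZMod N).val := by
      rcases Nat.eq_zero_or_pos (u : ZMod N).val with h | h
      · rw [h, Nat.cast_zero] at h1
        exact absurd h1 zero_ne_one
      · exact h
    refine ⟨h2, ?_⟩
    rw [← ZMod.natCast_eq_zero_iff, Nat.cast_sub h2, h1, Nat.cast_one, sub_self]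
  have hunif0 : ∀ t : Fin 3 → ZMod p, ∃ g : (ZMod N)ˣ, (∀ u, u ∈ A ↔ g * u ∈ A) ∧ ∀ u ∈ A, r (g * u) = t + r u := by
    intro t
    obtain ⟨y1, hy1⟩ := chi_surj (hχ k hk hpk).1 (t 1)
    obtain ⟨y2, hy2⟩ := chi_surj (hχ l hl hpl).1 (t 2)
    have hc0 : Nat.Coprime (1 + p * (t 0).val) (p ^ 2) := by
      refine Nat.Coprime.pow_right 2 ?_
      rw [Nat.coprime_add_mul_left_left]
      exact Nat.coprime_one_left p
    have ckp : Nat.Coprime k (p ^ 2) := Nat.Coprime.pow_right 2 ((Nat.coprime_primes hk hp).2 hkp)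
    have clp : Nat.Coprime l (p ^ 2) := Nat.Coprime.pow_right 2 ((Nat.coprime_primes hl hp).2 hlp)
    have ckl : Nat.Coprime k l := (Nat.coprime_primes hk hl).2 hkl
    obtain ⟨g, hg⟩ := exists_unit ![p ^ 2, k, l] (by
      intro i
      fin_cases i
      · exact pow_ne_zero _ hp.ne_zero
      · exact hk.ne_zero
      · exact hl.ne_zero) (by
      intro i j hij
      fin_cases i <;> fin_cases j
      · exact absurd rfl hij
      · exact ckp.symm
      · exact clp.symm
      · exact ckp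
      · exact absurd rfl hij
      · exact ckl
      · exact clp
      · exact ckl.symm
      · exact absurd rfl hij) (fun i => match i with
        | 0 => (ZMod.unitOfCoprime _ hc0 : (ZMod (p ^ 2))ˣ)
        | 1 => y1
        | 2 => y2) (N := N) (by
          rw [Fin.prod_univ_three]
          rfl)
    have hg0 : ZMod.castHom hp2N (ZMod (p ^ 2)) (g : ZMod N) = ((1 + p * (t 0).val : ℕ) : ZMod (p ^ 2)) := by
      have h1 : ZMod.unitsMap hp2N g = ZMod.unitOfCoprime _ hc0 := hg 0 hp2N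
      have h2 := congrArg Units.val h1
      rw [ZMod.unitsMap_val, ZMod.coe_unitOfCoprime] at h2
      exact h2
    have hg1 : ZMod.castHom hpN (ZMod p) (g : ZMod N) = 1 := by
      have h1 : ZMod.castHom hpN (ZMod p) (g : ZMod N) =
          ZMod.castHom (dvd_pow_self p two_ne_zero) (ZMod p) (ZMod.castHom hp2N (ZMod (p ^ 2)) (g : ZMod N)) := by
        have : ((ZMod.castHom (dvd_pow_self p two_ne_zero) (ZMod p)).comp (ZMod.castHom hp2N (ZMod (p ^ 2)))) =
            ZMod.castHom hpN (ZMod p) := ZMod.castHom_comp _ _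
        rw [← this]
        rfl
      rw [h1, hg0, map_natCast, Nat.cast_add, Nat.cast_mul, ZMod.natCast_self, zero_mul, add_zero, Nat.cast_one]
    have hmem : ∀ u, u ∈ A ↔ g * u ∈ A := by
      intro u
      rw [hA, mem_filter, mem_filter, Units.val_mul, map_mul, hg1, one_mul]
      exact ⟨fun h => ⟨mem_univ _, h.2⟩, fun h => ⟨mem_univ _, h.2⟩⟩
    refine ⟨g, hmem, fun u hu => ?_⟩
    funext i
    rw [Pi.add_apply]
    fin_cases i
    · show lv p ((g * u : (ZMod N)ˣ) : ZMod N).val = t 0 + lv p (u : ZMod N).val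
      obtain ⟨h1, h2⟩ := hval u hu
      obtain ⟨h3, h4⟩ := hval (g * u) ((hmem u).1 hu)
      obtain ⟨z, hz⟩ := h2
      have hz' : (u : ZMod N).val = 1 + p * z := by omega
      have h5 : lv p ((g * u : (ZMod N)ˣ) : ZMod N).val = lv p (1 + p * ((t 0).val + z)) := by
        refine lv_congr h3 (by omega) h4 ⟨(t 0).val + z, by omega⟩ ?_
        rw [val_cast _ hp2N, Units.val_mul, map_mul, hg0, ← val_cast (u : ZMod N) hp2N, hz', ← Nat.cast_mul,
          ZMod.natCast_eq_natCast_iff]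
        have : (1 + p * (t 0).val) * (1 + p * z) = 1 + p * ((t 0).val + z) + p ^ 2 * ((t 0).val * z) := by ring
        rw [this]
        exact Nat.ModEq.symm (Nat.modEq_iff_dvd.2 ⟨((t 0).val * z : ℕ), by push_cast; ring⟩)
      rw [h5, lv_one_add, hz', lv_one_add, Nat.cast_add, ZMod.natCast_zmod_val]
    · show sy χ hkN (g * u) = t 1 + sy χ hkN u
      rw [sy_mul]
      congr 1
      rw [← hy1]
      unfold sy
      congr 2
      exact hg 1 hkN
    · show sy χ hlN (g * u) = t 2 + sy χ hlN u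
      rw [sy_mul]
      congr 1
      rw [← hy2]
      unfold sy
      congr 2
      exact hg 2 hlN
  have hD' : lk χ p k * lk χ k l * lv p l - lk χ p l * lv p k * lk χ l k ≠ 0 := by
    intro h
    apply hD
    unfold Dt
    linear_combination h
  have hj := joint hp2 hχ hN0 hpN hP hinj hPN A hAne (fun u hu => (mem_filter.1 hu).2) r (fun s => by
      have h := unif A r hunif0 s
      convert h)
    (fun w s => Gd (lk χ p k) (lk χ p l) (lv p k) (lk χ k l) (lv p l) (lk χ l k) w s)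
    (fun w s h hw => h.1 0 (by rw [hw]; rfl)) (fun w s c' hc' h => Gd_smul c' hc' h) (fun q => GW χ k l q)
    (by
      intro q hq u hu huq h
      obtain ⟨h1, h2⟩ := hval u hu
      have h3 : p ∣ q - 1 := by
        have h4 := (mem_filter.1 hu).2
        rw [huq, map_natCast] at h4
        rw [← ZMod.natCast_eq_zero_iff, Nat.cast_sub hq.one_le, h4, Nat.cast_one, sub_self]
      have hlv : lv p q = lv p (u : ZMod N).val := by
        refine lv_congr hq.one_le h1 h3 h2 ?_
        rw [val_cast _ hp2N, huq, map_natCast]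
      have hru : r u = ![lv p q, lk χ q k, lk χ q l] := by
        rw [hr, hlv, lk_eq_sy χ hkN u huq, lk_eq_sy χ hlN u huq]
      rw [hru] at h
      exact h) (ε / 2) (by positivity)
  have hcount := dlt_count hp2 (lk χ p k) (lk χ p l) (lv p k) (lk χ k l) (lv p l) (lk χ l k) hD'
  filter_upwards [hj, (P1_tendsto (p := p)).eventually_ge_atTop (6 / ε)] with x hx1 hx2
  set Cl := (pr x).filter fun q : ℕ => ∃ u ∈ A, ((u : (ZMod N)ˣ) : ZMod N) = (q : ZMod N) with hCl
  have hcl : ∀ q : ℕ, q.Prime → (∃ u ∈ A, ((u : (ZMod N)ˣ) : ZMod N) = (q : ZMod N)) → p ∣ q - 1 ∧ q ≠ k ∧ q ≠ l := by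
    rintro q hq ⟨u, hu, huq⟩
    have hc1 := cast_cop u huq
    rw [hA, mem_filter, huq, map_natCast] at hu
    have h1 : ((q - 1 : ℕ) : ZMod p) = 0 := by rw [Nat.cast_sub hq.one_le, hu.2, Nat.cast_one, sub_self]
    refine ⟨(ZMod.natCast_eq_zero_iff _ _).1 h1, ?_, ?_⟩
    · rintro rfl
      exact hq.one_lt.ne' (Nat.Coprime.eq_one_of_dvd hc1 hkN)
    · rintro rfl
      exact hq.one_lt.ne' (Nat.Coprime.eq_one_of_dvd hc1 hlN)
  have hcl' : ∀ q : ℕ, q.Prime → p ∣ q - 1 → q ≠ k → q ≠ l →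
      ∃ u ∈ A, ((u : (ZMod N)ˣ) : ZMod N) = (q : ZMod N) := by
    intro q hq h1 h2 h3
    have hc1 : q.Coprime N := by
      rw [hN]
      exact Nat.Coprime.mul_right (Nat.Coprime.mul_right (Nat.Coprime.pow_right 2 ((Nat.coprime_primes hq hp).2 (hnep hq h1)))
        ((Nat.coprime_primes hq hk).2 h2)) ((Nat.coprime_primes hq hl).2 h3)
    refine ⟨ZMod.unitOfCoprime q hc1, ?_, ZMod.coe_unitOfCoprime q hc1⟩
    rw [hA, mem_filter, ZMod.coe_unitOfCoprime, map_natCast]
    refine ⟨mem_univ _, ?_⟩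
    have h5 := (ZMod.natCast_eq_zero_iff _ _).2 h1
    rw [Nat.cast_sub hq.one_le, Nat.cast_one, sub_eq_zero] at h5
    exact h5
  have hsub : P1 p x ⊆ Cl ∪ {k, l} := by
    intro q hq
    obtain ⟨h1, h2, h3⟩ := mem_P1.1 hq
    by_cases hqa : q = k
    · exact mem_union_right _ (by rw [hqa]; simp)
    by_cases hqb : q = l
    · exact mem_union_right _ (by rw [hqb]; simp)
    · exact mem_union_left _ (mem_filter.2 ⟨mem_pr.2 ⟨h1, h2⟩, hcl' q h2 h3 hqa hqb⟩)
  have hle : ((P1 p x).card : ℝ) ≤ (Cl.card : ℝ) + 3 := by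
    have h1 := (card_le_card hsub).trans (card_union_le _ _)
    have h2 : ({k, l} : Finset ℕ).card ≤ 2 := card_le_two
    have h3 : (P1 p x).card ≤ Cl.card + 3 := by omega
    exact_mod_cast h3
  refine transfer (dlt_le (by omega)) (Nat.cast_nonneg _) (Nat.cast_nonneg _) ?_ hle hε (by
    rw [div_le_iff₀ hε] at hx2
    linarith)
  have h1 : (dlt p - ε / 2) * (Cl.card : ℝ) ≤ _ * (Cl.card : ℝ) :=
    mul_le_mul_of_nonneg_right (sub_le_sub_right hcount (ε / 2)) (Nat.cast_nonneg _)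
  refine h1.trans (le_trans ?_ (Nat.cast_le.2 (card_le_card (?_ : (pr x).filter (fun q : ℕ =>
    (∃ u ∈ A, ((u : (ZMod N)ˣ) : ZMod N) = (q : ZMod N)) ∧ GW χ k l q) ⊆ _))))
  · convert hx1
  · intro q hq
    rw [mem_filter, mem_pr] at hq
    obtain ⟨h2, h3, h4⟩ := hcl q hq.1.2 hq.2.1
    exact mem_filter.2 ⟨mem_P1.2 ⟨hq.1.1, hq.1.2, h2⟩, h3, h4, hq.2.2⟩

end

end Pool.Agent.Q202.QT
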